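import Pool.Agent.HYP.Defs
import Pool.Agent.VNP.AsDef
/-!
# Hyperbolic groups have finite asymptotic dimension
-/
namespace Pool.Agent.HYP
open Pool.Agent.SLX

/-- Greedy colouring of a group with respect to a finite symmetric set. -/
theorem greedy_col {P : Type} [Group P] (B : Set P) (hB : B.Finite) (hs : ∀ b ∈ B, b⁻¹ ∈ B) :
    ∃ (M : ℕ) (χ : P → Fin (M + 1)), ∀ z w, z⁻¹ * w ∈ B → z ≠ w → χ z ≠ χ w := by
  classical
  set M : ℕ := hB.toFinset.card with hM
  let rel : P → P → Prop := WellOrderingRel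
  have hwf : WellFounded rel := WellOrderingRel.isWellOrder.wf
  have hex : ∀ (z : P) (f : (w : P) → rel w z → Fin (M + 1)),
      ∃ i : Fin (M + 1), ∀ (w : P) (hw : rel w z), z⁻¹ * w ∈ B → f w hw ≠ i := by
    intro z f
    let g : P → Fin (M + 1) := fun b => if h : rel (z * b) z then f (z * b) h else 0
    have hcard : (hB.toFinset.image g).card < (Finset.univ : Finset (Fin (M + 1))).card := by
      rw [Finset.card_univ, Fintype.card_fin]
      exact Nat.lt_succ_of_le Finset.card_image_le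
    obtain ⟨i, _, hi⟩ := Finset.exists_mem_notMem_of_card_lt_card hcard
    refine ⟨i, fun w hw hwB he => hi ?_⟩
    refine Finset.mem_image.2 ⟨z⁻¹ * w, hB.mem_toFinset.2 hwB, ?_⟩
    have h1 : z * (z⁻¹ * w) = w := mul_inv_cancel_left z w
    have h2 : rel (z * (z⁻¹ * w)) z := by rw [h1]; exact hw
    simp only [g, dif_pos h2]
    rw [← he]
    congr 1
  let χ : P → Fin (M + 1) := hwf.fix (fun z f => Classical.choose (hex z f))
  have hχ : ∀ z w, rel w z → z⁻¹ * w ∈ B → χ w ≠ χ z := by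
    intro z w hw hB
    have h1 : χ z = Classical.choose (hex z fun w _ => χ w) := hwf.fix_eq _ z
    rw [h1]
    exact Classical.choose_spec (hex z fun w _ => χ w) w hw hB
  refine ⟨M, χ, fun z w hzw hne => ?_⟩
  rcases trichotomous_of rel z w with h | h | h
  · refine hχ w z h ?_
    have h1 := hs _ hzw
    rwa [mul_inv_rev, inv_inv] at h1
  · exact absurd h hne
  · exact (hχ z w h hzw).symm

/-- Hyperbolic groups have finite asymptotic dimension. -/
theorem rhyp_asdim {P : Type} [Group P] (h : RHyp P) : ∃ D, VNP.AsdimLE P D := by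
  classical
  obtain ⟨L⟩ := h
  obtain ⟨M, χ, hχ⟩ := greedy_col {g : P | L.l g ≤ 2 * L.c + 2 * L.δ} (L.fin _)
    (fun b hb => by
      show L.l b⁻¹ ≤ _
      rw [L.inv]
      exact hb)
  refine ⟨2 * M + 1, fun F hF => ?_⟩
  obtain ⟨r, hr⟩ : ∃ r, ∀ f ∈ F, L.l f ≤ r := by
    obtain ⟨r, hr⟩ := (hF.image L.l).bddAbove
    exact ⟨r, fun f hf => hr ⟨f, hf, rfl⟩⟩
  set N : ℕ := r + 1 with hN
  have hNpos : 0 < N := Nat.succ_pos _
  let n : P → ℕ := fun x => L.l x / N
  have hn1 : ∀ x, n x * N ≤ L.l x := fun x => Nat.div_mul_le_self _ _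
  have hn2 : ∀ x, L.l x < n x * N + N := fun x => by
    have h1 := Nat.lt_mul_div_succ (L.l x) hNpos
    have h2 : N * (L.l x / N + 1) = n x * N + N := by show _ = L.l x / N * N + N; ring
    omega
  have hz : ∀ x, ∃ z, (n x = 0 → z = 1) ∧ (n x ≠ 0 → L.l z ≤ (n x - 1) * N + L.c ∧
      L.l (z⁻¹ * x) + (n x - 1) * N ≤ L.l x + L.c) := by
    intro x
    by_cases h0 : n x = 0
    · exact ⟨1, fun _ => rfl, fun h => absurd h0 h⟩
    · obtain ⟨z, hz1, hz2⟩ := L.geo x ((n x - 1) * N)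
        ((Nat.mul_le_mul_right _ (Nat.sub_le _ _)).trans (hn1 x))
      exact ⟨z, fun h => absurd h h0, fun _ => ⟨hz1, hz2⟩⟩
  choose z hz0 hz1 using hz
  let par : P → Fin 2 := fun x => ⟨n x % 2, Nat.mod_lt _ (by norm_num)⟩
  have hcast : 2 * (M + 1) = 2 * M + 1 + 1 := by ring
  have hd : ∀ x y w : P, L.l (x⁻¹ * w) ≤ L.l (x⁻¹ * y) + L.l (y⁻¹ * w) := by
    intro x y w
    have h1 : x⁻¹ * w = (x⁻¹ * y) * (y⁻¹ * w) := by group
    rw [h1]
    exact L.mul _ _
  have hsy : ∀ x y : P, L.l (x⁻¹ * y) = L.l (y⁻¹ * x) := by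
    intro x y
    rw [← L.inv (x⁻¹ * y), mul_inv_rev, inv_inv]
  have hl : ∀ x y : P, L.l y ≤ L.l x + L.l (x⁻¹ * y) := by
    intro x y
    have h1 := L.mul x (x⁻¹ * y)
    rwa [mul_inv_cancel_left] at h1
  refine ⟨{g | L.l g ≤ 4 * N + 2 * L.c}, L.fin _,
    fun x => Fin.cast hcast (finProdFinEquiv (par x, χ (z x))), fun x y hxy => ?_⟩
  have hstep : ∀ u v, (Fin.cast hcast (finProdFinEquiv (par u, χ (z u))) =
      Fin.cast hcast (finProdFinEquiv (par v, χ (z v))) ∧ u⁻¹ * v ∈ F) →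
      n u = n v ∧ z u = z v := by
    rintro u v ⟨hc, hF⟩
    have h1 : (par u, χ (z u)) = (par v, χ (z v)) :=
      finProdFinEquiv.injective (Fin.cast_injective hcast hc)
    obtain ⟨h2, h3⟩ := Prod.ext_iff.1 h1
    have h2' : n u % 2 = n v % 2 := congrArg Fin.val h2
    have h4 : L.l (u⁻¹ * v) ≤ r := hr _ hF
    have h5 := hl u v
    have h6 := hl v u
    rw [hsy v u] at h6
    have h7 : n u ≤ n v + 1 := by
      have h8 : L.l u / N ≤ (L.l v + N) / N := Nat.div_le_div_right (by omega)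
      rwa [Nat.add_div_right _ hNpos] at h8
    have h8 : n v ≤ n u + 1 := by
      have h9 : L.l v / N ≤ (L.l u + N) / N := Nat.div_le_div_right (by omega)
      rwa [Nat.add_div_right _ hNpos] at h9
    have hnn : n u = n v := by omega
    refine ⟨hnn, ?_⟩
    by_cases h0 : n u = 0
    · rw [hz0 u h0, hz0 v (hnn ▸ h0)]
    · by_contra hne
      refine hχ (z u) (z v) ?_ hne h3
      show L.l ((z u)⁻¹ * z v) ≤ 2 * L.c + 2 * L.δ
      obtain ⟨a1, a2⟩ := hz1 u h0
      obtain ⟨b1, b2⟩ := hz1 v (hnn ▸ h0)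
      rw [← hnn] at b1 b2
      have hu1 := hn1 u
      have hv1 := hn1 v
      rw [← hnn] at hv1
      have ht : (n u - 1) * N + N = n u * N := by
        obtain ⟨k, hk⟩ := Nat.exists_eq_succ_of_ne_zero h0
        rw [hk, Nat.succ_sub_one, Nat.succ_mul]
      have e1 := L.hyp 1 (z u) u v
      have e2 := L.hyp 1 (z u) v (z v)
      simp only [inv_one, one_mul] at e1 e2
      rw [hsy v (z v)] at e2
      have f1 : L.l ((z u)⁻¹ * v) + (n u - 1) * N ≤ L.l v + L.c + L.δ := by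
        rcases le_total (L.l (z u) + L.l (u⁻¹ * v)) (L.l v + L.l ((z u)⁻¹ * u)) with hm | hm
        · rw [max_eq_right hm] at e1
          omega
        · rw [max_eq_left hm] at e1
          omega
      rcases le_total (L.l (z u) + L.l ((z v)⁻¹ * v)) (L.l (z v) + L.l ((z u)⁻¹ * v)) with
        hm | hm
      · rw [max_eq_right hm] at e2
        omega
      · rw [max_eq_left hm] at e2
        omega
  have hxy' : n x = n y ∧ z x = z y := by
    induction hxy with
    | refl => exact ⟨rfl, rfl⟩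
    | tail _ hab ih =>
      obtain ⟨i1, i2⟩ := hstep _ _ hab
      exact ⟨ih.1.trans i1, ih.2.trans i2⟩
  obtain ⟨g1, g2⟩ := hxy'
  show L.l (x⁻¹ * y) ≤ 4 * N + 2 * L.c
  have hx := hn2 x
  have hy := hn2 y
  by_cases h0 : n x = 0
  · have h1 := L.mul x⁻¹ y
    rw [L.inv] at h1
    rw [← g1] at hy
    rw [h0] at hx hy
    omega
  · obtain ⟨a1, a2⟩ := hz1 x h0
    obtain ⟨b1, b2⟩ := hz1 y (g1 ▸ h0)
    rw [← g1] at b1 b2 hy
    rw [← g2] at b2
    have h1 := hd x (z x) y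
    rw [hsy x (z x)] at h1
    have ht : (n x - 1) * N + N = n x * N := by
      obtain ⟨k, hk⟩ := Nat.exists_eq_succ_of_ne_zero h0
      rw [hk, Nat.succ_sub_one, Nat.succ_mul]
    omega

end Pool.Agent.HYP
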