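import Pool.Agent.HYP.CeRSec
import Pool.Agent.SLA.Pi
/-!
# Central extensions of hyperbolic groups are automatic (Neumann, Reeves)
-/
namespace Pool.Agent.HYP
open Pool.Agent.SLX Pool.Agent.SLA
open scoped Pointwise

section
variable {m : ℕ} {A E P : Type} [Group E] [Group P] {π : A → E} {f : E →* P}
  {φ : (Fin m → ℤ) → E}

/-- The fellow traveller property for finitely many elements. -/
theorem ftp_finite {B Z : Type} [Group Z] {σ : B → Z} {M : Language B} (h : FTP σ M)
    {F : Set Z} (hF : F.Finite) : ∃ D : Set Z, D.Finite ∧ ∀ u ∈ M, ∀ v ∈ M,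
      (val σ u)⁻¹ * val σ v ∈ F → ∀ t, (val σ (u.take t))⁻¹ * val σ (v.take t) ∈ D := by
  choose D hD hd using h
  refine ⟨⋃ g ∈ F, D g, hF.biUnion (fun g _ => hD g), fun u hu v hv huv t => ?_⟩
  exact Set.mem_biUnion huv (hd _ u hu v hv (by group) t)

theorem val_let1 {B : Type} (σ₁ : A → E) (σ₂ : B → E) (u : List A) (v : List B) :
    val (Sum.elim σ₁ σ₂) (u.map Sum.inl ++ v.map Sum.inr) = val σ₁ u * val σ₂ v := by
  rw [SLA.val_append]
  simp only [val, List.map_map]
  rfl

theorem ce_ftp [Finite A] (h : CE m π f φ) (L : RLen P) {K : ℕ} {ρ : E → Fin m → ℤ}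
    (hρ : Rho m π f φ K ρ) {B : Type} [Finite B] {σ : B → Fin m → Multiplicative ℤ}
    {M : Language B} (hM : FTP σ M) :
    FTP (Sum.elim (let1 π φ K) (fun b => h.hom (σ b))) (prodLang (lang1 π f φ K ρ) M) := by
  classical
  intro g
  set c := wlen (fun a => f (π a)) (f g) with hc
  obtain ⟨D1, hD1, hd1⟩ := lang1_ft h L hρ c
  -- the central parts
  set F : Set (Fin m → Multiplicative ℤ) := h.hom ⁻¹' (D1⁻¹ * {g}) with hF
  have hFf : F.Finite := (hD1.inv.mul (Set.finite_singleton g)).preimage (h.hom_inj.injOn)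
  obtain ⟨D2, hD2, hd2⟩ := ftp_finite hM hFf
  set W : Set (Fin m → Multiplicative ℤ) := val σ '' {w : List B | w.length ≤ c} with hW
  have hWf : W.Finite := words_finite σ c
  have hW1 : (1 : Fin m → Multiplicative ℤ) ∈ W := ⟨[], by simp, by simp [val]⟩
  refine ⟨D1 * (h.hom '' (W⁻¹ * D2 * W)), hD1.mul (((hWf.inv.mul hD2).mul hWf).image _), ?_⟩
  rintro w ⟨u, hu, v, hv, rfl⟩ w' ⟨u', hu', v', hv', rfl⟩ hww n
  have hval : ∀ v : List B, val (fun b => h.hom (σ b)) v = h.hom (val σ v) := by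
    intro v
    rw [CE.val_map]
  have key : ∀ (u : List (A × Corr m K)) (v : List B),
      val (Sum.elim (let1 π φ K) (fun b => h.hom (σ b)))
      ((u.map Sum.inl ++ v.map Sum.inr).take n) =
      val (let1 π φ K) (u.take n) * h.hom (val σ (v.take (n - u.length))) := by
    intro u v
    rw [List.take_append, ← List.map_take, ← List.map_take, val_let1, List.length_map, hval]
  rw [val_let1, val_let1, hval, hval] at hww
  rw [key, key]
  have hP : (f (val (let1 π φ K) u))⁻¹ * f (val (let1 π φ K) u') = f g := by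
    have h1 := congrArg f hww
    rw [map_mul, map_mul, map_mul, h.hom_apply, h.hom_apply, h.ker_phi, h.ker_phi, mul_one,
      mul_one] at h1
    rw [← h1, inv_mul_cancel_left]
  obtain ⟨e1, l1, l2⟩ := hd1 u hu u' hu' (by rw [hP])
  have hk : (val σ v)⁻¹ * val σ v' ∈ F := by
    have h1 := e1 (max u.length u'.length)
    rw [List.take_of_length_le (le_max_left _ _), List.take_of_length_le (le_max_right _ _)] at h1
    show h.hom ((val σ v)⁻¹ * val σ v') ∈ D1⁻¹ * {g}
    refine Set.mem_mul.2 ⟨((val (let1 π φ K) u)⁻¹ * val (let1 π φ K) u')⁻¹, ?_, g, rfl, ?_⟩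
    · rw [Set.mem_inv, inv_inv]
      exact h1
    · rw [map_mul, map_inv]
      have h2 : h.hom (val σ v') = (val (let1 π φ K) u')⁻¹ *
          (val (let1 π φ K) u * h.hom (val σ v) * g) := by
        rw [hww]
        group
      rw [h2, ← h.hom_central]
      have h3 := h.hom_central (val σ v)⁻¹ (val (let1 π φ K) u')⁻¹
      rw [map_inv] at h3
      rw [← mul_assoc, h3]
      group
  have e2 := hd2 v hv v' hv' hk
  set s := n - u.length with hs
  set s' := n - u'.length with hs'
  have hfin : (val σ (v.take s))⁻¹ * val σ (v'.take s') ∈ W⁻¹ * D2 * W := by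
    rcases le_total s s' with hle | hle
    · -- `s' = s + d`, `d ≤ c`
      have e3 := e2 s
      have h4 : v'.take s' = v'.take s ++ (v'.drop s).take (s' - s) := by
        have : s' = s + (s' - s) := by omega
        conv_lhs => rw [this, List.take_add]
      rw [h4, SLA.val_append]
      refine Set.mem_mul.2 ⟨(val σ (v.take s))⁻¹ * val σ (v'.take s), Set.mem_mul.2
        ⟨1, ?_, _, e3, one_mul _⟩, _, ⟨(v'.drop s).take (s' - s), ?_, rfl⟩, ?_⟩
      · rw [Set.mem_inv, inv_one]
        exact hW1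
      · simp only [Set.mem_ofPred_eq, List.length_take]
        omega
      · group
    · have e3 := e2 s'
      have h4 : v.take s = v.take s' ++ (v.drop s').take (s - s') := by
        have : s = s' + (s - s') := by omega
        conv_lhs => rw [this, List.take_add]
      rw [h4, SLA.val_append]
      refine Set.mem_mul.2 ⟨(val σ ((v.drop s').take (s - s')))⁻¹ *
        ((val σ (v.take s'))⁻¹ * val σ (v'.take s')), Set.mem_mul.2
        ⟨_, ?_, _, e3, rfl⟩, 1, hW1, ?_⟩
      · rw [Set.mem_inv, inv_inv]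
        refine ⟨_, ?_, rfl⟩
        simp only [Set.mem_ofPred_eq, List.length_take]
        omega
      · group
  refine Set.mem_mul.2 ⟨_, e1 n, _, ⟨_, hfin, rfl⟩, ?_⟩
  rw [map_mul, map_inv, mul_inv_rev]
  have h3 := h.hom_central (val σ (v.take s))⁻¹ ((val (let1 π φ K) (u.take n))⁻¹ *
    val (let1 π φ K) (u'.take n))
  rw [map_inv] at h3
  rw [← mul_assoc, ← h3]
  group

theorem ce_automatic {m : ℕ} {A E P : Type} [Finite A] [Group E] [Group P] {π : A → E}
    {f : E →* P} {φ : (Fin m → ℤ) → E} (h : CE m π f φ) (L : RLen P) : Automatic E := by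
  obtain ⟨K, ρ, hρ⟩ := exists_rho h
  obtain ⟨B, hB, _, σ, hst⟩ := sla_zm m
  have f2 := ftp_of_structure hst
  obtain ⟨r2, s2, _⟩ := hst
  refine ⟨(A × Corr m K) ⊕ B, inferInstance, _, _, structure_of_ftp
    (prodLang_regular (lang1_regular h L hρ) r2) ?_ (ce_ftp h L hρ f2)⟩
  intro g
  obtain ⟨u, hu, hug⟩ := lang1_onto h hρ (f g)
  obtain ⟨k, hk⟩ := (h.ker ((val (let1 π φ K) u)⁻¹ * g)).1 (by
    rw [map_mul, map_inv, hug, inv_mul_cancel])
  obtain ⟨x, hx⟩ := h.hom_surj k
  obtain ⟨v, hv, hvx⟩ := s2 x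
  refine ⟨u.map Sum.inl ++ v.map Sum.inr, ⟨u, hu, v, hv, rfl⟩, ?_⟩
  rw [val_let1, ← CE.val_map, hvx, hx, hk]
  group

end

end Pool.Agent.HYP
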