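import Pool.Agent.HYP.Defs
/-!
# Module MORSE: stability of quasi-geodesics
-/
namespace Pool.Agent.HYP
open Pool.Agent.SLX

namespace Mo

variable {P : Type} [Group P] (L : RLen P)

/-- The distance. -/
def d (x y : P) : ℕ := L.l (x⁻¹ * y)

theorem d_self (x : P) : d L x x = 0 := by
  unfold d
  rw [inv_mul_cancel, L.one]

theorem d_comm (x y : P) : d L x y = d L y x := by
  unfold d
  rw [← L.inv (x⁻¹ * y), mul_inv_rev, inv_inv]

theorem d_tri (x y z : P) : d L x z ≤ d L x y + d L y z := by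
  unfold d
  have h := L.mul (x⁻¹ * y) (y⁻¹ * z)
  have e : x⁻¹ * y * (y⁻¹ * z) = x⁻¹ * z := by group
  rwa [e] at h

theorem d_geo (x y : P) (n : ℕ) (hn : n ≤ d L x y) :
    ∃ h, d L x h ≤ n + L.c ∧ d L h y + n ≤ d L x y + L.c := by
  obtain ⟨h, h1, h2⟩ := L.geo (x⁻¹ * y) n hn
  refine ⟨x * h, ?_, ?_⟩
  · unfold d
    have e : x⁻¹ * (x * h) = h := by group
    rwa [e]
  · unfold d
    have e : (x * h)⁻¹ * y = h⁻¹ * (x⁻¹ * y) := by group
    rwa [e]

theorem d_hyp (x y z w : P) : d L x z + d L y w ≤ d L x y + d L z w + L.δ ∨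
    d L x z + d L y w ≤ d L x w + d L y z + L.δ := by
  unfold d
  have h := L.hyp x y z w
  rcases le_total (L.l (x⁻¹ * y) + L.l (z⁻¹ * w)) (L.l (x⁻¹ * w) + L.l (y⁻¹ * z)) with h1 | h1
  · rw [max_eq_right h1] at h
    exact Or.inr h
  · rw [max_eq_left h1] at h
    exact Or.inl h

/-- The inequality for Gromov products. -/
theorem split (q u v w : P) (X : ℕ) (h : d L q u + d L q w ≤ d L u w + X) :
    d L q u + d L q v ≤ d L u v + (X + L.δ) ∨ d L q v + d L q w ≤ d L v w + (X + L.δ) := by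
  have h1 := d_hyp L u q w v
  have e1 := d_comm L u q
  have e2 := d_comm L w v
  rcases h1 with h1 | h1
  · right; omega
  · left; omega

theorem log_lemma (r : ℕ) (q : P) (p : ℕ → P) (s : ℕ) : ∀ X i j : ℕ, i ≤ j → j - i ≤ 2 ^ s →
    (∀ k, i ≤ k → k < j → d L (p k) (p (k + 1)) ≤ r) →
    d L q (p i) + d L q (p j) ≤ d L (p i) (p j) + X →
    ∃ k, i ≤ k ∧ k ≤ j ∧ 2 * d L q (p k) ≤ X + L.δ * s + 2 * r := by
  induction s with
  | zero =>
    intro X i j hij hs hr hX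
    rw [pow_zero] at hs
    refine ⟨i, le_rfl, hij, ?_⟩
    rcases Nat.eq_or_lt_of_le hij with rfl | hlt
    · have := d_self L (p i)
      omega
    · have hj : j = i + 1 := by omega
      subst hj
      have h1 := hr i le_rfl hlt
      have h2 := d_tri L q (p (i + 1)) (p i)
      have h3 := d_comm L (p (i + 1)) (p i)
      omega
  | succ s ih =>
    intro X i j hij hs hr hX
    have h2 : 2 ^ (s + 1) = 2 * 2 ^ s := by rw [pow_succ]; ring
    have e : L.δ * (s + 1) = L.δ * s + L.δ := by ring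
    rcases split L q (p i) (p (i + (j - i) / 2)) (p j) X hX with h | h
    · obtain ⟨k, h1, h2, h3⟩ := ih (X + L.δ) i (i + (j - i) / 2) (by omega) (by omega)
        (fun k hk hk' => hr k hk (by omega)) h
      exact ⟨k, h1, by omega, by omega⟩
    · obtain ⟨k, h1, h2, h3⟩ := ih (X + L.δ) (i + (j - i) / 2) j (by omega) (by omega)
        (fun k hk hk' => hr k (by omega) hk') h
      exact ⟨k, by omega, h2, by omega⟩

theorem expo (A : ℕ) : ∃ U, ∀ u, U ≤ u → A * (u + 1) ≤ 2 ^ u := by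
  refine ⟨4 * A, ?_⟩
  intro u hu
  induction u, hu using Nat.le_induction with
  | base =>
    have h1 : 2 * A + 1 ≤ 2 ^ (2 * A) := Nat.lt_two_pow_self
    have h2 : 2 ^ (4 * A) = 2 ^ (2 * A) * 2 ^ (2 * A) := by rw [← pow_add]; congr 1; ring
    rw [h2]
    calc A * (4 * A + 1) ≤ (2 * A + 1) * (2 * A + 1) := by nlinarith
      _ ≤ _ := Nat.mul_le_mul h1 h1
  | succ u hu ih =>
    have h1 : u < 2 ^ u := Nat.lt_two_pow_self
    have h2 : 2 ^ (u + 1) = 2 ^ u + 2 ^ u := by rw [pow_succ]; ring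
    rw [h2]
    have h3 : A * (u + 1 + 1) = A * (u + 1) + A := by ring
    rw [h3]
    have h4 : A ≤ 2 ^ u := by omega
    omega

theorem threshold (a b K δ : ℕ) : ∃ T, ∀ D, T ≤ D → a * (6 * D + K) + b ≤ 2 ^ (D / (δ + 1)) := by
  obtain ⟨U, hU⟩ := expo (6 * a * (δ + 1) + a * K + b)
  refine ⟨U * (δ + 1), ?_⟩
  intro D hD
  have h1 : U ≤ D / (δ + 1) := (Nat.le_div_iff_mul_le (Nat.succ_pos _)).2 hD
  have h2 := hU _ h1
  refine le_trans ?_ h2
  set u := D / (δ + 1) with hu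
  have h3 : D ≤ (δ + 1) * (u + 1) := (Nat.lt_mul_div_succ D (Nat.succ_pos δ)).le
  have h4 : a * D ≤ a * ((δ + 1) * (u + 1)) := Nat.mul_le_mul_left a h3
  have h5 : a * K ≤ a * K * (u + 1) := Nat.le_mul_of_pos_right _ (Nat.succ_pos u)
  have h6 : b ≤ b * (u + 1) := Nat.le_mul_of_pos_right _ (Nat.succ_pos u)
  calc a * (6 * D + K) + b = 6 * (a * D) + a * K + b := by ring
    _ ≤ 6 * (a * ((δ + 1) * (u + 1))) + a * K * (u + 1) + b * (u + 1) := by omega
    _ = (6 * a * (δ + 1) + a * K + b) * (u + 1) := by ring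

/-- The data of a rough geodesic from `x` to `y`. -/
def Geo (x y : P) (H : ℕ → P) : Prop :=
  ∀ m, m ≤ d L x y → d L x (H m) ≤ m + L.c ∧ d L (H m) y + m ≤ d L x y + L.c

theorem geo_lower {x y : P} {H : ℕ → P} (hH : Geo L x y H) {m : ℕ} (hm : m ≤ d L x y) :
    m ≤ d L x (H m) + L.c := by
  have h1 := hH m hm
  have h2 := d_tri L x (H m) y
  omega

theorem geo_dist {x y : P} {H : ℕ → P} (hH : Geo L x y H) {m m' : ℕ} (hm : m ≤ m')
    (hm' : m' ≤ d L x y) : d L (H m) (H m') + m ≤ m' + 2 * L.c + L.δ := by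
  have h1 := hH m (hm.trans hm')
  have h2 := hH m' hm'
  have e1 := d_comm L (H m) y
  have e2 := d_comm L (H m') y
  rcases d_hyp L x (H m) y (H m') with h | h
  · omega
  · omega

theorem order_free (r a b n : ℕ) (p : ℕ → P) (hp : QG L r a b n p) (q : P) (X M s i j : ℕ)
    (hi : i ≤ n) (hj : j ≤ n) (hM : d L (p i) (p j) ≤ M) (hs : a * M + b ≤ 2 ^ s)
    (hX : d L q (p i) + d L q (p j) ≤ d L (p i) (p j) + X) :
    ∃ k, k ≤ n ∧ 2 * d L q (p k) ≤ X + L.δ * s + 2 * r := by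
  rcases le_total i j with hij | hij
  · have h1 : j - i ≤ a * d L (p i) (p j) + b := hp.2 i j hij hj
    have h2 : a * d L (p i) (p j) ≤ a * M := Nat.mul_le_mul_left a hM
    obtain ⟨k, h3, h4, h5⟩ := log_lemma L r q p s X i j hij (by omega)
      (fun k _ hk => hp.1 k (by omega)) hX
    exact ⟨k, by omega, h5⟩
  · have h1 : i - j ≤ a * d L (p j) (p i) + b := hp.2 j i hij hi
    have h0 := d_comm L (p i) (p j)
    rw [h0] at hM hX
    have h2 : a * d L (p j) (p i) ≤ a * M := Nat.mul_le_mul_left a hM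
    obtain ⟨k, h3, h4, h5⟩ := log_lemma L r q p s X j i hij (by omega)
      (fun k _ hk => hp.1 k (by omega)) (by omega)
    exact ⟨k, by omega, h5⟩

theorem near_bound (r a b : ℕ) : ∃ D0 : ℕ, ∀ (n : ℕ) (p : ℕ → P), QG L r a b n p →
    ∀ H : ℕ → P, Geo L (p 0) (p n) H → ∀ m, m ≤ d L (p 0) (p n) →
      ∃ i, i ≤ n ∧ d L (H m) (p i) ≤ D0 := by
  obtain ⟨T, hT⟩ := threshold a b (4 * L.c + 2 * L.δ) L.δ
  refine ⟨T + (6 * L.c + 4 * L.δ) + 2 * r + 4 * L.c + 2 * L.δ, ?_⟩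
  intro n p hp H hH
  have hmin : ∀ m, ∃ i, i ≤ n ∧ ∀ j, j ≤ n → d L (H m) (p i) ≤ d L (H m) (p j) := by
    intro m
    obtain ⟨i, hi, hi'⟩ := Finset.exists_min_image (Finset.range (n + 1))
      (fun i => d L (H m) (p i)) ⟨0, by simp⟩
    refine ⟨i, by simpa [Nat.lt_succ_iff] using hi, ?_⟩
    intro j hj
    exact hi' j (by simpa [Nat.lt_succ_iff] using hj)
  choose ι hι1 hι2 using hmin
  obtain ⟨m₀, hm₀, hmax⟩ := Finset.exists_max_image (Finset.range (d L (p 0) (p n) + 1))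
    (fun m => d L (H m) (p (ι m))) ⟨0, by simp⟩
  have hm₀' : m₀ ≤ d L (p 0) (p n) := by simpa [Nat.lt_succ_iff] using hm₀
  have hmax' : ∀ m, m ≤ d L (p 0) (p n) → d L (H m) (p (ι m)) ≤ d L (H m₀) (p (ι m₀)) := by
    intro m hm
    exact hmax m (by simpa [Nat.lt_succ_iff] using hm)
  have hqmin := hι2 m₀
  set D := d L (H m₀) (p (ι m₀)) with hD
  suffices hDb : D ≤ T + (6 * L.c + 4 * L.δ) + 2 * r + 4 * L.c + 2 * L.δ by
    intro m hm
    exact ⟨ι m, hι1 m, (hmax' m hm).trans hDb⟩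
  have hq1 := hH m₀ hm₀'
  have hq2 := geo_lower L hH hm₀'
  obtain ⟨q, hq⟩ : ∃ q, q = H m₀ := ⟨_, rfl⟩
  rw [← hq] at hq1 hq2 hqmin
  have hqx := d_comm L q (p 0)
  -- the left point
  have hY : ∃ (Y : P) (i m₁ : ℕ), i ≤ n ∧ m₁ ≤ m₀ ∧ m₀ ≤ m₁ + 2 * D ∧
      d L q Y + m₁ ≤ m₀ + 2 * L.c + L.δ ∧ d L (p 0) Y ≤ m₁ + L.c ∧ d L Y (p i) ≤ D ∧
      D + d L Y (p i) ≤ d L q Y + 2 * L.c := by
    by_cases h : 2 * D ≤ m₀
    · have hm : m₀ - 2 * D ≤ d L (p 0) (p n) := by omega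
      have h1 := hH _ hm
      have h2 := hmax' _ hm
      have h3 := geo_dist L hH (m := m₀ - 2 * D) (m' := m₀) (by omega) hm₀'
      rw [← hq] at h3
      have h4 := d_comm L q (H (m₀ - 2 * D))
      have h5 := d_tri L (p 0) (H (m₀ - 2 * D)) q
      refine ⟨H (m₀ - 2 * D), ι (m₀ - 2 * D), m₀ - 2 * D, hι1 _, by omega, by omega, by omega,
        h1.1, h2, by omega⟩
    · have h1 := d_self L (p 0)
      have h2 := hqmin 0 (Nat.zero_le n)
      exact ⟨p 0, 0, 0, Nat.zero_le n, Nat.zero_le _, by omega, by omega, by omega, by omega,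
        by omega⟩
  -- the right point
  have hZ : ∃ (Z : P) (j m₂ : ℕ), j ≤ n ∧ m₀ ≤ m₂ ∧ m₂ ≤ m₀ + 2 * D ∧
      d L q Z + m₀ ≤ m₂ + 2 * L.c + L.δ ∧ m₂ ≤ d L (p 0) Z + L.c ∧ d L Z (p j) ≤ D ∧
      D + d L Z (p j) ≤ d L q Z + 2 * L.c := by
    by_cases h : m₀ + 2 * D ≤ d L (p 0) (p n)
    · have h1 := hH _ h
      have h2 := hmax' _ h
      have h3 := geo_dist L hH (m := m₀) (m' := m₀ + 2 * D) (by omega) h
      rw [← hq] at h3
      have h4 := geo_lower L hH h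
      have h5 := d_tri L (p 0) q (H (m₀ + 2 * D))
      exact ⟨H (m₀ + 2 * D), ι (m₀ + 2 * D), m₀ + 2 * D, hι1 _, by omega, by omega, by omega,
        by omega, h2, by omega⟩
    · have h1 := d_self L (p n)
      have h2 := hqmin n le_rfl
      exact ⟨p n, n, d L (p 0) (p n), le_rfl, hm₀', by omega, by omega, by omega, by omega,
        by omega⟩
  obtain ⟨Y, i, m₁, hi, hY1, hY2, hY3, hY4, hY5, hY6⟩ := hY
  obtain ⟨Z, j, m₂, hj, hZ1, hZ2, hZ3, hZ4, hZ5, hZ6⟩ := hZ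
  have hqi := hqmin i hi
  have hqj := hqmin j hj
  have hYZ := d_tri L (p 0) Y Z
  have hprod : d L q Y + d L q Z ≤ d L Y Z + (6 * L.c + 2 * L.δ) := by omega
  rcases split L q Y (p i) Z _ hprod with h | h
  · omega
  rcases split L q (p i) (p j) Z _ h with h' | h'
  swap
  · have e := d_comm L Z (p j)
    omega
  have t1 := d_tri L (p i) Y (p j)
  have t2 := d_tri L Y q (p j)
  have t3 := d_tri L q Z (p j)
  have e1 := d_comm L (p i) Y
  have e2 := d_comm L Y q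
  by_cases hDT : D < T
  · omega
  obtain ⟨k, hk, hk'⟩ := order_free L r a b n p hp q (6 * L.c + 2 * L.δ + L.δ + L.δ)
    (6 * D + (4 * L.c + 2 * L.δ)) (D / (L.δ + 1)) i j hi hj (by omega)
    (hT D (not_lt.1 hDT)) h'
  have h1 := hqmin k hk
  have h2 : L.δ * (D / (L.δ + 1)) ≤ D := by
    have h3 : (L.δ + 1) * (D / (L.δ + 1)) ≤ D := Nat.mul_div_le D (L.δ + 1)
    have h4 : L.δ * (D / (L.δ + 1)) ≤ (L.δ + 1) * (D / (L.δ + 1)) :=
      Nat.mul_le_mul_right _ (Nat.le_succ _)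
    exact h4.trans h3
  omega

theorem chain_dist (r : ℕ) (p : ℕ → P) (n : ℕ)
    (hr : ∀ k, k < n → d L (p k) (p (k + 1)) ≤ r) : ∀ t i, i + t ≤ n →
    d L (p i) (p (i + t)) ≤ r * t := by
  intro t
  induction t with
  | zero =>
    intro i _
    have := d_self L (p i)
    simp only [Nat.add_zero, Nat.mul_zero]
    omega
  | succ t ih =>
    intro i hi
    have h1 := ih i (by omega)
    have h2 := hr (i + t) (by omega)
    have h3 := d_tri L (p i) (p (i + t)) (p (i + (t + 1)))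
    have e : r * (t + 1) = r * t + r := by ring
    have e2 : i + (t + 1) = i + t + 1 := rfl
    rw [e2] at h3 ⊢
    omega

end Mo

open Mo in
/-- Stability of quasi-geodesics. -/
theorem morse {P : Type} [Group P] (L : RLen P) (r a b : ℕ) : ∃ R : ℕ, ∀ (n : ℕ) (p : ℕ → P),
    QG L r a b n p →
    (∀ i, i ≤ n → L.l ((p 0)⁻¹ * p i) + L.l ((p i)⁻¹ * p n) ≤ L.l ((p 0)⁻¹ * p n) + R) ∧
    ∀ (C : ℕ) (q : P), L.l ((p 0)⁻¹ * q) + L.l (q⁻¹ * p n) ≤ L.l ((p 0)⁻¹ * p n) + C →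
      ∃ i, i ≤ n ∧ L.l (q⁻¹ * p i) ≤ R + C := by
  obtain ⟨D0, hD0⟩ := near_bound L r a b
  set D1 := D0 + L.c with hD1
  set N1 := a * (2 * D1 + 1 + 2 * L.c + L.δ) + b with hN1
  refine ⟨2 * (r * N1 + D1) + 2 * L.c + L.δ, ?_⟩
  intro n p hp
  have hex : ∀ m, ∃ h, m ≤ d L (p 0) (p n) →
      d L (p 0) h ≤ m + L.c ∧ d L h (p n) + m ≤ d L (p 0) (p n) + L.c := by
    intro m
    by_cases hm : m ≤ d L (p 0) (p n)
    · obtain ⟨h, h1⟩ := d_geo L (p 0) (p n) m hm
      exact ⟨h, fun _ => h1⟩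
    · exact ⟨1, fun h => absurd h hm⟩
  choose H hH using hex
  have hH' : Geo L (p 0) (p n) H := hH
  have hnear := hD0 n p hp H hH'
  constructor
  · intro i hi
    change d L (p 0) (p i) + d L (p i) (p n) ≤ d L (p 0) (p n) + _
    classical
    -- the last point of the rough geodesic near an earlier point of the path
    have hkey : ∃ (m j k : ℕ) (h' : P), m ≤ d L (p 0) (p n) ∧ j ≤ i ∧ i ≤ k ∧ k ≤ n ∧
        d L (H m) (p j) ≤ D1 ∧ d L h' (p k) ≤ D1 ∧ d L (H m) h' ≤ 1 + 2 * L.c + L.δ := by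
      have hfin : ((Finset.range (d L (p 0) (p n) + 1)).filter
          (fun m => ∃ j, j ≤ i ∧ d L (H m) (p j) ≤ D1)).Nonempty := by
        refine ⟨0, ?_⟩
        simp only [Finset.mem_filter, Finset.mem_range]
        refine ⟨Nat.succ_pos _, 0, Nat.zero_le _, ?_⟩
        have h1 := hH' 0 (Nat.zero_le _)
        have h2 := d_comm L (p 0) (H 0)
        omega
      obtain ⟨m, hm, hmax⟩ := Finset.exists_max_image _ (fun m : ℕ => m) hfin
      simp only [Finset.mem_filter, Finset.mem_range, Nat.lt_succ_iff] at hm hmax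
      obtain ⟨hm1, j, hj, hjd⟩ := hm
      rcases Nat.eq_or_lt_of_le hm1 with hme | hml
      · refine ⟨m, j, n, H m, hm1, hj, hi, le_rfl, hjd, ?_, ?_⟩
        · have h1 := (hH' m hm1).2
          omega
        · have := d_self L (H m)
          omega
      · obtain ⟨k, hk, hkd⟩ := hnear (m + 1) hml
        have hki : i ≤ k := by
          by_contra hki
          have := hmax (m + 1) ⟨hml, k, by omega, by omega⟩
          omega
        have h3 := geo_dist L hH' (m := m) (m' := m + 1) (by omega) hml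
        exact ⟨m, j, k, H (m + 1), hm1, hj, hki, hk, hjd, by omega, by omega⟩
    obtain ⟨m, j, k, h', hm, hji, hik, hk, h1, h2, h3⟩ := hkey
    have t1 := d_tri L (p j) (H m) (p k)
    have t2 := d_tri L (H m) h' (p k)
    have e1 := d_comm L (p j) (H m)
    have hjk : d L (p j) (p k) ≤ 2 * D1 + 1 + 2 * L.c + L.δ := by omega
    have hN : k - j ≤ N1 := by
      have h4 : k - j ≤ a * d L (p j) (p k) + b := hp.2 j k (by omega) hk
      have h5 : a * d L (p j) (p k) ≤ a * (2 * D1 + 1 + 2 * L.c + L.δ) :=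
        Nat.mul_le_mul_left a hjk
      omega
    have hc := chain_dist L r p n (fun k hk => hp.1 k hk) (i - j) j (by omega)
    have e2 : j + (i - j) = i := by omega
    rw [e2] at hc
    have hc2 : r * (i - j) ≤ r * N1 := Nat.mul_le_mul_left r (by omega)
    have t3 := d_tri L (p i) (p j) (H m)
    have e3 := d_comm L (p i) (p j)
    have h5 := hH' m hm
    have t4 := d_tri L (p 0) (H m) (p i)
    have t5 := d_tri L (p i) (H m) (p n)
    have e4 := d_comm L (H m) (p i)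
    omega
  · intro C q hq
    change d L (p 0) q + d L q (p n) ≤ d L (p 0) (p n) + C at hq
    change ∃ i, i ≤ n ∧ d L q (p i) ≤ _ + C
    have hm : min (d L (p 0) q) (d L (p 0) (p n)) ≤ d L (p 0) (p n) := min_le_right _ _
    obtain ⟨i, hi, hid⟩ := hnear _ hm
    refine ⟨i, hi, ?_⟩
    have h1 := hH' _ hm
    have e1 := d_comm L (H (min (d L (p 0) q) (d L (p 0) (p n)))) (p n)
    have e3 := d_comm L (p n) (H (min (d L (p 0) q) (d L (p 0) (p n))))
    have e2 := d_comm L q (p n)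
    have t1 := d_tri L q (H (min (d L (p 0) q) (d L (p 0) (p n)))) (p i)
    have t2 := d_tri L (p 0) q (p n)
    have hqh : d L q (H (min (d L (p 0) q) (d L (p 0) (p n)))) ≤ C + L.c + L.δ := by
      rcases le_total (d L (p 0) q) (d L (p 0) (p n)) with h | h
      · rw [min_eq_left h] at h1 e1 e3 ⊢
        rcases d_hyp L (p 0) q (p n) (H (d L (p 0) q)) with h2 | h2
        · omega
        · omega
      · rw [min_eq_right h] at h1 e1 e3 ⊢
        rcases d_hyp L (p 0) q (p n) (H (d L (p 0) (p n))) with h2 | h2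
        · omega
        · omega
    omega

end Pool.Agent.HYP
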