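import Pool.Agent.HYP.Defs
/-!
# The word length
-/
namespace Pool.Agent.HYP
open Pool.Agent.SLX

section
variable {A P : Type} [Group P] {π : A → P}

theorem WLen_val_append (u v : List A) : val π (u ++ v) = val π u * val π v := by
  simp [val]

theorem WLen_val_nil : val π ([] : List A) = 1 := by
  simp [val]

theorem WLen_val_cons (a : A) (v : List A) : val π (a :: v) = π a * val π v := by
  simp [val]

theorem wlen_le (w : List A) : wlen π (val π w) ≤ w.length :=
  Nat.sInf_le ⟨w, rfl, rfl⟩

theorem wlen_word (h : Gen π) (g : P) : ∃ w : List A, w.length = wlen π g ∧ val π w = g := by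
  obtain ⟨w, hw⟩ := h.gen g
  have hne : {n | ∃ w : List A, w.length = n ∧ val π w = g}.Nonempty := ⟨w.length, w, rfl, hw⟩
  exact Nat.sInf_mem hne

theorem wlen_one : wlen π (1 : P) = 0 := by
  have h := wlen_le (π := π) ([] : List A)
  rw [WLen_val_nil] at h
  simpa using h

theorem wlen_mul (h : Gen π) (g g' : P) : wlen π (g * g') ≤ wlen π g + wlen π g' := by
  obtain ⟨u, hu, hu'⟩ := wlen_word h g
  obtain ⟨v, hv, hv'⟩ := wlen_word h g'
  have := wlen_le (π := π) (u ++ v)
  rw [WLen_val_append, hu', hv', List.length_append, hu, hv] at this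
  exact this

theorem WLen_inv_word (h : Gen π) (w : List A) : ∃ v : List A, v.length = w.length ∧
    val π v = (val π w)⁻¹ := by
  induction w with
  | nil => exact ⟨[], rfl, by simp [WLen_val_nil]⟩
  | cons a w ih =>
    obtain ⟨v, hv, hv'⟩ := ih
    obtain ⟨b, hb⟩ := h.sym a
    refine ⟨v ++ [b], by simp [hv], ?_⟩
    rw [WLen_val_append, WLen_val_cons, WLen_val_cons, WLen_val_nil, hv', hb]
    simp

theorem WLen_inv_le (h : Gen π) (g : P) : wlen π g⁻¹ ≤ wlen π g := by
  obtain ⟨u, hu, hu'⟩ := wlen_word h g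
  obtain ⟨v, hv, hv'⟩ := WLen_inv_word h u
  have := wlen_le (π := π) v
  rw [hv', hu', hv, hu] at this
  exact this

theorem wlen_inv (h : Gen π) (g : P) : wlen π g⁻¹ = wlen π g := by
  apply le_antisymm (WLen_inv_le h g)
  have := WLen_inv_le h g⁻¹
  rwa [inv_inv] at this

theorem wlen_letter (a : A) : wlen π (π a) ≤ 1 := by
  have := wlen_le (π := π) [a]
  rw [WLen_val_cons, WLen_val_nil, mul_one] at this
  simpa using this

theorem wlen_fin [Finite A] (h : Gen π) (n : ℕ) : {g : P | wlen π g ≤ n}.Finite := by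
  have hf : {w : List A | w.length ≤ n}.Finite := by
    have := Fintype.ofFinite A
    exact List.finite_length_le A n
  refine (hf.image (fun w => val π w)).subset ?_
  intro g hg
  obtain ⟨w, hw, hw'⟩ := wlen_word h g
  exact ⟨w, (show w.length ≤ n from hw ▸ hg), hw'⟩

/-- Prefixes of a geodesic word are geodesic. -/
theorem wlen_take (h : Gen π) (w : List A) (hw : wlen π (val π w) = w.length) (i j : ℕ)
    (hij : i ≤ j) (hj : j ≤ w.length) :
    wlen π ((val π (w.take i))⁻¹ * val π (w.take j)) = j - i := by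
  have e1 : val π (w.take j) = val π (w.take i) * val π ((w.take j).drop i) := by
    rw [← WLen_val_append]
    congr 1
    conv_lhs => rw [← List.take_append_drop i (w.take j)]
    rw [List.take_take, min_eq_left hij]
  have e2 : (val π (w.take i))⁻¹ * val π (w.take j) = val π ((w.take j).drop i) := by
    rw [e1, inv_mul_cancel_left]
  have l2 : ((w.take j).drop i).length = j - i := by
    rw [List.length_drop, List.length_take, min_eq_left hj]
  have e3 : val π w = val π (w.take i) * (((val π (w.take i))⁻¹ * val π (w.take j)) *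
      val π (w.drop j)) := by
    rw [mul_assoc, mul_inv_cancel_left, ← WLen_val_append, List.take_append_drop]
  have b1 : wlen π ((val π (w.take i))⁻¹ * val π (w.take j)) ≤ j - i := by
    rw [e2, ← l2]
    exact wlen_le _
  have b2 : wlen π (val π (w.take i)) ≤ i := by
    refine (wlen_le _).trans ?_
    rw [List.length_take]
    exact min_le_left _ _
  have b3 : wlen π (val π (w.drop j)) ≤ w.length - j := by
    refine (wlen_le _).trans ?_
    rw [List.length_drop]
  have b4 : wlen π (val π w) ≤ wlen π (val π (w.take i)) +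
      (wlen π ((val π (w.take i))⁻¹ * val π (w.take j)) + wlen π (val π (w.drop j))) := by
    conv_lhs => rw [e3]
    exact (wlen_mul h _ _).trans (Nat.add_le_add_left (wlen_mul h _ _) _)
  omega

theorem WLen_bound {B : Type} {s : Set B} (hs : s.Finite) (f : B → ℕ) :
    ∃ M : ℕ, ∀ x ∈ s, f x ≤ M := by
  obtain ⟨M, hM⟩ := (hs.image f).bddAbove
  exact ⟨M, fun x hx => hM ⟨x, hx, rfl⟩⟩

/-- Comparison with the hyperbolic length. -/
theorem wlen_cmp [Finite A] (h : Gen π) (L : RLen P) : ∃ a b : ℕ, ∀ g : P,
    L.l g ≤ a * wlen π g ∧ wlen π g ≤ a * L.l g + b := by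
  obtain ⟨M, hM⟩ := WLen_bound (Set.finite_univ (α := A)) (fun a => L.l (π a))
  obtain ⟨W, hW⟩ := WLen_bound (L.fin (2 * L.c + 1)) (fun g => wlen π g)
  have h1 : ∀ w : List A, L.l (val π w) ≤ M * w.length := by
    intro w
    induction w with
    | nil => rw [WLen_val_nil, L.one]; exact Nat.zero_le _
    | cons a w ih =>
      rw [WLen_val_cons, List.length_cons]
      have h2 := L.mul (π a) (val π w)
      have h3 : L.l (π a) ≤ M := hM a (Set.mem_univ a)
      rw [Nat.mul_add, Nat.mul_one]
      omega
  have h2 : ∀ n : ℕ, ∀ g : P, L.l g ≤ n → wlen π g ≤ W * n + W := by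
    intro n
    induction n with
    | zero =>
      intro g hg
      have : wlen π g ≤ W := hW g (show L.l g ≤ 2 * L.c + 1 by omega)
      omega
    | succ n ih =>
      intro g hg
      by_cases hc : L.l g ≤ L.c
      · have : wlen π g ≤ W := hW g (show L.l g ≤ 2 * L.c + 1 by omega)
        exact this.trans (Nat.le_add_left _ _)
      · obtain ⟨x, hx1, hx2⟩ := L.geo g (L.c + 1) (by omega)
        have h3 : wlen π x ≤ W := hW x (show L.l x ≤ 2 * L.c + 1 by omega)
        have h4 := ih (x⁻¹ * g) (by omega)
        have h5 := wlen_mul h x (x⁻¹ * g)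
        rw [mul_inv_cancel_left] at h5
        rw [Nat.mul_add, Nat.mul_one]
        omega
  refine ⟨M + W, W, fun g => ⟨?_, ?_⟩⟩
  · obtain ⟨w, hw, hw'⟩ := wlen_word h g
    have := h1 w
    rw [hw', hw] at this
    exact this.trans (Nat.mul_le_mul_right _ (Nat.le_add_right _ _))
  · have := h2 (L.l g) g le_rfl
    exact this.trans (Nat.add_le_add_right (Nat.mul_le_mul_right _ (Nat.le_add_left _ _)) _)

end

end Pool.Agent.HYP
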