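import Pool.Agent.HYP.Defs
import Pool.Agent.HYP.Morse
import Pool.Agent.HYP.WLen

/-!
# Row NEAR: quasi-geodesic words stay close to each other, geodesic words fellow travel
-/

namespace Pool.Agent.HYP
open Pool.Agent.SLX

/-! ### Row NEAR -/

section NEAR

variable {A P : Type} [Group P] {π : A → P}

private theorem near_val_nil : val π ([] : List A) = 1 := by simp [val]

private theorem near_val_take_zero (w : List A) : val π (w.take 0) = 1 := by simp [val]

private theorem near_val_succ (w : List A) (i : ℕ) (hi : i < w.length) :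
    (val π (w.take i))⁻¹ * val π (w.take (i + 1)) = π (w[i]) := by
  have h : w.take (i + 1) = w.take i ++ [w[i]] := by simp
  rw [h]
  unfold val
  rw [List.map_append, List.prod_append]
  simp

private theorem near_qg (L : RLen P) {a b : ℕ}
    (hab : ∀ g : P, L.l g ≤ a * wlen π g ∧ wlen π g ≤ a * L.l g + b) {κ : ℕ} {u : List A}
    (hu : QW π κ u) :
    QG L a (κ * a) (κ * b) u.length (fun i => val π (u.take i)) := by
  refine ⟨fun i hi => ?_, fun i j hij hj => ?_⟩
  · show L.l ((val π (u.take i))⁻¹ * val π (u.take (i + 1))) ≤ a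
    rw [near_val_succ u i hi]
    calc L.l (π u[i]) ≤ a * wlen π (π u[i]) := (hab _).1
      _ ≤ a * 1 := Nat.mul_le_mul_left _ (wlen_letter _)
      _ = a := mul_one a
  · calc j - i ≤ κ * wlen π ((val π (u.take i))⁻¹ * val π (u.take j)) := hu i j hij hj
      _ ≤ κ * (a * L.l ((val π (u.take i))⁻¹ * val π (u.take j)) + b) :=
        Nat.mul_le_mul_left _ (hab _).2
      _ = κ * a * L.l ((val π (u.take i))⁻¹ * val π (u.take j)) + κ * b := by ring

theorem near_path {A P : Type} [Group P] {π : A → P} [Finite A] (h : Gen π) (L : RLen P)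
    (κ M : ℕ) : ∃ N : ℕ, ∀ u v : List A, QW π κ u → QW π κ v →
      wlen π ((val π u)⁻¹ * val π v) ≤ M → ∀ i, i ≤ u.length → ∃ j, j ≤ v.length ∧
        wlen π ((val π (u.take i))⁻¹ * val π (v.take j)) ≤ N := by
  obtain ⟨a, b, hab⟩ := wlen_cmp h L
  obtain ⟨R, hR⟩ := morse L a (κ * a) (κ * b)
  refine ⟨a * (R + (R + 2 * (a * M))) + b, fun u v hu hv huv i hi => ?_⟩
  have h1 := (hR u.length (fun i => val π (u.take i)) (near_qg L hab hu)).1 i hi
  have h2 := (hR v.length (fun i => val π (v.take i)) (near_qg L hab hv)).2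
    (R + 2 * (a * M)) (val π (u.take i))
  simp only [near_val_take_zero, List.take_length, inv_one, one_mul] at h1 h2
  have hd : L.l ((val π u)⁻¹ * val π v) ≤ a * M :=
    (hab _).1.trans (Nat.mul_le_mul_left _ huv)
  have hd' : L.l ((val π v)⁻¹ * val π u) ≤ a * M := by
    have : (val π v)⁻¹ * val π u = ((val π u)⁻¹ * val π v)⁻¹ := by group
    rw [this, L.inv]
    exact hd
  have h3 : L.l ((val π (u.take i))⁻¹ * val π v) ≤
      L.l ((val π (u.take i))⁻¹ * val π u) + L.l ((val π u)⁻¹ * val π v) := by
    have : (val π (u.take i))⁻¹ * val π v =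
      ((val π (u.take i))⁻¹ * val π u) * ((val π u)⁻¹ * val π v) := by group
    rw [this]
    exact L.mul _ _
  have h4 : L.l (val π u) ≤ L.l (val π v) + L.l ((val π v)⁻¹ * val π u) := by
    have : val π u = val π v * ((val π v)⁻¹ * val π u) := by group
    calc L.l (val π u) = L.l (val π v * ((val π v)⁻¹ * val π u)) := by rw [← this]
      _ ≤ _ := L.mul _ _
  obtain ⟨j, hj, hj'⟩ := h2 (by omega)
  refine ⟨j, hj, ?_⟩
  calc wlen π ((val π (u.take i))⁻¹ * val π (v.take j))
      ≤ a * L.l ((val π (u.take i))⁻¹ * val π (v.take j)) + b := (hab _).2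
    _ ≤ a * (R + (R + 2 * (a * M))) + b :=
      Nat.add_le_add_right (Nat.mul_le_mul_left _ hj') _

private theorem near_take_min (v : List A) (t : ℕ) : v.take t = v.take (min t v.length) := by
  rcases le_total t v.length with h | h
  · rw [min_eq_left h]
  · rw [min_eq_right h, List.take_of_length_le h, List.take_length]

private theorem near_sub_le (h : Gen π) (v : List A) (hv : wlen π (val π v) = v.length)
    (i j : ℕ) (hij : i ≤ j) :
    wlen π ((val π (v.take i))⁻¹ * val π (v.take j)) ≤ j - i := by
  rw [near_take_min v i, near_take_min v j,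
    wlen_take h v hv (min i v.length) (min j v.length) (by omega) (by omega)]
  omega

private theorem near_sub_le' (h : Gen π) (v : List A) (hv : wlen π (val π v) = v.length)
    (i j : ℕ) (hij : i ≤ j) :
    wlen π ((val π (v.take j))⁻¹ * val π (v.take i)) ≤ j - i := by
  have : (val π (v.take j))⁻¹ * val π (v.take i) =
    ((val π (v.take i))⁻¹ * val π (v.take j))⁻¹ := by group
  rw [this, wlen_inv h]
  exact near_sub_le h v hv i j hij

private theorem near_tri (h : Gen π) (x y z : P) :
    wlen π (x⁻¹ * z) ≤ wlen π (x⁻¹ * y) + wlen π (y⁻¹ * z) := by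
  have : x⁻¹ * z = (x⁻¹ * y) * (y⁻¹ * z) := by group
  rw [this]
  exact wlen_mul h _ _

private theorem near_wlen_take (h : Gen π) (v : List A) (hv : wlen π (val π v) = v.length)
    (j : ℕ) (hj : j ≤ v.length) : wlen π (val π (v.take j)) = j := by
  have := wlen_take h v hv 0 j (Nat.zero_le _) hj
  rwa [near_val_take_zero, inv_one, one_mul, Nat.sub_zero] at this

private theorem near_qw_one (h : Gen π) (v : List A) (hv : wlen π (val π v) = v.length) :
    QW π 1 v := by
  intro i j hij hj
  rw [wlen_take h v hv i j hij hj, one_mul]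

/-- Geodesic words fellow travel. -/
theorem geo_ft {A P : Type} [Group P] {π : A → P} [Finite A] (h : Gen π) (L : RLen P)
    (M : ℕ) : ∃ N : ℕ, ∀ u v : List A, wlen π (val π u) = u.length →
      wlen π (val π v) = v.length → wlen π ((val π u)⁻¹ * val π v) ≤ M →
      ∀ t, wlen π ((val π (u.take t))⁻¹ * val π (v.take t)) ≤ N := by
  obtain ⟨N, hN⟩ := near_path h L 1 M
  refine ⟨2 * N + 2 * M, fun u v hu hv huv t => ?_⟩
  rcases le_or_gt t u.length with ht | ht
  · obtain ⟨j, hj, hj'⟩ := hN u v (near_qw_one h u hu) (near_qw_one h v hv) huv t ht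
    have e1 : wlen π (val π (u.take t)) = t := near_wlen_take h u hu t ht
    have e2 : wlen π (val π (v.take j)) = j := near_wlen_take h v hv j hj
    have h1 := near_tri h 1 (val π (u.take t)) (val π (v.take j))
    have h2 := near_tri h 1 (val π (v.take j)) (val π (u.take t))
    have h3 : wlen π ((val π (v.take j))⁻¹ * val π (u.take t)) =
        wlen π ((val π (u.take t))⁻¹ * val π (v.take j)) := by
      have : (val π (v.take j))⁻¹ * val π (u.take t) =
        ((val π (u.take t))⁻¹ * val π (v.take j))⁻¹ := by group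
      rw [this, wlen_inv h]
    simp only [inv_one, one_mul, e1, e2] at h1 h2
    have h4 := near_tri h (val π (u.take t)) (val π (v.take j)) (val π (v.take t))
    rcases le_total j t with hjt | hjt
    · have h5 := near_sub_le h v hv j t hjt
      omega
    · have h5 := near_sub_le' h v hv t j hjt
      omega
  · have e1 : u.take t = u := List.take_of_length_le ht.le
    have h1 := near_tri h 1 (val π u) (val π v)
    simp only [inv_one, one_mul, hu, hv] at h1
    have h4 := near_tri h (val π u) (val π v) (val π (v.take t))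
    rw [e1]
    rcases le_total t v.length with htv | htv
    · have h5 := near_sub_le' h v hv t v.length htv
      rw [List.take_length] at h5
      omega
    · have e2 : v.take t = v := List.take_of_length_le htv
      rw [e2]
      omega

end NEAR

end Pool.Agent.HYP
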