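import Mathlib
import Pool.Agent.SLX.Defs
/-!
# Regular sections of an extension: definition
-/
namespace Pool.Agent.HYP
open Pool.Agent.SLX

/-- `L` is a regular language over the letters `π b` of `E` which represents every element of the
image of `f`, and words of `L` with nearby values under `f` are synchronously close in `E`. -/
structure RSec {B E P : Type} [Group E] [Group P] (π : B → E) (f : E →* P) (L : Language B) :
    Prop where
  reg : L.IsRegular
  surj : ∀ e : E, ∃ u ∈ L, f (val π u) = f e
  ft : ∀ F : Set P, F.Finite → ∃ D : Set E, D.Finite ∧ ∀ u ∈ L, ∀ v ∈ L,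
    (f (val π u))⁻¹ * f (val π v) ∈ F → ∀ t, (val π (u.take t))⁻¹ * val π (v.take t) ∈ D

end Pool.Agent.HYP
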