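import Pool.Agent.HYP.Defs

/-!
# The height function of a central extension
-/

set_option autoImplicit false

namespace Pool.Agent.HYP
open Pool.Agent.SLX

section general

variable {A G P : Type} [Group G] [Group P]

theorem rho_val_nil (π : A → G) : val π [] = 1 := rfl

theorem rho_val_append (π : A → G) (u v : List A) : val π (u ++ v) = val π u * val π v := by
  simp [val]

theorem rho_val_single (π : A → G) (a : A) : val π [a] = π a := by
  simp [val]

theorem rho_val_map (f : G →* P) (π : A → G) (w : List A) :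
    f (val π w) = val (fun a => f (π a)) w := by
  induction w with
  | nil => simp [val]
  | cons a w ih =>
    simp only [val, List.map_cons, List.prod_cons, map_mul] at ih ⊢
    rw [ih]

theorem rho_wlen_word {π : A → P} (h : Gen π) (g : P) :
    ∃ w : List A, w.length = wlen π g ∧ val π w = g := by
  obtain ⟨w, hw⟩ := h.gen g
  exact Nat.sInf_mem (s := {n | ∃ w : List A, w.length = n ∧ val π w = g}) ⟨w.length, w, rfl, hw⟩

theorem rho_inv_word {π : A → G} (h : ∀ a : A, ∃ b : A, π b = (π a)⁻¹) (w : List A) :
    ∃ w' : List A, w'.length = w.length ∧ val π w' = (val π w)⁻¹ := by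
  induction w with
  | nil => exact ⟨[], rfl, by simp [val]⟩
  | cons a w ih =>
    obtain ⟨w', hl, hv⟩ := ih
    obtain ⟨b, hb⟩ := h a
    refine ⟨w' ++ [b], by simp [hl], ?_⟩
    rw [rho_val_append, rho_val_single, hv, hb]
    have : val π (a :: w) = π a * val π w := by simp [val]
    rw [this, mul_inv_rev]

end general

section ce

variable {m : ℕ} {A E P : Type} [Group E] [Group P] {π : A → E} {f : E →* P}
  {φ : (Fin m → ℤ) → E}

theorem CE.phi_zero (h : CE m π f φ) : φ 0 = 1 := by
  have := h.add 0 0
  rw [add_zero] at this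
  exact (mul_eq_left.1 this.symm)

theorem CE.phi_neg (h : CE m π f φ) (k : Fin m → ℤ) : φ (-k) = (φ k)⁻¹ := by
  have := h.add k (-k)
  rw [add_neg_cancel, h.phi_zero] at this
  exact (eq_inv_of_mul_eq_one_right this.symm)

/-- the values whose maximum is the height -/
def rhoSet (π : A → E) (φ : (Fin m → ℤ) → E) (K : ℕ) (e : E) (i : Fin m) : Set ℤ :=
  {z | ∃ (w : List A) (k : Fin m → ℤ), val π w = e * φ k ∧ z = k i - K * w.length}

theorem rhoSet_nonempty (h : CE m π f φ) (K : ℕ) (e : E) (i : Fin m) :
    (rhoSet π φ K e i).Nonempty := by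
  obtain ⟨w, hw⟩ := h.gen.gen (f e)
  rw [← rho_val_map] at hw
  have h1 : f (e⁻¹ * val π w) = 1 := by rw [map_mul, hw, map_inv, inv_mul_cancel]
  obtain ⟨k, hk⟩ := (h.ker _).1 h1
  exact ⟨k i - K * w.length, w, k, by rw [hk, mul_inv_cancel_left], rfl⟩

/-- comparison of two words over the same element -/
theorem rho_cmp (h : CE m π f φ) {K' : ℕ}
    (hK : ∀ (w : List A) (k : Fin m → ℤ), val π w = φ k → ∀ i, |k i| ≤ K' * w.length)
    {x y : List A} {k : Fin m → ℤ} (hxy : val π x = val π y * φ k) (i : Fin m) :
    |k i| ≤ K' * (x.length + y.length) := by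
  obtain ⟨y', hl, hv⟩ := rho_inv_word h.sym y
  have h1 : val π (y' ++ x) = φ k := by
    rw [rho_val_append, hv, hxy, inv_mul_cancel_left]
  have h2 := hK _ _ h1 i
  rw [List.length_append, hl] at h2
  push_cast at h2
  linarith

theorem rhoSet_bdd (h : CE m π f φ) {K' : ℕ}
    (hK : ∀ (w : List A) (k : Fin m → ℤ), val π w = φ k → ∀ i, |k i| ≤ K' * w.length)
    {K : ℕ} (hKK : K' ≤ K) (e : E) (i : Fin m) : BddAbove (rhoSet π φ K e i) := by
  obtain ⟨_, w0, k0, h0, -⟩ := rhoSet_nonempty h K e i
  refine ⟨k0 i + K' * w0.length, ?_⟩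
  rintro z ⟨w, k, hw, rfl⟩
  have h1 : val π w = val π w0 * φ (k - k0) := by
    rw [hw, h0, mul_assoc, ← h.add, add_sub_cancel]
  have h2 := rho_cmp h hK h1 i
  have h3 := le_abs_self ((k - k0) i)
  have h4 : (k - k0) i = k i - k0 i := rfl
  have h5 : (K' : ℤ) * w.length ≤ K * w.length := by
    have : (K' : ℤ) ≤ K := by exact_mod_cast hKK
    exact mul_le_mul_of_nonneg_right this (by positivity)
  rw [h4] at h2 h3
  linarith

/-- RHO: the height function exists -/
theorem exists_rho (h : CE m π f φ) : ∃ (K : ℕ) (ρ : E → Fin m → ℤ), Rho m π f φ K ρ := by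
  classical
  obtain ⟨K', hK⟩ := h.undist
  have hKK : K' ≤ 2 * K' + 1 := by omega
  set K : ℕ := 2 * K' + 1 with hKdef
  let ρ : E → Fin m → ℤ := fun e i => sSup (rhoSet π φ K e i)
  have hmem : ∀ e i, ρ e i ∈ rhoSet π φ K e i := fun e i =>
    Int.csSup_mem (rhoSet_nonempty h K e i) (rhoSet_bdd h hK hKK e i)
  have hle : ∀ e i, ∀ z ∈ rhoSet π φ K e i, z ≤ ρ e i := fun e i z hz =>
    le_csSup (rhoSet_bdd h hK hKK e i) hz
  have hsup : ∀ e (w : List A) k, val π w = e * φ k → ∀ i, k i - K * w.length ≤ ρ e i :=
    fun e w k hw i => hle e i _ ⟨w, k, hw, rfl⟩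
  have hstep : ∀ e a i, ρ e i - K ≤ ρ (e * π a) i := by
    intro e a i
    obtain ⟨w, k, hw, hz⟩ := hmem e i
    have h1 : val π (w ++ [a]) = e * π a * φ k := by
      rw [rho_val_append, rho_val_single, hw, mul_assoc, h.central, ← mul_assoc]
    have h2 := hsup _ _ _ h1 i
    rw [List.length_append, List.length_singleton] at h2
    push_cast at h2
    linarith
  refine ⟨K, ρ, ?_, ?_, ?_, hsup, ?_⟩
  · -- one
    funext i
    obtain ⟨w, k, hw, hz⟩ := hmem 1 i
    rw [one_mul] at hw
    have h1 := hK w k hw i
    have h2 := hsup 1 [] 0 (by rw [h.phi_zero, rho_val_nil, mul_one]) i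
    have h3 := le_abs_self (k i)
    have h5 : (K' : ℤ) * w.length ≤ K * w.length := by
      have : (K' : ℤ) ≤ K := by exact_mod_cast hKK
      exact mul_le_mul_of_nonneg_right this (by positivity)
    simp only [Pi.zero_apply, List.length_nil, Nat.cast_zero, mul_zero, sub_zero] at h2 ⊢
    linarith
  · -- phi
    have key : ∀ e k i, ρ e i - k i ≤ ρ (e * φ k) i := by
      intro e k i
      obtain ⟨w, k', hw, hz⟩ := hmem e i
      have h1 : val π w = e * φ k * φ (k' - k) := by
        rw [hw, mul_assoc, ← h.add, add_sub_cancel]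
      have h2 := hsup _ _ _ h1 i
      have h4 : (k' - k) i = k' i - k i := rfl
      rw [h4] at h2
      linarith
    intro e k
    funext i
    have h1 := key e k i
    have h2 := key (e * φ k) (-k) i
    rw [mul_assoc, ← h.add, add_neg_cancel, h.phi_zero, mul_one] at h2
    simp only [Pi.neg_apply, Pi.sub_apply] at h2 ⊢
    linarith
  · -- lip
    intro e a i
    have h1 := hstep e a i
    obtain ⟨b, hb⟩ := h.sym a
    have h2 := hstep (e * π a) b i
    rw [hb, mul_inv_cancel_right] at h2
    rw [abs_le]
    constructor <;> linarith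
  · -- att
    intro e i
    obtain ⟨w, k, hw, hz⟩ := hmem e i
    refine ⟨w, k, hw, hz, ?_⟩
    intro i0 j hij hj
    set V : List A := (w.take j).drop i0 with hV
    have hsplit : w = w.take i0 ++ (V ++ w.drop j) := by
      have h1 : w.take j = w.take i0 ++ V := by
        conv_lhs => rw [← List.take_append_drop i0 (w.take j)]
        rw [List.take_take, min_eq_left hij]
      rw [← List.append_assoc, ← h1, List.take_append_drop]
    have hVlen : V.length = j - i0 := by
      rw [hV, List.length_drop, List.length_take, min_eq_left hj]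
    have htake : w.take j = w.take i0 ++ V := by
      conv_lhs => rw [← List.take_append_drop i0 (w.take j)]
      rw [List.take_take, min_eq_left hij]
    have hg : (val (fun a => f (π a)) (w.take i0))⁻¹ * val (fun a => f (π a)) (w.take j) =
        f (val π V) := by
      rw [← rho_val_map, ← rho_val_map, htake, rho_val_append, map_mul, inv_mul_cancel_left]
    rw [hg, ← hVlen]
    obtain ⟨U, hUl, hUv⟩ := rho_wlen_word h.gen (f (val π V))
    rw [← hUl]
    rw [← rho_val_map] at hUv
    have h1 : f ((val π V)⁻¹ * val π U) = 1 := by rw [map_mul, map_inv, hUv, inv_mul_cancel]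
    obtain ⟨k2, hk2⟩ := (h.ker _).1 h1
    have hU : val π U = val π V * φ k2 := by rw [hk2, mul_inv_cancel_left]
    have hw2 : val π (w.take i0 ++ (U ++ w.drop j)) = e * φ (k + k2) := by
      rw [h.add, ← mul_assoc, ← hw]
      conv_rhs => rw [hsplit]
      rw [rho_val_append, rho_val_append, rho_val_append, rho_val_append, hU]
      rw [mul_assoc (val π V), h.central k2 (val π (w.drop j))]
      simp only [mul_assoc]
    have h2 := hsup _ _ _ hw2 i
    have h3 := rho_cmp h hK hU i
    have h4 := neg_abs_le (k2 i)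
    have h5 : (w.length : ℤ) = (w.take i0).length + (V.length + (w.drop j).length) := by
      have := congrArg List.length hsplit
      rw [List.length_append, List.length_append] at this
      exact_mod_cast this
    rw [List.length_append, List.length_append] at h2
    rw [hz, h5] at h2
    push_cast at h2
    have h6 : (k + k2) i = k i + k2 i := rfl
    rw [h6] at h2
    have h7 : (K : ℤ) * V.length - K * U.length ≤ - k2 i := by nlinarith
    have h8 : (K : ℤ) = 2 * K' + 1 := by rw [hKdef]; push_cast; ring
    rw [h8] at h7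
    have h9 : ((K' : ℤ) + 1) * V.length ≤ (3 * K' + 1) * U.length := by nlinarith
    have h10 : ((K' : ℤ) + 1) * V.length ≤ (K' + 1) * (3 * U.length) := by
      have : (0 : ℤ) ≤ U.length := by positivity
      nlinarith
    have h11 : (V.length : ℤ) ≤ 3 * U.length :=
      le_of_mul_le_mul_left h10 (by positivity)
    exact_mod_cast h11

end ce

end Pool.Agent.HYP
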