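import Pool.Agent.HYP.WLen
import Pool.Agent.HYP.Near
/-!
# Finitely many types of elements of a central extension of a hyperbolic group
-/
namespace Pool.Agent.HYP
open Pool.Agent.SLX

namespace TY

theorem val_append {A G : Type} [Group G] (π : A → G) (u v : List A) :
    val π (u ++ v) = val π u * val π v := by
  simp [val]

theorem val_take_drop {A G : Type} [Group G] (π : A → G) (w : List A) (j : ℕ) :
    val π (w.take j) * val π (w.drop j) = val π w := by
  rw [← val_append, List.take_append_drop]

theorem val_hom {A E P : Type} [Group E] [Group P] (π : A → E) (f : E →* P) (w : List A) :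
    f (val π w) = val (fun a => f (π a)) w := by
  simp [val, map_list_prod, List.map_map, Function.comp_def]

section
variable {A P : Type} [Group P] {π : A → P}

theorem wlen_sub (h : Gen π) (x y : P) : wlen π x ≤ wlen π (x * y) + wlen π y := by
  have := wlen_mul h (x * y) y⁻¹
  rwa [mul_inv_cancel_right, wlen_inv h] at this

/-- The cone type argument of Cannon. -/
theorem cone [Finite A] (h : Gen π) (L : RLen P) : ∃ N : ℕ, ∀ q q' : P,
    (∀ b : P, wlen π b ≤ N → (wlen π (q * b) : ℤ) - wlen π q = wlen π (q' * b) - wlen π q') →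
    ∀ (n : ℕ) (v : P), wlen π v = n → wlen π (q * v) = wlen π q + wlen π v →
      wlen π (q' * v) = wlen π q' + wlen π v := by
  obtain ⟨N, hN⟩ := geo_ft h L 1
  refine ⟨N + 1, fun q q' hqq n => ?_⟩
  induction n with
  | zero =>
    intro v hv _
    obtain ⟨w, hw, rfl⟩ := wlen_word h v
    have : w = [] := List.eq_nil_of_length_eq_zero (by omega)
    subst this
    have : val π ([] : List A) = 1 := by simp [val]
    rw [this, mul_one, wlen_one]; rfl
  | succ n ih =>
    intro v hv hqv
    -- `v = v₀ x`
    obtain ⟨w, hw, hwv⟩ := wlen_word h v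
    have hwn : w.length = n + 1 := by omega
    set v₀ := val π (w.take n) with hv₀
    have hw2 : wlen π (val π w) = w.length := by rw [hwv, hw]
    have h0 : wlen π v₀ = n := by
      have := wlen_take h w hw2 0 n (by omega) (by omega)
      simpa [val, hv₀] using this
    have hx : wlen π (v₀⁻¹ * v) ≤ 1 := by
      have := wlen_take h w hw2 n (n + 1) (by omega) (by omega)
      rw [List.take_of_length_le (by omega : w.length ≤ n + 1), hwv] at this
      rw [hv₀, this]; omega
    have hqv0 : wlen π (q * v₀) = wlen π q + wlen π v₀ := by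
      have h1 := wlen_mul h (q * v₀) (v₀⁻¹ * v)
      have h2 := wlen_mul h q v₀
      have h3 : q * v₀ * (v₀⁻¹ * v) = q * v := by group
      rw [h3] at h1
      omega
    have hq'v0 := ih v₀ h0 hqv0
    by_contra hne
    have hle := wlen_mul h q' v
    have hlt : wlen π (q' * v) < wlen π q' + wlen π v := lt_of_le_of_ne hle hne
    rcases Nat.eq_zero_or_pos (wlen π q') with hq0 | hqpos
    · obtain ⟨z, hz, hzq⟩ := wlen_word h q'
      have : z = [] := List.eq_nil_of_length_eq_zero (by omega)
      subst this
      have : q' = 1 := by rw [← hzq]; simp [val]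
      rw [this, one_mul, wlen_one] at hlt
      omega
    · -- two geodesic words
      obtain ⟨w1, hw1, hw1v⟩ := wlen_word h q'
      obtain ⟨w0, hw0, hw0v⟩ := wlen_word h v₀
      obtain ⟨w2, hw2', hw2v⟩ := wlen_word h (q' * v)
      have hA : val π (w1 ++ w0) = q' * v₀ := by rw [val_append, hw1v, hw0v]
      have hB : wlen π (val π (w1 ++ w0)) = (w1 ++ w0).length := by
        rw [hA, hq'v0, List.length_append, hw1, hw0]
      have hC : wlen π (val π w2) = w2.length := by rw [hw2v, hw2']
      have hD : wlen π ((val π (w1 ++ w0))⁻¹ * val π w2) ≤ 1 := by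
        rw [hA, hw2v]
        have : (q' * v₀)⁻¹ * (q' * v) = v₀⁻¹ * v := by group
        rw [this]; exact hx
      have hE := hN _ _ hB hC hD (wlen π q' - 1)
      have hlow : wlen π (q' * v₀) ≤ wlen π (q' * v) + 1 := by
        have := wlen_sub h (q' * v₀) (v₀⁻¹ * v)
        have h3 : q' * v₀ * (v₀⁻¹ * v) = q' * v := by group
        rw [h3] at this
        omega
      have hs2 : wlen π q' - 1 ≤ w2.length := by omega
      -- the point of `w2`
      set a := val π (w2.take (wlen π q' - 1)) with ha
      set a' := val π ((w1 ++ w0).take (wlen π q' - 1)) with ha'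
      have hla : wlen π a = wlen π q' - 1 := by
        have := wlen_take h w2 hC 0 (wlen π q' - 1) (by omega) hs2
        simpa [val, ha] using this
      have hra : wlen π (a⁻¹ * (q' * v)) = w2.length - (wlen π q' - 1) := by
        have := wlen_take h w2 hC (wlen π q' - 1) w2.length hs2 le_rfl
        rw [List.take_length, hw2v] at this
        rw [ha, this]
      have hqa' : wlen π (q'⁻¹ * a') ≤ 1 := by
        have hq1 : val π ((w1 ++ w0).take (wlen π q')) = q' := by
          rw [← hw1, List.take_left', hw1v]
          rfl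
        have := wlen_take h (w1 ++ w0) hB (wlen π q' - 1) (wlen π q') (by omega)
          (by rw [List.length_append]; omega)
        rw [hq1] at this
        have h3 : (a'⁻¹ * q')⁻¹ = q'⁻¹ * a' := by group
        rw [← h3, wlen_inv h, ha', this]; omega
      have hqa : wlen π (q'⁻¹ * a) ≤ N + 1 := by
        have h1 := wlen_mul h (q'⁻¹ * a') (a'⁻¹ * a)
        have h3 : q'⁻¹ * a' * (a'⁻¹ * a) = q'⁻¹ * a := by group
        rw [h3] at h1
        omega
      have hty := hqq (q'⁻¹ * a) hqa
      rw [mul_inv_cancel_left, hla] at hty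
      have hfin := wlen_mul h (q * (q'⁻¹ * a)) (a⁻¹ * (q' * v))
      have h3 : q * (q'⁻¹ * a) * (a⁻¹ * (q' * v)) = q * v := by group
      rw [h3, hra] at hfin
      omega

end

end TY

open TY in
theorem exists_types {m : ℕ} {A E P : Type} [Finite A] [Group E] [Group P] {π : A → E}
    {f : E →* P} {φ : (Fin m → ℤ) → E} (h : CE m π f φ) (L : RLen P) {K : ℕ}
    {ρ : E → Fin m → ℤ} (hρ : Rho m π f φ K ρ) :
    ∃ (T : Type) (ty : E → T), (Set.range ty).Finite ∧ ∀ e e' : E, ty e = ty e' → ∀ g : E,
      wlen (fun a => f (π a)) (f (e * g)) =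
        wlen (fun a => f (π a)) (f e) + wlen (fun a => f (π a)) (f g) →
      wlen (fun a => f (π a)) (f (e' * g)) =
        wlen (fun a => f (π a)) (f e') + wlen (fun a => f (π a)) (f g) ∧
      ρ (e' * g) - ρ e' = ρ (e * g) - ρ e := by
  classical
  set W : P → ℕ := wlen (fun a => f (π a)) with hW
  obtain ⟨N1, hN1⟩ := cone h.gen L
  obtain ⟨N2, hN2⟩ := near_path h.gen L 3 0
  set N := max N1 N2 with hN
  have hBfin : {w : List A | w.length ≤ N}.Finite := List.finite_length_le A N
  have : Finite {w : List A // w.length ≤ N} := hBfin.to_subtype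
  set ty : E → ({w : List A // w.length ≤ N} → ℤ × (Fin m → ℤ)) := fun e w =>
    ((W (f (e * val π w.1)) : ℤ) - W (f e), ρ (e * val π w.1) - ρ e) with hty
  have hφ0 : φ 0 = 1 := by
    have := h.add 0 0
    rw [add_zero] at this
    exact (mul_eq_left).1 this.symm
  have hφneg : ∀ k, φ (-k) = (φ k)⁻¹ := by
    intro k
    have := h.add (-k) k
    rw [neg_add_cancel, hφ0] at this
    exact eq_inv_of_mul_eq_one_left this.symm
  -- Lipschitz bounds
  have hlip : ∀ (w : List A) (e : E) (i : Fin m), |ρ (e * val π w) i - ρ e i| ≤ K * w.length := by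
    intro w
    induction w using List.reverseRecOn with
    | nil => intro e i; simp [val]
    | append_singleton w a ih =>
      intro e i
      have h1 := hρ.lip (e * val π w) a i
      have h2 := ih e i
      have h3 : e * val π (w ++ [a]) = e * val π w * π a := by
        rw [val_append]; simp [val, mul_assoc]
      have hl : ((w ++ [a]).length : ℤ) = w.length + 1 := by simp
      rw [h3, hl]
      have h4 : ρ (e * val π w * π a) i - ρ e i =
        (ρ (e * val π w * π a) i - ρ (e * val π w) i) + (ρ (e * val π w) i - ρ e i) := by ring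
      rw [h4]
      refine (abs_add_le _ _).trans ?_
      rw [mul_add, mul_one]
      linarith
  have hWlip : ∀ (w : List A) (e : E), |(W (f (e * val π w)) : ℤ) - W (f e)| ≤ w.length := by
    intro w e
    have h1 := wlen_mul h.gen (f e) (f (val π w))
    have h2 := wlen_sub h.gen (f e) (f (val π w))
    have h3 : W (f (val π w)) ≤ w.length := by rw [val_hom]; exact wlen_le w
    rw [map_mul, abs_le]
    simp only [hW] at *
    constructor <;> omega
  -- superadditivity
  have hsup : ∀ (e g b : E) (i : Fin m), ρ (e * b) i + ρ (b⁻¹ * g) i ≤ ρ (e * g) i := by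
    intro e g b i
    obtain ⟨w1, k1, hw1, hr1, -⟩ := hρ.att (e * b) i
    obtain ⟨w2, k2, hw2, hr2, -⟩ := hρ.att (b⁻¹ * g) i
    have h1 : val π (w1 ++ w2) = e * g * φ (k1 + k2) := by
      rw [val_append, hw1, hw2, h.add]
      calc e * b * φ k1 * (b⁻¹ * g * φ k2) = e * b * (φ k1 * (b⁻¹ * g)) * φ k2 := by group
        _ = e * b * ((b⁻¹ * g) * φ k1) * φ k2 := by rw [h.central]
        _ = e * g * (φ k1 * φ k2) := by group
    have h2 := hρ.sup (e * g) (w1 ++ w2) (k1 + k2) h1 i
    rw [hr1, hr2]
    rw [List.length_append] at h2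
    push_cast at h2
    simp only [Pi.add_apply] at h2
    linarith
  -- equality for some element of the ball
  have heq : ∀ (e g : E), W (f (e * g)) = W (f e) + W (f g) → ∀ i : Fin m,
      ∃ w : List A, w.length ≤ N ∧
        ρ (e * g) i ≤ ρ (e * val π w) i + ρ ((val π w)⁻¹ * g) i := by
    intro e g heg i
    obtain ⟨w, k, hw, hr, hq⟩ := hρ.att (e * g) i
    obtain ⟨u1, hu1, hu1v⟩ := wlen_word h.gen (f e)
    obtain ⟨u2, hu2, hu2v⟩ := wlen_word h.gen (f g)
    have hfk : ∀ k, f (φ k) = 1 := fun k => (h.ker _).2 ⟨k, rfl⟩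
    have huv : val (fun a => f (π a)) (u1 ++ u2) = f (e * g) := by
      rw [val_append, hu1v, hu2v, map_mul]
    have hwv : val (fun a => f (π a)) w = f (e * g) := by
      rw [← val_hom, hw, map_mul, hfk, mul_one]
    have hug : wlen (fun a => f (π a)) (val (fun a => f (π a)) (u1 ++ u2)) =
        (u1 ++ u2).length := by
      rw [huv, List.length_append, hu1, hu2]; exact heg
    have hQu : QW (fun a => f (π a)) 3 (u1 ++ u2) := by
      intro i j hij hj
      rw [wlen_take h.gen _ hug i j hij hj]
      omega
    obtain ⟨j, hj, hjN⟩ := hN2 (u1 ++ u2) w hQu hq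
      (by rw [huv, hwv, inv_mul_cancel, wlen_one]) u1.length
      (by rw [List.length_append]; omega)
    rw [List.take_left', hu1v] at hjN
    · obtain ⟨w0, hw0, hw0v⟩ := wlen_word h.gen ((f e)⁻¹ * val (fun a => f (π a)) (w.take j))
      refine ⟨w0, ?_, ?_⟩
      · rw [hw0]; exact hjN.trans (le_max_right _ _)
      · -- the initial part
        have h1 : f ((e * val π w0)⁻¹ * val π (w.take j)) = 1 := by
          rw [map_mul, map_inv, map_mul, val_hom, val_hom, hw0v]; group
        obtain ⟨k1, hk1⟩ := (h.ker _).1 h1
        have h2 : val π (w.take j) = e * val π w0 * φ k1 := by rw [hk1]; group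
        have h3 : val π (w.drop j) = (val π w0)⁻¹ * g * φ (k - k1) := by
          have h4 := val_take_drop π w j
          rw [h2, hw] at h4
          have h5 : val π (w.drop j) = (e * val π w0 * φ k1)⁻¹ * (e * g * φ k) := by
            rw [← h4]; group
          rw [h5, sub_eq_add_neg, h.add, hφneg]
          calc (e * val π w0 * φ k1)⁻¹ * (e * g * φ k)
              = (φ k1)⁻¹ * ((val π w0)⁻¹ * g * φ k) := by group
            _ = φ (-k1) * ((val π w0)⁻¹ * g * φ k) := by rw [hφneg]
            _ = (val π w0)⁻¹ * g * φ k * φ (-k1) := by rw [h.central]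
            _ = (val π w0)⁻¹ * g * (φ k * (φ k1)⁻¹) := by rw [hφneg]; group
        have h6 := hρ.sup _ _ _ h2 i
        have h7 := hρ.sup _ _ _ h3 i
        rw [hr]
        have h8 : ((w.take j).length : ℤ) + (w.drop j).length = w.length := by
          rw [List.length_take, List.length_drop]
          push_cast [Nat.min_eq_left hj]
          omega
        simp only [Pi.sub_apply] at h7
        have h9 : (K : ℤ) * w.length = K * (w.take j).length + K * (w.drop j).length := by
          rw [← h8]; ring
        linarith
    · rfl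
  refine ⟨_, ty, ?_, ?_⟩
  · -- finite range
    refine Set.Finite.subset (Set.Finite.pi (t := fun _ : {w : List A // w.length ≤ N} =>
      (Set.Icc (-(N : ℤ)) N) ×ˢ (Set.univ.pi fun _ : Fin m =>
        Set.Icc (-((K * N : ℕ) : ℤ)) ((K * N : ℕ) : ℤ)))
      (fun w => (Set.finite_Icc _ _).prod (Set.Finite.pi fun _ => Set.finite_Icc _ _))) ?_
    rintro _ ⟨e, rfl⟩ w -
    have hwN : (w.1.length : ℤ) ≤ N := by exact_mod_cast w.2
    refine ⟨?_, ?_⟩
    · have := abs_le.1 (hWlip w.1 e)
      simp only [hty, Set.mem_Icc]
      constructor <;> linarith [this.1, this.2]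
    · intro i _
      have h1 := abs_le.1 (hlip w.1 e i)
      have h2 : (K : ℤ) * w.1.length ≤ ((K * N : ℕ) : ℤ) := by
        push_cast
        exact mul_le_mul_of_nonneg_left hwN (by positivity)
      simp only [hty, Set.mem_Icc, Pi.sub_apply]
      constructor <;> linarith [h1.1, h1.2]
  · intro e e' hee g heg
    have hcomp : ∀ w : List A, w.length ≤ N →
        ((W (f (e * val π w)) : ℤ) - W (f e) = W (f (e' * val π w)) - W (f e')) ∧
        (ρ (e * val π w) - ρ e = ρ (e' * val π w) - ρ e') := by
      intro w hw
      have := congrFun hee ⟨w, hw⟩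
      exact ⟨congrArg Prod.fst this, congrArg Prod.snd this⟩
    have h1 : W (f (e' * g)) = W (f e') + W (f g) := by
      rw [map_mul]
      refine hN1 (f e) (f e') ?_ _ (f g) rfl (by rw [← map_mul]; exact heg)
      intro b hb
      obtain ⟨w, hw, rfl⟩ := wlen_word h.gen b
      have := (hcomp w (by rw [hw]; exact hb.trans (le_max_left _ _))).1
      rw [map_mul, map_mul, val_hom] at this
      exact this
    refine ⟨h1, ?_⟩
    funext i
    apply le_antisymm
    · obtain ⟨w, hw, hle⟩ := heq e' g h1 i
      have h2 := congrFun (hcomp w hw).2 i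
      have h3 := hsup e g (val π w) i
      simp only [Pi.sub_apply] at h2 ⊢
      linarith
    · obtain ⟨w, hw, hle⟩ := heq e g heg i
      have h2 := congrFun (hcomp w hw).2 i
      have h3 := hsup e' g (val π w) i
      simp only [Pi.sub_apply] at h2 ⊢
      linarith

end Pool.Agent.HYP
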