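import Pool.Agent.HYP.WLen
import Pool.Agent.HYP.Near
import Pool.Agent.HYP.Rho
import Pool.Agent.HYP.Types
import Pool.Agent.HYP.RSec
import Pool.Agent.SLA.Prod
/-!
# Central extensions of hyperbolic groups have regular sections (Neumann, Reeves)
-/
namespace Pool.Agent.HYP
open Pool.Agent.SLX Pool.Agent.SLA
open scoped Pointwise


section
variable {m : ℕ} {A E P : Type} [Group E] [Group P] {π : A → E} {f : E →* P}
  {φ : (Fin m → ℤ) → E}

theorem CE.zero (h : CE m π f φ) : φ 0 = 1 := by
  have h1 := h.add 0 0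
  rw [add_zero] at h1
  exact (mul_eq_left.1 h1.symm)

theorem CE.ker_phi (h : CE m π f φ) (k : Fin m → ℤ) : f (φ k) = 1 := (h.ker _).2 ⟨k, rfl⟩

/-- the inclusion of the central subgroup -/
def CE.hom (h : CE m π f φ) : (Fin m → Multiplicative ℤ) →* E where
  toFun x := φ (fun i => (x i).toAdd)
  map_one' := h.zero
  map_mul' x y := by
    rw [← h.add]
    rfl

theorem CE.hom_apply (h : CE m π f φ) (x : Fin m → Multiplicative ℤ) :
    h.hom x = φ (fun i => (x i).toAdd) := rfl

theorem CE.hom_inj (h : CE m π f φ) : Function.Injective h.hom := by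
  intro x y hxy
  have := h.inj hxy
  funext i
  exact congrFun this i

theorem CE.hom_central (h : CE m π f φ) (x : Fin m → Multiplicative ℤ) (e : E) :
    h.hom x * e = e * h.hom x := h.central _ _

theorem CE.hom_surj (h : CE m π f φ) (k : Fin m → ℤ) :
    ∃ x, h.hom x = φ k := ⟨fun i => Multiplicative.ofAdd (k i), rfl⟩

theorem CE.val_map (f : E →* P) (π : A → E) (w : List A) :
    f (val π w) = val (fun a => f (π a)) w := by
  induction w with
  | nil => simp [val]
  | cons a w ih =>
    have h1 : val π (a :: w) = π a * val π w := by simp [val]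
    have h2 : val (fun a => f (π a)) (a :: w) = f (π a) * val (fun a => f (π a)) w := by
      simp [val]
    rw [h1, h2, map_mul, ih]

/-- The corrections. -/
def Corr (m K : ℕ) : Type := {c : Fin m → ℤ // ∀ i, |c i| ≤ K}

instance (m K : ℕ) : Finite (Corr m K) := by
  have : {c : Fin m → ℤ | ∀ i, |c i| ≤ K}.Finite := by
    apply (Set.Finite.pi' (fun _ : Fin m => Set.finite_Icc (-(K : ℤ)) K)).subset
    intro c hc i
    exact abs_le.1 (hc i)
  exact this.to_subtype

theorem corr_finite (φ : (Fin m → ℤ) → E) (K : ℕ) :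
    (φ '' {c : Fin m → ℤ | ∀ i, |c i| ≤ K}).Finite := by
  apply Set.Finite.image
  apply (Set.Finite.pi' (fun _ : Fin m => Set.finite_Icc (-(K : ℤ)) K)).subset
  intro c hc i
  exact abs_le.1 (hc i)

/-- The letters of the first kind. -/
def let1 (π : A → E) (φ : (Fin m → ℤ) → E) (K : ℕ) (a : A × Corr m K) : E :=
  π a.1 * φ a.2.1

theorem let1_map (h : CE m π f φ) (K : ℕ) (w : List (A × Corr m K)) :
    f (val (let1 π φ K) w) = val (fun a => f (π a)) (w.map Prod.fst) := by
  induction w with
  | nil => simp [val]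
  | cons a w ih =>
    have h1 : val (let1 π φ K) (a :: w) = π a.1 * φ a.2.1 * val (let1 π φ K) w := by
      simp [val, let1]
    have h2 : val (fun a => f (π a)) ((a :: w).map Prod.fst) =
      f (π a.1) * val (fun a => f (π a)) (w.map Prod.fst) := by
      simp [val]
    rw [h1, h2, map_mul, map_mul, h.ker_phi, ih, mul_one]

/-- The language of the first kind. -/
def lang1 (π : A → E) (f : E →* P) (φ : (Fin m → ℤ) → E) (K : ℕ) (ρ : E → Fin m → ℤ) :
    Language (A × Corr m K) :=
  {u : List (A × Corr m K) | ∀ t, ρ (val (let1 π φ K) (u.take t)) = 0 ∧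
    wlen (fun a => f (π a)) (f (val (let1 π φ K) (u.take t))) = (u.take t).length}

theorem lang1_prefix {K : ℕ} {ρ : E → Fin m → ℤ} {x y : List (A × Corr m K)}
    (hxy : x ++ y ∈ lang1 π f φ K ρ) : x ∈ lang1 π f φ K ρ := by
  intro t
  have h1 := hxy (min t x.length)
  have h2 : (x ++ y).take (min t x.length) = x.take t := by
    rw [List.take_append_of_le_length (min_le_right _ _)]
    rcases le_total t x.length with hle | hle
    · rw [min_eq_left hle]
    · rw [min_eq_right hle, List.take_length, List.take_of_length_le hle]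
  rw [h2] at h1
  exact h1

theorem lang1_take {K : ℕ} {ρ : E → Fin m → ℤ} {x : List (A × Corr m K)}
    (hx : x ∈ lang1 π f φ K ρ) (t : ℕ) : x.take t ∈ lang1 π f φ K ρ := by
  apply lang1_prefix (y := x.drop t)
  rw [List.take_append_drop]
  exact hx

theorem lang1_full {K : ℕ} {ρ : E → Fin m → ℤ} {x : List (A × Corr m K)}
    (hx : x ∈ lang1 π f φ K ρ) : ρ (val (let1 π φ K) x) = 0 ∧
    wlen (fun a => f (π a)) (f (val (let1 π φ K) x)) = x.length := by
  have := hx x.length
  rwa [List.take_length] at this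

theorem lang1_regular [Finite A] (h : CE m π f φ) (L : RLen P) {K : ℕ}
    {ρ : E → Fin m → ℤ} (hρ : Rho m π f φ K ρ) : (lang1 π f φ K ρ).IsRegular := by
  obtain ⟨T, ty, hfin, hty⟩ := exists_types h L hρ
  refine regular_of_data (S := T × Prop) _
    (fun x => (ty (val (let1 π φ K) x), x ∈ lang1 π f φ K ρ)) (Set.range ty ×ˢ Set.univ)
    (hfin.prod (Set.toFinite _)) ?_ ?_
  · intro x y _
    exact ⟨⟨_, rfl⟩, trivial⟩
  · intro x x' hd y hy
    have e1 : ty (val (let1 π φ K) x) = ty (val (let1 π φ K) x') := congrArg Prod.fst hd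
    have e2 : (x ∈ lang1 π f φ K ρ) = (x' ∈ lang1 π f φ K ρ) := congrArg Prod.snd hd
    have hx : x ∈ lang1 π f φ K ρ := lang1_prefix hy
    have hx' : x' ∈ lang1 π f φ K ρ := by
      rw [← e2]
      exact hx
    intro t
    rcases le_total t x'.length with hle | hle
    · have := hx' t
      rwa [List.take_append_of_le_length hle]
    · obtain ⟨s, rfl⟩ := Nat.exists_eq_add_of_le hle
      have h1 : (x' ++ y).take (x'.length + s) = x' ++ y.take s := by
        rw [List.take_length_add_append]
      have h2 : (x ++ y).take (x.length + s) = x ++ y.take s := by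
        rw [List.take_length_add_append]
      have h3 := hy (x.length + s)
      rw [h2, SLA.val_append, List.length_append] at h3
      rw [h1, SLA.val_append, List.length_append]
      obtain ⟨a1, a2⟩ := lang1_full hx
      obtain ⟨b1, b2⟩ := lang1_full hx'
      have h4 : wlen (fun a => f (π a)) (f (val (let1 π φ K) (y.take s))) ≤ (y.take s).length := by
        rw [let1_map h]
        refine (wlen_le _).trans ?_
        rw [List.length_map]
      have h5 := wlen_mul h.gen (f (val (let1 π φ K) x)) (f (val (let1 π φ K) (y.take s)))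
      rw [← map_mul, h3.2, a2] at h5
      have h6 : wlen (fun a => f (π a)) (f (val (let1 π φ K) (y.take s))) = (y.take s).length := by
        omega
      obtain ⟨c1, c2⟩ := hty _ _ e1 (val (let1 π φ K) (y.take s)) (by
        rw [h3.2, a2, h6])
      constructor
      · rw [b1, h3.1, a1, sub_zero, sub_zero] at c2
        exact c2
      · rw [c1, b2, h6]

theorem rho_zero {K : ℕ} {ρ : E → Fin m → ℤ} (hρ : Rho m π f φ K ρ) (e : E) :
    ρ (e * φ (ρ e)) = 0 := by
  rw [hρ.phi, sub_self]

/-- The corrected word. -/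
theorem exists_lift (h : CE m π f φ) {K : ℕ} {ρ : E → Fin m → ℤ} (hρ : Rho m π f φ K ρ)
    (w : List A) : ∃ u : List (A × Corr m K), u.length = w.length ∧
      ∀ t, val (let1 π φ K) (u.take t) = val π (w.take t) * φ (ρ (val π (w.take t))) := by
  induction w using List.reverseRecOn with
  | nil =>
    refine ⟨[], rfl, fun t => ?_⟩
    have h1 : val π ([] : List A) = 1 := by simp [val]
    rw [List.take_nil, List.take_nil, h1, hρ.one, h.zero]
    simp [val]
  | append_singleton w a ih =>
    obtain ⟨u, hu, hut⟩ := ih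
    refine ⟨u ++ [(a, ⟨ρ (val π w * π a) - ρ (val π w), fun i => hρ.lip _ _ i⟩)], ?_, ?_⟩
    · simp [hu]
    · intro t
      rcases le_or_gt t w.length with hle | hlt
      · rw [List.take_append_of_le_length (by omega), List.take_append_of_le_length hle]
        exact hut t
      · rw [List.take_of_length_le (by simp; omega), List.take_of_length_le (by simp; omega)]
        have h1 := hut w.length
        rw [List.take_length, ← hu, List.take_length] at h1
        rw [SLA.val_append, SLA.val_append, h1]
        have h2 : val π [a] = π a := by simp [val]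
        have h3 : val (let1 π φ K) [(a, ⟨ρ (val π w * π a) - ρ (val π w),
            fun i => hρ.lip _ _ i⟩)] = π a * φ (ρ (val π w * π a) - ρ (val π w)) := by
          simp [val, let1]
        rw [h2, h3, mul_assoc (val π w), ← mul_assoc (φ _) (π a), h.central, mul_assoc (π a),
          ← h.add, add_sub_cancel, mul_assoc (val π w)]

theorem lang1_onto (h : CE m π f φ) {K : ℕ} {ρ : E → Fin m → ℤ} (hρ : Rho m π f φ K ρ)
    (p : P) : ∃ u ∈ lang1 π f φ K ρ, f (val (let1 π φ K) u) = p := by
  obtain ⟨w, hw1, hw2⟩ := wlen_word h.gen p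
  obtain ⟨u, hu, hut⟩ := exists_lift h hρ w
  have hg : wlen (fun a => f (π a)) (val (fun a => f (π a)) w) = w.length := by
    rw [hw2, hw1]
  have key : ∀ t, f (val (let1 π φ K) (u.take t)) = val (fun a => f (π a)) (w.take t) := by
    intro t
    rw [hut t, map_mul, h.ker_phi, mul_one, CE.val_map]
  refine ⟨u, ?_, ?_⟩
  · intro t
    constructor
    · rw [hut t]
      exact rho_zero hρ _
    · rw [key t]
      have h1 : (u.take t).length = min t w.length := by rw [List.length_take, hu]
      rw [h1]
      have h2 := wlen_take h.gen w hg 0 (min t w.length) (Nat.zero_le _) (min_le_right _ _)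
      have h3 : w.take (min t w.length) = w.take t := by
        rcases le_total t w.length with hle | hle
        · rw [min_eq_left hle]
        · rw [min_eq_right hle, List.take_length, List.take_of_length_le hle]
      rw [h3, List.take_zero] at h2
      have h4 : val (fun a => f (π a)) ([] : List A) = 1 := by simp [val]
      rw [h4, inv_one, one_mul, Nat.sub_zero] at h2
      exact h2
  · have := key w.length
    rw [List.take_length, ← hu, List.take_length] at this
    rw [this, hw2]

theorem rho_word {K : ℕ} {ρ : E → Fin m → ℤ} (hρ : Rho m π f φ K ρ) (w : List A) (e : E)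
    (i : Fin m) : |ρ (e * val π w) i - ρ e i| ≤ K * w.length := by
  induction w using List.reverseRecOn with
  | nil =>
    have h1 : val π ([] : List A) = 1 := by simp [val]
    rw [h1, mul_one]
    simp
  | append_singleton w a ih =>
    have h2 : val π (w ++ [a]) = val π w * π a := by simp [val]
    rw [h2, ← mul_assoc]
    have h3 := hρ.lip (e * val π w) a i
    have h4 : ρ (e * val π w * π a) i - ρ e i = (ρ (e * val π w * π a) i - ρ (e * val π w) i) +
      (ρ (e * val π w) i - ρ e i) := by ring
    rw [h4]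
    refine (abs_add_le _ _).trans ?_
    rw [List.length_append, List.length_singleton]
    push_cast
    linarith

/-- Points at height zero over nearby points are near. -/
theorem near_zero [Finite A] (h : CE m π f φ) {K : ℕ} {ρ : E → Fin m → ℤ}
    (hρ : Rho m π f φ K ρ) (N : ℕ) : ∃ D : Set E, D.Finite ∧ ∀ e e' : E, ρ e = 0 → ρ e' = 0 →
      wlen (fun a => f (π a)) ((f e)⁻¹ * f e') ≤ N → e⁻¹ * e' ∈ D := by
  refine ⟨(val π '' {w : List A | w.length ≤ N}) * (φ '' {c : Fin m → ℤ | ∀ i, |c i| ≤
    ((K * N : ℕ) : ℤ)}), (words_finite π N).mul (corr_finite φ (K * N)), ?_⟩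
  intro e e' h1 h2 h3
  obtain ⟨w, hw1, hw2⟩ := wlen_word h.gen ((f e)⁻¹ * f e')
  have h4 : f ((val π w)⁻¹ * (e⁻¹ * e')) = 1 := by
    rw [map_mul, map_inv, CE.val_map, hw2, map_mul, map_inv, inv_mul_cancel]
  obtain ⟨k, hk⟩ := (h.ker _).1 h4
  have h5 : e⁻¹ * e' = val π w * φ k := by
    rw [hk]
    group
  have h6 : e' = e * val π w * φ k := by
    rw [mul_assoc, ← h5]
    group
  have h7 : k = ρ (e * val π w) := by
    rw [h6, hρ.phi, sub_eq_zero] at h2
    exact h2.symm
  refine Set.mem_mul.2 ⟨val π w, ⟨w, by simp only [Set.mem_ofPred_eq]; omega, rfl⟩, φ k, ⟨k, ?_, rfl⟩,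
    h5.symm⟩
  intro i
  rw [h7]
  have h8 := rho_word hρ w e i
  rw [h1, Pi.zero_apply, sub_zero] at h8
  refine h8.trans ?_
  have h9 : w.length ≤ N := by omega
  have : K * w.length ≤ K * N := Nat.mul_le_mul_left _ h9
  exact_mod_cast this

theorem lang1_ft [Finite A] (h : CE m π f φ) (L : RLen P) {K : ℕ} {ρ : E → Fin m → ℤ}
    (hρ : Rho m π f φ K ρ) (M : ℕ) : ∃ D : Set E, D.Finite ∧ ∀ u ∈ lang1 π f φ K ρ,
      ∀ v ∈ lang1 π f φ K ρ, wlen (fun a => f (π a)) ((f (val (let1 π φ K) u))⁻¹ *
        f (val (let1 π φ K) v)) ≤ M →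
      (∀ t, (val (let1 π φ K) (u.take t))⁻¹ * val (let1 π φ K) (v.take t) ∈ D) ∧
        u.length ≤ v.length + M ∧ v.length ≤ u.length + M := by
  obtain ⟨N, hN⟩ := geo_ft h.gen L M
  obtain ⟨D, hD, hDe⟩ := near_zero h hρ N
  refine ⟨D, hD, fun u hu v hv huv => ⟨fun t => ?_, ?_, ?_⟩⟩
  · apply hDe _ _ (hu t).1 (hv t).1
    have h1 := hN (u.map Prod.fst) (v.map Prod.fst) (by
      rw [← let1_map h, (lang1_full hu).2, List.length_map]) (by
      rw [← let1_map h, (lang1_full hv).2, List.length_map]) (by
      rw [← let1_map h, ← let1_map h]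
      exact huv) t
    rw [← List.map_take, ← List.map_take, ← let1_map h, ← let1_map h] at h1
    exact h1
  · have h1 := wlen_mul h.gen (f (val (let1 π φ K) v)) ((f (val (let1 π φ K) v))⁻¹ *
        f (val (let1 π φ K) u))
    have h2 := wlen_inv h.gen ((f (val (let1 π φ K) u))⁻¹ * f (val (let1 π φ K) v))
    rw [mul_inv_rev, inv_inv] at h2
    rw [mul_inv_cancel_left, (lang1_full hu).2, (lang1_full hv).2, h2] at h1
    omega
  · have h1 := wlen_mul h.gen (f (val (let1 π φ K) u)) ((f (val (let1 π φ K) u))⁻¹ *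
        f (val (let1 π φ K) v))
    rw [mul_inv_cancel_left, (lang1_full hu).2, (lang1_full hv).2] at h1
    omega

/-- The language of the first kind is a regular section. -/
theorem lang1_rsec [Finite A] (h : CE m π f φ) (L : RLen P) {K : ℕ} {ρ : E → Fin m → ℤ}
    (hρ : Rho m π f φ K ρ) : RSec (let1 π φ K) f (lang1 π f φ K ρ) := by
  refine ⟨lang1_regular h L hρ, fun e => lang1_onto h hρ (f e), fun F hF => ?_⟩
  obtain ⟨M, hM⟩ := (hF.image (fun p => wlen (fun a => f (π a)) p)).bddAbove
  obtain ⟨D, hD, hDD⟩ := lang1_ft h L hρ M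
  refine ⟨D, hD, fun u hu v hv huv t => (hDD u hu v hv (hM ⟨_, huv, rfl⟩)).1 t⟩

end

/-- **Regular sections of central extensions of hyperbolic groups.** -/
theorem ce_rsec {m : ℕ} {A E P : Type} [Finite A] [Group E] [Group P] {π : A → E}
    {f : E →* P} {φ : (Fin m → ℤ) → E} (h : CE m π f φ) (L : RLen P) :
    ∃ (B : Type) (_ : Finite B) (σ : B → E) (L1 : Language B), RSec σ f L1 := by
  obtain ⟨K, ρ, hρ⟩ := exists_rho h
  exact ⟨A × Corr m K, inferInstance, _, _, lang1_rsec h L hρ⟩

end Pool.Agent.HYP
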