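import Mathlib
/-!
# Word-hyperbolic groups
-/
namespace Pool.Agent.HYP

/-- A proper, roughly geodesic length function which satisfies the four point condition. -/
structure RLen (P : Type) [Group P] where
  l : P → ℕ
  one : l 1 = 0
  mul : ∀ g h, l (g * h) ≤ l g + l h
  inv : ∀ g, l g⁻¹ = l g
  fin : ∀ n, {g | l g ≤ n}.Finite
  c : ℕ
  geo : ∀ g n, n ≤ l g → ∃ h, l h ≤ n + c ∧ l (h⁻¹ * g) + n ≤ l g + c
  δ : ℕ
  hyp : ∀ x y z w : P, l (x⁻¹ * z) + l (y⁻¹ * w) ≤
    max (l (x⁻¹ * y) + l (z⁻¹ * w)) (l (x⁻¹ * w) + l (y⁻¹ * z)) + δ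

/-- `P` is word-hyperbolic: it has a length function (zero at 1, subadditive, symmetric, with finite
balls, roughly geodesic) which satisfies Gromov's four point condition. -/
def RHyp (P : Type) [Group P] : Prop := Nonempty (RLen P)

end Pool.Agent.HYP
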