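import Mathlib
import Pool.Agent.SLX.Defs
import Pool.Agent.HYP.HypDef
/-!
# Hyperbolic groups and their central extensions: definitions
-/
namespace Pool.Agent.HYP
open Pool.Agent.SLX

/-- The word length for the letters `π a`. -/
noncomputable def wlen {A P : Type} [Group P] (π : A → P) (g : P) : ℕ :=
  sInf {n | ∃ w : List A, w.length = n ∧ val π w = g}

/-- The letters `π a` generate `P` as a monoid and are closed under inversion. -/
structure Gen {A P : Type} [Group P] (π : A → P) : Prop where
  gen : ∀ g : P, ∃ w : List A, val π w = g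
  sym : ∀ a : A, ∃ b : A, π b = (π a)⁻¹

/-- `w` is a quasi-geodesic word: the number of letters between two of its points is at most `κ`
times their distance. -/
def QW {A P : Type} [Group P] (π : A → P) (κ : ℕ) (w : List A) : Prop :=
  ∀ i j, i ≤ j → j ≤ w.length → j - i ≤ κ * wlen π ((val π (w.take i))⁻¹ * val π (w.take j))

/-- A finite quasi-geodesic sequence of points. -/
def QG {P : Type} [Group P] (L : RLen P) (r a b n : ℕ) (p : ℕ → P) : Prop :=
  (∀ i, i < n → L.l ((p i)⁻¹ * p (i + 1)) ≤ r) ∧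
    ∀ i j, i ≤ j → j ≤ n → j - i ≤ a * L.l ((p i)⁻¹ * p j) + b

/-- `f : E → P` is a central extension with kernel `φ (ℤ^m)`, undistorted for the letters `π a`
of `E`, whose images generate `P`. -/
structure CE (m : ℕ) {A E P : Type} [Group E] [Group P] (π : A → E) (f : E →* P)
    (φ : (Fin m → ℤ) → E) : Prop where
  add : ∀ k k', φ (k + k') = φ k * φ k'
  inj : Function.Injective φ
  central : ∀ k e, φ k * e = e * φ k
  ker : ∀ e, f e = 1 ↔ ∃ k, φ k = e
  gen : Gen (fun a => f (π a))
  sym : ∀ a : A, ∃ b : A, π b = (π a)⁻¹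
  undist : ∃ K : ℕ, ∀ (w : List A) (k : Fin m → ℤ), val π w = φ k → ∀ i, |k i| ≤ K * w.length

/-- The properties of the height function of a central extension. -/
structure Rho (m : ℕ) {A E P : Type} [Group E] [Group P] (π : A → E) (f : E →* P)
    (φ : (Fin m → ℤ) → E) (K : ℕ) (ρ : E → Fin m → ℤ) : Prop where
  one : ρ 1 = 0
  phi : ∀ e k, ρ (e * φ k) = ρ e - k
  lip : ∀ e a i, |ρ (e * π a) i - ρ e i| ≤ K
  sup : ∀ e (w : List A) k, val π w = e * φ k → ∀ i, k i - K * w.length ≤ ρ e i
  att : ∀ e i, ∃ (w : List A) (k : Fin m → ℤ), val π w = e * φ k ∧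
    ρ e i = k i - K * w.length ∧ QW (fun a => f (π a)) 3 w

end Pool.Agent.HYP
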