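import Pool.Agent.HYP.HypDef
/-!
# Free groups are word-hyperbolic
-/
namespace Pool.Agent.HYP

/-- The length of the longest common initial segment. -/
def cpl {β : Type} [DecidableEq β] : List β → List β → ℕ
  | a :: u, b :: v => if a = b then cpl u v + 1 else 0
  | _, _ => 0

theorem cpl_ultra {β : Type} [DecidableEq β] :
    ∀ u v w : List β, min (cpl u v) (cpl v w) ≤ cpl u w
  | [], _, _ => by simp [cpl]
  | _ :: _, [], _ => by simp [cpl]
  | a :: u, b :: v, [] => by simp [cpl]
  | a :: u, b :: v, c :: w => by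
    have ih := cpl_ultra u v w
    by_cases h1 : a = b
    · by_cases h2 : b = c
      · subst h1
        subst h2
        simp only [cpl, if_true]
        omega
      · simp [cpl, h2]
    · simp [cpl, h1]

theorem cpl_comm {β : Type} [DecidableEq β] : ∀ u v : List β, cpl u v = cpl v u
  | [], [] => rfl
  | [], _ :: _ => rfl
  | _ :: _, [] => rfl
  | a :: u, b :: v => by
    have ih := cpl_comm u v
    by_cases h : a = b
    · simp [cpl, h, ih]
    · simp [cpl, h, Ne.symm h]

section
variable {X : Type} [DecidableEq X]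

theorem norm_of_isReduced {L : List (X × Bool)} (h : FreeGroup.IsReduced L) :
    FreeGroup.norm (FreeGroup.mk L) = L.length := by
  unfold FreeGroup.norm
  rw [FreeGroup.toWord_mk, h.reduce_eq]

omit [DecidableEq X] in
theorem isReduced_tail {a : X × Bool} {L : List (X × Bool)}
    (h : FreeGroup.IsReduced (a :: L)) : FreeGroup.IsReduced L :=
  List.IsChain.tail h

theorem norm_cpl : ∀ u v : List (X × Bool), FreeGroup.IsReduced u → FreeGroup.IsReduced v →
    FreeGroup.norm ((FreeGroup.mk u)⁻¹ * FreeGroup.mk v) + 2 * cpl u v = u.length + v.length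
  | [], v, _, hv => by
    have h1 : (FreeGroup.mk ([] : List (X × Bool)))⁻¹ * FreeGroup.mk v = FreeGroup.mk v := by
      rw [← FreeGroup.one_eq_mk, inv_one, one_mul]
    rw [h1, norm_of_isReduced hv]
    simp [cpl]
  | a :: u, [], hu, _ => by
    have h1 : (FreeGroup.mk (a :: u))⁻¹ * FreeGroup.mk ([] : List (X × Bool)) =
        (FreeGroup.mk (a :: u))⁻¹ := by
      rw [← FreeGroup.one_eq_mk, mul_one]
    rw [h1, FreeGroup.norm_inv_eq, norm_of_isReduced hu]
    simp [cpl]
  | a :: u, b :: v, hu, hv => by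
    by_cases h : a = b
    · subst h
      have ih := norm_cpl u v (isReduced_tail hu) (isReduced_tail hv)
      have h1 : (FreeGroup.mk (a :: u))⁻¹ * FreeGroup.mk (a :: v) =
          (FreeGroup.mk u)⁻¹ * FreeGroup.mk v := by
        have e1 : FreeGroup.mk (a :: u) = FreeGroup.mk [a] * FreeGroup.mk u := by
          rw [FreeGroup.mul_mk]
          rfl
        have e2 : FreeGroup.mk (a :: v) = FreeGroup.mk [a] * FreeGroup.mk v := by
          rw [FreeGroup.mul_mk]
          rfl
        rw [e1, e2]
        group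
      rw [h1]
      simp only [cpl, if_true, List.length_cons]
      omega
    · have h1 : FreeGroup.IsReduced (FreeGroup.invRev (a :: u)) := by
        apply FreeGroup.IsReduced.of_reduce_eq
        rw [FreeGroup.reduce_invRev, hu.reduce_eq]
      have h2 : FreeGroup.invRev (a :: u) = FreeGroup.invRev u ++ [(a.1, !a.2)] := by
        simp [FreeGroup.invRev]
      rw [h2] at h1
      have h3 : FreeGroup.IsReduced ([(a.1, !a.2)] ++ (b :: v)) := by
        show FreeGroup.IsReduced ((a.1, !a.2) :: b :: v)
        rw [FreeGroup.isReduced_cons_cons]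
        refine ⟨fun h4 => ?_, hv⟩
        simp only at h4 ⊢
        have h5 : a.2 ≠ b.2 := fun h6 => h (Prod.ext h4 h6)
        revert h5
        cases a.2 <;> cases b.2 <;> simp
      have h4 := h1.append_overlap h3 (by simp)
      have h5 : (FreeGroup.mk (a :: u))⁻¹ * FreeGroup.mk (b :: v) =
          FreeGroup.mk (FreeGroup.invRev u ++ [(a.1, !a.2)] ++ (b :: v)) := by
        rw [FreeGroup.inv_mk, FreeGroup.mul_mk, h2]
      rw [h5, norm_of_isReduced h4]
      simp [cpl, h, FreeGroup.invRev_length]
      omega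

theorem norm_toWord (x y : FreeGroup X) :
    FreeGroup.norm (x⁻¹ * y) + 2 * cpl x.toWord y.toWord =
      FreeGroup.norm x + FreeGroup.norm y := by
  have h := norm_cpl x.toWord y.toWord FreeGroup.isReduced_toWord FreeGroup.isReduced_toWord
  rw [FreeGroup.mk_toWord, FreeGroup.mk_toWord] at h
  exact h

theorem free_four (x y z : FreeGroup X) :
    FreeGroup.norm (x⁻¹ * z) + FreeGroup.norm y ≤
    max (FreeGroup.norm (x⁻¹ * y) + FreeGroup.norm z)
      (FreeGroup.norm x + FreeGroup.norm (y⁻¹ * z)) := by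
  have h1 := norm_toWord x y
  have h2 := norm_toWord y z
  have h3 := norm_toWord x z
  have h4 := cpl_ultra x.toWord y.toWord z.toWord
  rcases min_le_iff.1 h4 with h5 | h5
  · exact le_max_of_le_left (by omega)
  · exact le_max_of_le_right (by omega)

end

/-- Free groups of finite rank are word-hyperbolic. -/
theorem rhyp_free (X : Type) [Finite X] : RHyp (FreeGroup X) := by
  classical
  refine ⟨{ l := FreeGroup.norm, one := FreeGroup.norm_one, mul := FreeGroup.norm_mul_le,
            inv := fun g => FreeGroup.norm_inv_eq, fin := ?_, c := 0, geo := ?_, δ := 0,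
            hyp := ?_ }⟩
  · intro n
    have h1 : {w : List (X × Bool) | w.length ≤ n}.Finite := List.finite_length_le _ n
    exact h1.preimage FreeGroup.toWord_injective.injOn
  · intro g n hn
    refine ⟨FreeGroup.mk (g.toWord.take n), ?_, ?_⟩
    · refine FreeGroup.norm_mk_le.trans ?_
      rw [List.length_take]
      omega
    · have h1 : (FreeGroup.mk (g.toWord.take n))⁻¹ * g = FreeGroup.mk (g.toWord.drop n) := by
        conv_lhs => rw [← FreeGroup.mk_toWord (x := g)]
        rw [FreeGroup.mk_toWord]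
        have h2 : g = FreeGroup.mk (g.toWord.take n) * FreeGroup.mk (g.toWord.drop n) := by
          rw [FreeGroup.mul_mk, List.take_append_drop, FreeGroup.mk_toWord]
        calc (FreeGroup.mk (g.toWord.take n))⁻¹ * g
            = (FreeGroup.mk (g.toWord.take n))⁻¹ * (FreeGroup.mk (g.toWord.take n) *
              FreeGroup.mk (g.toWord.drop n)) := by rw [← h2]
          _ = FreeGroup.mk (g.toWord.drop n) := by group
      rw [h1]
      have h3 : FreeGroup.norm (FreeGroup.mk (g.toWord.drop n)) ≤ g.toWord.length - n := by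
        refine FreeGroup.norm_mk_le.trans ?_
        rw [List.length_drop]
      have h4 : FreeGroup.norm g = g.toWord.length := rfl
      omega
  · intro x y z w
    have h := free_four (w⁻¹ * x) (w⁻¹ * y) (w⁻¹ * z)
    have e1 : (w⁻¹ * x)⁻¹ * (w⁻¹ * z) = x⁻¹ * z := by group
    have e2 : (w⁻¹ * x)⁻¹ * (w⁻¹ * y) = x⁻¹ * y := by group
    have e3 : (w⁻¹ * y)⁻¹ * (w⁻¹ * z) = y⁻¹ * z := by group
    rw [e1, e2, e3] at h
    have f1 : FreeGroup.norm (w⁻¹ * y) = FreeGroup.norm (y⁻¹ * w) := by
      rw [← FreeGroup.norm_inv_eq, mul_inv_rev, inv_inv]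
    have f2 : FreeGroup.norm (w⁻¹ * z) = FreeGroup.norm (z⁻¹ * w) := by
      rw [← FreeGroup.norm_inv_eq, mul_inv_rev, inv_inv]
    have f3 : FreeGroup.norm (w⁻¹ * x) = FreeGroup.norm (x⁻¹ * w) := by
      rw [← FreeGroup.norm_inv_eq, mul_inv_rev, inv_inv]
    rw [f1, f2, f3] at h
    rw [add_zero]
    exact h

/-- Virtual direct products of free groups are virtual direct products of hyperbolic groups. -/
theorem exists_hyp_of_free {Q : Type} [Group Q] (h : ∃ (κ : Type) (_ : Finite κ) (X : κ → Type)
    (_ : ∀ i, Finite (X i)) (Q0 : Subgroup Q),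
    Q0.FiniteIndex ∧ Nonempty (Q0 ≃* ∀ i, FreeGroup (X i))) :
    ∃ (κ : Type) (_ : Finite κ) (P : κ → Type) (_ : ∀ i, Group (P i)) (Q0 : Subgroup Q),
      (∀ i, RHyp (P i)) ∧ Q0.FiniteIndex ∧ Nonempty (Q0 ≃* ∀ i, P i) := by
  obtain ⟨κ, hκ, X, hX, Q0, h1, h2⟩ := h
  exact ⟨κ, hκ, fun i => FreeGroup (X i), fun i => inferInstance, Q0,
    fun i => rhyp_free (X i), h1, h2⟩

end Pool.Agent.HYP
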