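import Pool.Agent.SLA.VProd
/-!
# Central extensions of virtual products: the factors
-/
namespace Pool.Agent.HYP
open Subgroup Pool.Agent.SLA

/-- Commuting preimages of the factors of a virtual direct product. -/
theorem prod_factors {G : Type} [Group G] {κ : Type} [Finite κ] (P : κ → Type)
    [∀ i, Group (P i)] (hfgP : ∀ i, Group.FG (P i)) (p : G →* ∀ i, P i)
    (hp : p.range.FiniteIndex) (hZ : ∀ z, p z = 1 → ∀ g, z * g = g * z)
    (hT : {z : G | p z = 1 ∧ IsOfFinOrder z}.Finite) (hfgN : p.ker.FG)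
    (hcom : ∀ a b : G, p (a * b * a⁻¹ * b⁻¹) = 1 → IsOfFinOrder (a * b * a⁻¹ * b⁻¹)) :
    ∃ (L : Subgroup G) (D : κ → Subgroup G), L.FiniteIndex ∧ p.ker ≤ L ∧ (∀ i, D i ≤ L) ∧
      (∀ i, p.ker ≤ D i) ∧ (∀ i, ∀ g ∈ D i, ∀ j, j ≠ i → p g j = 1) ∧
      (∀ i j, i ≠ j → ∀ x ∈ D i, ∀ y ∈ D j, Commute x y) ∧
      (∀ i, ((D i).map ((Pi.evalMonoidHom P i).comp p)).FiniteIndex) ∧
      ∀ g ∈ L, ∀ i, ∃ d ∈ D i, p d i = p g i := by
  classical
  have := Fintype.ofFinite κ
  let σ : ∀ i, P i →* ∀ i, P i := fun i =>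
    MonoidHom.mulSingle P i
  have hσ1 : ∀ i (x : P i), σ i x i = x := fun i x =>
    Pi.mulSingle_eq_same (M := fun i => P i) i x
  have hσ2 : ∀ i j (x : P i), i ≠ j → σ i x j = 1 := fun i j x hij =>
    Pi.mulSingle_eq_of_ne (M := fun i => P i) (Ne.symm hij) x
  let π : ∀ i, G →* P i := fun i => (Pi.evalMonoidHom _ i).comp p
  let GG : κ → Subgroup G := fun i => (σ i).range.comap p
  have hker : ∀ i, p.ker ≤ GG i := by
    intro i z hz
    refine ⟨1, ?_⟩
    rw [map_one]
    exact (show p z = 1 from hz).symm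
  have hGGp : ∀ i, ∀ g ∈ GG i, p g = σ i (π i g) := by
    rintro i g ⟨x, hx⟩
    have h1 : π i g = x := by
      show p g i = x
      rw [← hx]
      exact hσ1 i x
    rw [h1, hx]
  -- images
  have hGm : ∀ i, ((GG i).map (π i)).FiniteIndex := by
    intro i
    have h1 : (p.range.comap (σ i)).FiniteIndex := by
      rw [finiteIndex_iff, index_comap]
      exact fun h0 => hp.index_ne_zero (eq_zero_of_zero_dvd (by
        have h2 := relIndex_eq_zero_of_le_right (le_top : (σ i).range ≤ ⊤) h0
        rw [relIndex_top_right] at h2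
        rw [h2]))
    refine finiteIndex_of_le (H := p.range.comap (σ i)) ?_
    rintro x ⟨g, hg⟩
    refine ⟨g, ⟨x, hg.symm⟩, ?_⟩
    show p g i = x
    rw [hg]
    exact hσ1 i x
  -- the groups are finitely generated
  have hfg : ∀ i, ∃ S : Finset G, closure (S : Set G) = GG i := by
    intro i
    have h1 : Group.FG (P i) := hfgP i
    have h2 : Group.FG ((GG i).map (π i)) := by
      have := hGm i
      exact fg_of_index_ne_zero _
    obtain ⟨S1, hS1⟩ := (Group.fg_iff_subgroup_fg _).1 h2
    obtain ⟨S2, hS2⟩ := hfgN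
    have h3 : ∀ x : S1, ∃ g ∈ GG i, π i g = x := by
      intro x
      have h4 : (x : P i) ∈ (GG i).map (π i) := by
        rw [← hS1]
        exact subset_closure x.2
      exact h4
    choose l hl1 hl2 using h3
    refine ⟨S2 ∪ Finset.univ.image l, ?_⟩
    have h5 : p.ker ≤ closure ((S2 ∪ Finset.univ.image l : Finset G) : Set G) := by
      rw [← hS2]
      exact closure_mono (by rw [Finset.coe_union]; exact Set.subset_union_left)
    apply le_antisymm
    · rw [closure_le, Finset.coe_union, Set.union_subset_iff]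
      constructor
      · intro x hx
        apply hker i
        rw [← hS2]
        exact subset_closure hx
      · intro x hx
        obtain ⟨q, _, rfl⟩ := Finset.mem_image.1 hx
        exact hl1 q
    · intro g hg
      have h6 : π i g ∈ (closure ((S2 ∪ Finset.univ.image l : Finset G) : Set G)).map (π i) ⊓
          (GG i).map (π i) := by
        refine ⟨?_, ⟨g, hg, rfl⟩⟩
        have h7 : π i g ∈ closure (S1 : Set (P i)) := by
          rw [hS1]
          exact ⟨g, hg, rfl⟩
        refine (closure_le _).2 ?_ h7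
        intro x hx
        refine ⟨l ⟨x, hx⟩, ?_, hl2 ⟨x, hx⟩⟩
        refine subset_closure ?_
        rw [Finset.coe_union]
        exact Or.inr (Finset.mem_coe.2 (Finset.mem_image.2 ⟨⟨x, hx⟩, Finset.mem_univ _, rfl⟩))
      obtain ⟨⟨g', hg', hgg⟩, _⟩ := h6
      have h8 : g' ∈ GG i := by
        refine (closure_le _).2 ?_ hg'
        rw [Finset.coe_union, Set.union_subset_iff]
        constructor
        · intro x hx
          apply hker i
          rw [← hS2]
          exact subset_closure hx
        · intro x hx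
          obtain ⟨q, _, rfl⟩ := Finset.mem_image.1 hx
          exact hl1 q
      have h9 : g'⁻¹ * g ∈ p.ker := by
        show p (g'⁻¹ * g) = 1
        rw [map_mul, map_inv, hGGp i g hg, hGGp i g' h8, hgg, inv_mul_cancel]
      have h10 : g = g' * (g'⁻¹ * g) := by group
      rw [h10]
      exact mul_mem hg' (h5 h9)
  -- centralizers
  have hcen : ∀ i j, i ≠ j → (centralizer (GG j : Set G)).relIndex (GG i) ≠ 0 := by
    intro i j hij
    obtain ⟨S, hS⟩ := hfg j
    have h1 : ∀ s : S, (centralizer ({(s : G)} : Set G)).relIndex (GG i) ≠ 0 := by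
      intro s
      refine vp_cent (GG i) s {z : G | p z = 1 ∧ IsOfFinOrder z} hT (fun z hz => hZ z hz.1) ?_
      intro b hb
      have h2 : (s : G) ∈ GG j := by
        rw [← hS]
        exact subset_closure s.2
      have h3 : p (b * s * b⁻¹ * (s : G)⁻¹) = 1 := by
        rw [map_mul, map_mul, map_mul, map_inv, map_inv, hGGp i b hb, hGGp j s h2]
        have h4 : Commute (σ i (π i b)) (σ j (π j s)) := Pi.mulSingle_commute hij _ _
        rw [h4.eq]
        group
      exact ⟨h3, hcom b s h3⟩
    have h2 : (⨅ s : S, centralizer ({(s : G)} : Set G)) ≤ centralizer (GG j : Set G) := by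
      intro x hx
      rw [← hS, centralizer_closure]
      rw [mem_centralizer_iff]
      intro s hs
      exact mem_centralizer_iff.1 (mem_iInf.1 hx ⟨s, hs⟩) s rfl
    exact fun h0 => relIndex_iInf_ne_zero h1 (relIndex_eq_zero_of_le_left h2 h0)
  let D : κ → Subgroup G := fun i =>
    GG i ⊓ ⨅ j : {j : κ // i ≠ j}, centralizer (GG j : Set G)
  have hDG : ∀ i, D i ≤ GG i := fun i => inf_le_left
  have hDfi : ∀ i, (D i).relIndex (GG i) ≠ 0 := by
    intro i
    refine relIndex_inf_ne_zero (by rw [relIndex_self]; exact one_ne_zero) ?_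
    exact relIndex_iInf_ne_zero (fun j => hcen i j j.2)
  have hDc : ∀ i j, i ≠ j → ∀ x ∈ D i, ∀ y ∈ D j, Commute x y := by
    intro i j hij x hx y hy
    have h1 : x ∈ centralizer (GG j : Set G) := mem_iInf.1 hx.2 ⟨j, hij⟩
    exact (mem_centralizer_iff.1 h1 y (hDG j hy)).symm
  let K : ∀ i, Subgroup (P i) := fun i => (D i).map (π i)
  have hK : ∀ i, (K i).FiniteIndex := by
    intro i
    rw [finiteIndex_iff, ← relIndex_mul_index (map_mono (f := π i) (hDG i))]
    exact mul_ne_zero (vp_map (π i) (hDfi i)) (hGm i).index_ne_zero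
  let L : Subgroup G := ⨅ i, (K i).comap (π i)
  have hL : L.FiniteIndex := by
    have h1 : ∀ i, ((K i).comap (π i)).relIndex ⊤ ≠ 0 := by
      intro i
      rw [relIndex_comap]
      exact fun h0 => (hK i).index_ne_zero (by
        have h2 := relIndex_eq_zero_of_le_right (le_top : Subgroup.map (π i) ⊤ ≤ ⊤) h0
        rwa [relIndex_top_right] at h2)
    have h2 := relIndex_iInf_ne_zero h1
    rw [relIndex_top_right] at h2
    exact ⟨h2⟩
  have hDj : ∀ i, ∀ g ∈ D i, ∀ j, j ≠ i → p g j = 1 := by
    intro i g hg j hj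
    rw [hGGp i g (hDG i hg)]
    exact hσ2 i j _ (Ne.symm hj)
  have hkL : p.ker ≤ L := by
    intro z hz
    refine mem_iInf.2 fun i => ?_
    show p z i ∈ K i
    rw [show p z = 1 from hz]
    exact one_mem _
  refine ⟨L, D, hL, hkL, ?_, ?_, hDj, hDc, hK, ?_⟩
  · intro i g hg
    refine mem_iInf.2 fun j => ?_
    show p g j ∈ K j
    by_cases hj : j = i
    · subst hj
      exact ⟨g, hg, rfl⟩
    · rw [hDj i g hg j hj]
      exact one_mem _
  · intro i z hz
    refine ⟨hker i hz, mem_iInf.2 fun j => ?_⟩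
    rw [mem_centralizer_iff]
    intro y _
    exact (hZ z hz y).symm
  · intro g hg i
    obtain ⟨d, hd, hdi⟩ := mem_iInf.1 hg i
    exact ⟨d, hd, hdi⟩

end Pool.Agent.HYP
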