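import Pool.Agent.SLA.VProd
/-!
# Extensions by virtual products: reduction to central extensions
-/
namespace Pool.Agent.HYP
open Subgroup Pool.Agent.SLA

/-- Reduction to central extensions. -/
theorem prod_reduce {G : Type} [Group G] (N : Subgroup G) [N.Normal] (A : Subgroup G)
    (hAN : A ≤ N) (hAc : ∀ a ∈ A, ∀ b ∈ A, a * b = b * a) (hAfg : A.FG)
    (htf : ∀ a ∈ A, IsOfFinOrder a → a = 1) (hfi : A.relIndex N ≠ 0)
    (hC : (centralizer (A : Set G)).FiniteIndex)
    (hcf : ∀ x y z : G, z = x * y * x⁻¹ * y⁻¹ → x * z = z * x → y * z = z * y →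
      (Set.range (fun g : G => g⁻¹ * z * g)).Finite → IsOfFinOrder z)
    {R : Type} [Group R] (Q0 : Subgroup (G ⧸ N)) [Q0.FiniteIndex] (e : Q0 ≃* R) :
    ∃ (C : Subgroup G) (p : C →* R), C.FiniteIndex ∧ p.range.FiniteIndex ∧
      (∀ z : C, p z = 1 → ∀ g : C, z * g = g * z) ∧ p.ker.FG ∧
      {z : C | p z = 1 ∧ IsOfFinOrder z}.Finite ∧
      ∀ a b : C, p (a * b * a⁻¹ * b⁻¹) = 1 → IsOfFinOrder (a * b * a⁻¹ * b⁻¹) := by
  classical
  let q : G →* G ⧸ N := QuotientGroup.mk' N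
  have hqs : Function.Surjective q := QuotientGroup.mk'_surjective N
  have hqN : ∀ g, q g = 1 ↔ g ∈ N := fun g => QuotientGroup.eq_one_iff g
  have hP : (Q0.comap q).FiniteIndex := by
    rw [finiteIndex_iff, index_comap_of_surjective _ hqs]
    exact FiniteIndex.index_ne_zero
  let C1 : Subgroup G := centralizer (A : Set G) ⊓ Q0.comap q
  have hC1 : C1.FiniteIndex := inferInstance
  have hAC1 : A ≤ C1 := by
    intro a ha
    refine ⟨mem_centralizer_iff.2 fun b hb => hAc b hb a ha, ?_⟩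
    show q a ∈ Q0
    rw [(hqN a).2 (hAN ha)]
    exact Q0.one_mem
  have hcA : ∀ g ∈ C1, ∀ a ∈ A, g * a = a * g := fun g hg a ha =>
    (mem_centralizer_iff.1 hg.1 a ha).symm
  -- work in `C1`
  let A1 : Subgroup C1 := A.subgroupOf C1
  have hA1n : A1.Normal := by
    refine ⟨fun a ha g => ?_⟩
    show (g : G) * a * (g : G)⁻¹ ∈ A
    rw [hcA g g.2 a ha, mul_inv_cancel_right]
    exact ha
  let N1 : Subgroup C1 := N.subgroupOf C1
  have hN1n : N1.Normal := inferInstance
  have hA1N1 : A1 ≤ N1 := fun a ha => hAN ha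
  have hA1fi : A1.relIndex N1 ≠ 0 := relIndex_comap_ne_zero C1.subtype hfi
  let r : C1 →* C1 ⧸ A1 := QuotientGroup.mk' A1
  have hrs : Function.Surjective r := QuotientGroup.mk'_surjective A1
  let Nb : Subgroup (C1 ⧸ A1) := N1.map r
  have hNbn : Nb.Normal := hN1n.map r hrs
  have hNbf : Finite Nb := by
    have h1 : (r.ker).relIndex N1 = Nat.card (N1.map r) := relIndex_ker N1 r
    rw [show r.ker = A1 from QuotientGroup.ker_mk' A1] at h1
    exact (Nat.card_ne_zero.1 (h1 ▸ hA1fi)).2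
  let C2' : Subgroup C1 := (centralizer (Nb : Set (C1 ⧸ A1))).comap r
  have hC2' : C2'.FiniteIndex := by
    have h1 := vp_fin Nb
    rw [finiteIndex_iff, index_comap_of_surjective _ hrs]
    exact h1.index_ne_zero
  let C2 : Subgroup G := C2'.map C1.subtype
  have hC2 : C2.FiniteIndex := by
    rw [finiteIndex_iff]
    show (C2'.map C1.subtype).index ≠ 0
    rw [index_map_subtype]
    exact mul_ne_zero hC2'.index_ne_zero hC1.index_ne_zero
  have hC21 : C2 ≤ C1 := map_subtype_le C2'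
  have hC2c : ∀ g ∈ C2, ∀ n ∈ C1, n ∈ N → g * n * g⁻¹ * n⁻¹ ∈ A := by
    rintro _ ⟨g, hg, rfl⟩ n hn hnN
    have h1 : r ⟨n, hn⟩ ∈ Nb := ⟨⟨n, hn⟩, hnN, rfl⟩
    have h2 : r ⟨n, hn⟩ * r g = r g * r ⟨n, hn⟩ := mem_centralizer_iff.1 hg _ h1
    have h3 : r (g * ⟨n, hn⟩ * g⁻¹ * (⟨n, hn⟩ : C1)⁻¹) = 1 := by
      rw [map_mul, map_mul, map_mul, map_inv, map_inv, ← h2]
      group
    have h4 : g * ⟨n, hn⟩ * g⁻¹ * (⟨n, hn⟩ : C1)⁻¹ ∈ A1 := (QuotientGroup.eq_one_iff _).1 h3
    exact h4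
  -- `C2` centralises `N ∩ C1`
  have hcent : ∀ g ∈ C2, ∀ n ∈ C1, n ∈ N → g * n = n * g := by
    intro g hg n hn hnN
    have hc := hC2c g hg n hn hnN
    set c := g * n * g⁻¹ * n⁻¹ with hcdef
    have h1 : g * n * g⁻¹ = c * n := by rw [hcdef]; group
    have h2 : ∀ k : ℕ, g * n ^ k * g⁻¹ = c ^ k * n ^ k := by
      intro k
      have h3 : (g * n * g⁻¹) ^ k = g * n ^ k * g⁻¹ := by
        rw [conj_pow]
      rw [← h3, h1]
      have h4 : Commute c n := (hcA n hn c hc).symm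
      exact h4.mul_pow k
    have h5 : ∃ k : ℕ, 0 < k ∧ n ^ k ∈ A := by
      have h6 : Finite (N1 ⧸ A1.subgroupOf N1) := by
        have : (A1.subgroupOf N1).FiniteIndex := ⟨hA1fi⟩
        infer_instance
      have h7 : (A1.subgroupOf N1).Normal := inferInstance
      obtain ⟨k, hk, hk1⟩ := isOfFinOrder_iff_pow_eq_one.1
        (isOfFinOrder_of_finite (((⟨⟨n, hn⟩, hnN⟩ : N1) : N1 ⧸ A1.subgroupOf N1)))
      refine ⟨k, hk, ?_⟩
      rw [← QuotientGroup.mk_pow, QuotientGroup.eq_one_iff] at hk1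
      exact hk1
    obtain ⟨k, hk, hkA⟩ := h5
    have h8 : c ^ k = 1 := by
      have h9 := h2 k
      rw [hcA g (hC21 hg) _ hkA, mul_inv_cancel_right] at h9
      exact (mul_eq_right.1 h9.symm)
    have h10 : c = 1 := htf c hc (isOfFinOrder_iff_pow_eq_one.2 ⟨k, hk, h8⟩)
    rw [h10, one_mul] at h1
    exact mul_inv_eq_iff_eq_mul.1 h1
  have hAC2 : A ≤ C2 := by
    intro a ha
    refine ⟨⟨a, hAC1 ha⟩, ?_, rfl⟩
    show r ⟨a, hAC1 ha⟩ ∈ centralizer (Nb : Set (C1 ⧸ A1))
    rw [show r ⟨a, hAC1 ha⟩ = 1 from (QuotientGroup.eq_one_iff _).2 ha]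
    exact one_mem _
  -- the homomorphism
  have hQ : ∀ g : C2, q g ∈ Q0 := fun g => (hC21 g.2).2
  let p0 : C2 →* Q0 := (q.comp C2.subtype).codRestrict Q0 hQ
  let p : C2 →* R := e.toMonoidHom.comp p0
  have hpk : ∀ g : C2, p g = 1 ↔ (g : G) ∈ N := by
    intro g
    rw [← hqN]
    constructor
    · intro h
      have h1 : p0 g = 1 := (map_eq_one_iff e e.injective).1 h
      exact congrArg Subtype.val h1
    · intro h
      have h1 : p0 g = 1 := Subtype.ext h
      show e (p0 g) = 1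
      rw [h1, map_one]
  have hprange : p.range.FiniteIndex := by
    have h1 : (C2.map q).index ≠ 0 := by
      intro h0
      have h1 := index_map_dvd C2 hqs
      rw [h0, zero_dvd_iff] at h1
      exact hC2.index_ne_zero h1
    have h2 : p.range = ((C2.map q).subgroupOf Q0).map e.toMonoidHom := by
      ext x
      constructor
      · rintro ⟨g, rfl⟩
        exact ⟨p0 g, ⟨g, g.2, rfl⟩, rfl⟩
      · rintro ⟨y, ⟨g, hg, hgy⟩, rfl⟩
        refine ⟨⟨g, hg⟩, ?_⟩
        show e (p0 ⟨g, hg⟩) = e y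
        congr 1
        exact Subtype.ext hgy
    rw [finiteIndex_iff, h2]
    have h3 : ((C2.map q).subgroupOf Q0).index ≠ 0 := by
      intro h0
      have h4 := relIndex_eq_zero_of_le_right (le_top : Q0 ≤ ⊤) h0
      rw [relIndex_top_right] at h4
      exact h1 h4
    intro h0
    have h4 := index_map_dvd ((C2.map q).subgroupOf Q0) (f := e.toMonoidHom) e.surjective
    rw [show (Subgroup.map e.toMonoidHom ((C2.map q).subgroupOf Q0)).index = 0 from h0,
      zero_dvd_iff] at h4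
    exact h3 h4
  have hZ : ∀ z : C2, p z = 1 → ∀ g : C2, z * g = g * z := by
    intro z hz g
    exact Subtype.ext (hcent g g.2 z (hC21 z.2) ((hpk z).1 hz)).symm
  let A2 : Subgroup C2 := A.subgroupOf C2
  have hA2 : A2 ≤ p.ker := fun a ha => (hpk a).2 (hAN ha)
  have hpker : p.ker = N.subgroupOf C2 := by
    ext g
    exact hpk g
  have hA2fi : A2.relIndex p.ker ≠ 0 := by
    rw [hpker]
    exact relIndex_comap_ne_zero C2.subtype hfi
  have hA2fi' : (A2.subgroupOf p.ker).FiniteIndex := ⟨hA2fi⟩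
  have hfinq : Finite (p.ker ⧸ A2.subgroupOf p.ker) := inferInstance
  have hA2fg : A2.FG := by
    have h1 : Group.FG A := (Group.fg_iff_subgroup_fg A).2 hAfg
    have h2 : Group.FG A2 := Group.fg_of_surjective
      (f := (subgroupOfEquivOfLe hAC2).symm.toMonoidHom) (subgroupOfEquivOfLe hAC2).symm.surjective
    exact (Group.fg_iff_subgroup_fg A2).1 h2
  have hkfg : p.ker.FG := by
    have := Fintype.ofFinite (p.ker ⧸ A2.subgroupOf p.ker)
    obtain ⟨T, hT⟩ := hA2fg
    refine ⟨T ∪ Finset.univ.image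
      (fun c : p.ker ⧸ A2.subgroupOf p.ker => ((c.out : p.ker) : C2)), ?_⟩
    apply le_antisymm
    · rw [closure_le, Finset.coe_union, Set.union_subset_iff]
      constructor
      · intro x hx
        apply hA2
        rw [← hT]
        exact subset_closure hx
      · intro x hx
        obtain ⟨c, _, rfl⟩ := Finset.mem_image.1 hx
        exact (c.out : p.ker).2
    · intro x hx
      set c : p.ker ⧸ A2.subgroupOf p.ker := QuotientGroup.mk (⟨x, hx⟩ : p.ker) with hc
      have h3 : (c.out)⁻¹ * (⟨x, hx⟩ : p.ker) ∈ A2.subgroupOf p.ker := by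
        rw [← QuotientGroup.eq, QuotientGroup.out_eq']
      have h4 : ((c.out : p.ker) : C2)⁻¹ * x ∈ A2 := h3
      have h5 : x = ((c.out : p.ker) : C2) * (((c.out : p.ker) : C2)⁻¹ * x) := by group
      rw [h5]
      refine mul_mem (subset_closure ?_) ?_
      · rw [Finset.coe_union]
        exact Or.inr (Finset.mem_coe.2 (Finset.mem_image.2 ⟨c, Finset.mem_univ _, rfl⟩))
      · refine (closure_mono ?_ : closure (T : Set C2) ≤ _) (hT.ge h4)
        rw [Finset.coe_union]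
        exact Set.subset_union_left
  have hTf : {z : C2 | p z = 1 ∧ IsOfFinOrder z}.Finite := by
    refine Set.Finite.of_injOn (f := fun z : C2 =>
      if h : z ∈ p.ker then ((⟨z, h⟩ : p.ker) : p.ker ⧸ A2.subgroupOf p.ker) else
        ((1 : p.ker) : p.ker ⧸ A2.subgroupOf p.ker)) (t := Set.univ) ?_ ?_ Set.finite_univ
    · intro x _
      exact Set.mem_univ _
    · rintro x ⟨hx1, hx2⟩ y ⟨hy1, hy2⟩ hxy
      have hx : x ∈ p.ker := hx1
      have hy : y ∈ p.ker := hy1
      simp only [dif_pos hx, dif_pos hy] at hxy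
      have h0 : (⟨x, hx⟩ : p.ker)⁻¹ * ⟨y, hy⟩ ∈ A2.subgroupOf p.ker := QuotientGroup.eq.1 hxy
      have h1 : x⁻¹ * y ∈ A2 := h0
      have h2 : IsOfFinOrder (x⁻¹ * y) := by
        refine Commute.isOfFinOrder_mul ?_ hx2.inv hy2
        exact ((show Commute x y from hZ x hx1 y)).inv_left
      have h3 : ((x⁻¹ * y : C2) : G) = 1 := by
        refine htf _ h1 ?_
        exact (Submonoid.isOfFinOrder_coe (H := C2.toSubmonoid)).2 h2
      have h4 : x⁻¹ * y = 1 := Subtype.ext h3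
      exact inv_mul_eq_one.1 h4
  have hcom : ∀ a b : C2, p (a * b * a⁻¹ * b⁻¹) = 1 → IsOfFinOrder (a * b * a⁻¹ * b⁻¹) := by
    intro a b hab
    have h1 := hZ _ hab
    have h2 : IsOfFinOrder ((a * b * a⁻¹ * b⁻¹ : C2) : G) := by
      refine hcf a b _ rfl ?_ ?_ ?_
      · exact congrArg Subtype.val (h1 a).symm
      · exact congrArg Subtype.val (h1 b).symm
      · refine vp_conj C2 _ ?_
        intro c hc
        exact congrArg Subtype.val (h1 ⟨c, hc⟩).symm
    exact (Submonoid.isOfFinOrder_coe (H := C2.toSubmonoid)).1 h2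
  exact ⟨C2, p, hC2, hprange, hZ, hkfg, hTf, hcom⟩

end Pool.Agent.HYP
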