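import Pool.Agent.HYP.Defs
/-!
# Hyperbolicity passes to groups with a map of finite kernel and range of finite index
-/
namespace Pool.Agent.HYP
open Pool.Agent.SLX

private theorem fiber_finite {P Q : Type} [Group P] [Group Q] (f : P →* Q)
    (hk : (f.ker : Set P).Finite) (b : Q) : (f ⁻¹' {b}).Finite := by
  rcases (f ⁻¹' {b}).eq_empty_or_nonempty with h | ⟨g0, h0⟩
  · rw [h]
    exact Set.finite_empty
  · refine (hk.image fun x => g0 * x).subset ?_
    intro g hg
    have h1 : f g0 = b := h0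
    have h2 : f g = b := hg
    refine ⟨g0⁻¹ * g, ?_, by simp⟩
    show f (g0⁻¹ * g) = 1
    rw [map_mul, map_inv, h1, h2, inv_mul_cancel]

theorem rhyp_pull {P Q : Type} [Group P] [Group Q] (f : P →* Q) (hk : (f.ker : Set P).Finite)
    (hr : f.range.FiniteIndex) (h : RHyp Q) : RHyp P := by
  obtain ⟨L⟩ := h
  have : Finite (Q ⧸ f.range) := Subgroup.finite_quotient_of_finiteIndex
  obtain ⟨M, hM⟩ : ∃ M : ℕ, ∀ q : Q ⧸ f.range, L.l q.out ≤ M := by
    obtain ⟨M, hM⟩ := (Set.finite_range fun q : Q ⧸ f.range => L.l q.out).bddAbove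
    exact ⟨M, fun q => hM ⟨q, rfl⟩⟩
  have key : ∀ x : Q, ∃ (y : P) (s : Q), L.l s ≤ M ∧ f y = x * s := by
    intro x
    have h1 : (QuotientGroup.mk (QuotientGroup.mk x⁻¹ : Q ⧸ f.range).out : Q ⧸ f.range) =
        QuotientGroup.mk x⁻¹ := QuotientGroup.out_eq' _
    have h2 := QuotientGroup.eq.1 h1
    have h3 : x * (QuotientGroup.mk x⁻¹ : Q ⧸ f.range).out ∈ f.range := by
      have h4 := f.range.inv_mem h2
      rwa [mul_inv_rev, inv_inv, inv_inv] at h4
    obtain ⟨y, hy⟩ := h3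
    exact ⟨y, _, hM _, hy⟩
  refine ⟨{
    l := fun g => L.l (f g)
    one := by rw [map_one]; exact L.one
    mul := fun g h => by rw [map_mul]; exact L.mul _ _
    inv := fun g => by rw [map_inv]; exact L.inv _
    fin := fun n => (L.fin n).preimage' fun b _ => fiber_finite f hk b
    c := L.c + M
    geo := ?_
    δ := L.δ
    hyp := fun x y z w => by
      simp only [map_mul, map_inv]
      exact L.hyp _ _ _ _ }⟩
  intro g n hn
  obtain ⟨x, hx1, hx2⟩ := L.geo (f g) n hn
  obtain ⟨y, s, hs, hy⟩ := key x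
  refine ⟨y, ?_, ?_⟩
  · rw [hy]
    have := L.mul x s
    omega
  · have h1 : f (y⁻¹ * g) = s⁻¹ * (x⁻¹ * f g) := by
      rw [map_mul, map_inv, hy, mul_inv_rev, mul_assoc]
    rw [h1]
    have h2 := L.mul s⁻¹ (x⁻¹ * f g)
    have h3 := L.inv s
    omega

end Pool.Agent.HYP
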