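import Pool.Agent.HYP.Defs
import Pool.Agent.VH.FC
/-!
# Free abelian subgroups with centraliser of finite index are undistorted
-/
namespace Pool.Agent.HYP
open Pool.Agent.SLX

section und
variable {G : Type} [Group G] (l : G → ℕ) (h1 : l 1 = 0) (h2 : ∀ g h, l (g * h) ≤ l g + l h)
include h1 h2

private theorem l_pow (g : G) (n : ℕ) : l (g ^ n) ≤ n * l g := by
  induction n with
  | zero => simp [h1]
  | succ n ih =>
    rw [pow_succ, Nat.succ_mul]
    exact (h2 _ _).trans (Nat.add_le_add_right ih _)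

variable {m : ℕ} (φ : (Fin m → ℤ) → G) (hadd : ∀ k k', φ (k + k') = φ k * φ k')
include hadd

omit h1 h2 in
private theorem phi_zero : φ 0 = 1 := by
  have h : φ 0 = φ 0 * φ 0 := by rw [← hadd, add_zero]
  exact mul_eq_left.1 h.symm

omit h1 h2 in
private theorem phi_nsmul (n : ℕ) (k : Fin m → ℤ) : φ (n • k) = φ k ^ n := by
  induction n with
  | zero => rw [zero_nsmul, pow_zero, phi_zero φ hadd]
  | succ n ih => rw [succ_nsmul, pow_succ, hadd, ih]

private theorem l_single (c0 : ℕ) (hc : ∀ i, l (φ (Pi.single i 1)) ≤ c0 ∧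
    l (φ (Pi.single i (-1))) ≤ c0) (i : Fin m) (v : ℤ) :
    l (φ (Pi.single i v)) ≤ v.natAbs * c0 := by
  obtain ⟨n, rfl | rfl⟩ := v.eq_nat_or_neg
  · have h : (Pi.single i (n : ℤ) : Fin m → ℤ) = n • Pi.single i 1 := by
      rw [← Pi.single_smul]; simp
    rw [h, phi_nsmul φ hadd, Int.natAbs_natCast]
    exact (l_pow l h1 h2 _ _).trans (Nat.mul_le_mul_left _ (hc i).1)
  · have h : (Pi.single i (-(n : ℤ)) : Fin m → ℤ) = n • Pi.single i (-1) := by
      rw [← Pi.single_smul]; simp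
    rw [h, phi_nsmul φ hadd, Int.natAbs_neg, Int.natAbs_natCast]
    exact (l_pow l h1 h2 _ _).trans (Nat.mul_le_mul_left _ (hc i).2)

private theorem l_vec (c0 : ℕ) (hc : ∀ i, l (φ (Pi.single i 1)) ≤ c0 ∧
    l (φ (Pi.single i (-1))) ≤ c0) (v : Fin m → ℤ) :
    l (φ v) ≤ (∑ i, (v i).natAbs) * c0 := by
  have key : ∀ F : Finset (Fin m), l (φ (∑ i ∈ F, Pi.single i (v i))) ≤
      (∑ i ∈ F, (v i).natAbs) * c0 := by
    intro F
    induction F using Finset.induction_on with
    | empty => simp [phi_zero φ hadd, h1]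
    | insert i F hi ih =>
      rw [Finset.sum_insert hi, Finset.sum_insert hi, hadd, Nat.add_mul]
      exact (h2 _ _).trans (Nat.add_le_add (l_single l h1 h2 φ hadd c0 hc i (v i)) ih)
  have h := key Finset.univ
  rwa [Finset.univ_sum_single] at h

end und

/-- Free abelian subgroups with centraliser of finite index are undistorted. -/
theorem fcl_undist {G : Type} [Group G] (h : VH.FCl G) {m : ℕ} (φ : (Fin m → ℤ) → G)
    (hadd : ∀ k k', φ (k + k') = φ k * φ k') (hinj : Function.Injective φ) (C : Subgroup G)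
    [C.FiniteIndex] (hC : ∀ k, ∀ g ∈ C, g * φ k = φ k * g) {A : Type} [Finite A] (π : A → G) :
    ∃ K : ℕ, ∀ (w : List A) (k : Fin m → ℤ), val π w = φ k → ∀ i, |k i| ≤ K * w.length := by
  classical
  obtain ⟨l, κ, h1, h2, h3, h4⟩ := h
  -- elements of small translation number
  have hZ : ∀ T : ℕ, {k : Fin m → ℤ | ∃ c : ℕ, ∀ n : ℕ, l (φ k ^ n) ≤ T * n + c}.Finite := by
    intro T
    obtain ⟨S, hS, hS'⟩ := h4 T
    have hfin : Finite (G ⧸ C) := inferInstance
    set R : Set G := Set.range (fun q : G ⧸ C => q.out) with hR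
    have hRf : R.Finite := Set.finite_range _
    have hf : (((fun p : G × G => p.1⁻¹ * p.2 * p.1) '' (R ×ˢ S))).Finite :=
      (hRf.prod hS).image _
    refine (Set.Finite.preimage hinj.injOn hf).subset ?_
    rintro k hk
    obtain ⟨x, hx⟩ := hS' (φ k) hk
    set r : G := (QuotientGroup.mk x⁻¹ : G ⧸ C).out with hr
    have h5 : r⁻¹ * x⁻¹ ∈ C := by
      rw [← QuotientGroup.eq, hr, QuotientGroup.out_eq']
    refine ⟨(r, x⁻¹ * φ k * x), ⟨⟨_, rfl⟩, hx⟩, ?_⟩
    show r⁻¹ * (x⁻¹ * φ k * x) * r = φ k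
    have h6 : r⁻¹ * (x⁻¹ * φ k * x) * r = (r⁻¹ * x⁻¹) * φ k * (r⁻¹ * x⁻¹)⁻¹ := by group
    rw [h6, hC k _ h5, mul_inv_cancel_right]
  -- bound on the basis vectors
  obtain ⟨c0, hc0⟩ : ∃ c0 : ℕ, ∀ i, l (φ (Pi.single i 1)) ≤ c0 ∧
      l (φ (Pi.single i (-1))) ≤ c0 := by
    refine ⟨∑ i : Fin m, (l (φ (Pi.single i 1)) + l (φ (Pi.single i (-1)))), fun i => ?_⟩
    have h := Finset.single_le_sum (f := fun i : Fin m => l (φ (Pi.single i 1)) +
      l (φ (Pi.single i (-1)))) (fun _ _ => Nat.zero_le _) (Finset.mem_univ i)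
    omega
  obtain ⟨M, hM⟩ : ∃ M : ℕ, ∀ q : Fin m → ℤ,
      (∃ c : ℕ, ∀ n : ℕ, l (φ q ^ n) ≤ (1 + m * c0) * n + c) → ∀ i, |q i| ≤ M := by
    have hb := (hZ (1 + m * c0)).image (fun q => ∑ i, (q i).natAbs)
    obtain ⟨M, hM⟩ := hb.bddAbove
    refine ⟨M, fun q hq i => ?_⟩
    have h5 : ∑ i, (q i).natAbs ≤ M := hM ⟨q, hq, rfl⟩
    have h6 := Finset.single_le_sum (f := fun i => (q i).natAbs) (fun _ _ => Nat.zero_le _)
      (Finset.mem_univ i)
    rw [Int.abs_eq_natAbs]
    exact_mod_cast h6.trans h5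
  -- the main estimate
  have key : ∀ (t : ℕ) (k : Fin m → ℤ) (c : ℕ), 1 ≤ t → (∀ n : ℕ, l (φ k ^ n) ≤ t * n + c) →
      ∀ i, |k i| ≤ (M + 1 : ℤ) * t := by
    intro t k c ht hk i
    have htz : (0 : ℤ) < t := by exact_mod_cast ht
    set q : Fin m → ℤ := fun i => k i / t with hq
    set s : Fin m → ℤ := fun i => -(k i % t) with hs
    have hks : t • q = k + s := by
      funext j
      have h5 := Int.mul_ediv_add_emod (k j) t
      simp only [hq, hs, Pi.smul_apply, Pi.add_apply, nsmul_eq_mul]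
      linarith
    have hsl : l (φ s) ≤ m * t * c0 := by
      refine (l_vec l h1 h2 φ hadd c0 hc0 s).trans (Nat.mul_le_mul_right _ ?_)
      calc ∑ j, (s j).natAbs ≤ ∑ _j : Fin m, t := by
            refine Finset.sum_le_sum fun j _ => ?_
            have h5 := Int.emod_nonneg (k j) htz.ne'
            have h6 := Int.emod_lt_of_pos (k j) htz
            simp only [hs]
            omega
        _ = m * t := by simp
    have hqt : ∀ a : ℕ, l (φ q ^ (t * a)) ≤ (1 + m * c0) * (t * a) + c := by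
      intro a
      have h5 : φ q ^ (t * a) = φ k ^ a * φ s ^ a := by
        rw [pow_mul, ← phi_nsmul φ hadd t q, hks, ← phi_nsmul φ hadd, ← phi_nsmul φ hadd,
          ← phi_nsmul φ hadd, ← hadd, nsmul_add]
      rw [h5]
      have h6 := h2 (φ k ^ a) (φ s ^ a)
      have h7 := hk a
      have h8 := (l_pow l h1 h2 (φ s) a).trans (Nat.mul_le_mul_left a hsl)
      have h9 : (1 + m * c0) * (t * a) + c = (t * a + c) + a * (m * t * c0) := by ring
      omega
    have hqn : ∀ n : ℕ, l (φ q ^ n) ≤ (1 + m * c0) * n + (c + t * l (φ q)) := by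
      intro n
      have h5 := Nat.div_add_mod n t
      have h6 : n % t < t := Nat.mod_lt _ ht
      have h7 : φ q ^ n = φ q ^ (t * (n / t)) * φ q ^ (n % t) := by
        rw [← pow_add, h5]
      have h8 := h2 (φ q ^ (t * (n / t))) (φ q ^ (n % t))
      have h9 := hqt (n / t)
      have h10 := (l_pow l h1 h2 (φ q) (n % t)).trans (Nat.mul_le_mul_right (l (φ q)) h6.le)
      have h11 : (1 + m * c0) * (t * (n / t)) ≤ (1 + m * c0) * n :=
        Nat.mul_le_mul_left _ (by omega)
      rw [h7]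
      omega
    have h5 := hM q ⟨_, hqn⟩ i
    have h6 := Int.mul_ediv_add_emod (k i) t
    have h7 := Int.emod_nonneg (k i) htz.ne'
    have h8 := Int.emod_lt_of_pos (k i) htz
    have h9 : k i = t * q i + k i % t := h6.symm
    have h10 := abs_le.1 h5
    rw [abs_le]
    constructor
    · nlinarith [h10.1, h10.2]
    · nlinarith [h10.1, h10.2]
  -- the lengths of the letters
  obtain ⟨Λ, hΛ⟩ : ∃ Λ : ℕ, ∀ a, l (π a) ≤ Λ := by
    obtain ⟨Λ, hΛ⟩ := (Set.finite_range (fun a => l (π a))).bddAbove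
    exact ⟨Λ, fun a => hΛ ⟨a, rfl⟩⟩
  have hw : ∀ w : List A, l (val π w) ≤ w.length * Λ := by
    intro w
    induction w with
    | nil => simp [val, h1]
    | cons a w ih =>
      have h5 : val π (a :: w) = π a * val π w := by simp [val]
      rw [h5, List.length_cons, Nat.add_mul, one_mul]
      have h6 := h2 (π a) (val π w)
      have h7 := hΛ a
      omega
  refine ⟨(M + 1) * (Λ + 1), fun w k hwk i => ?_⟩
  rcases Nat.eq_zero_or_pos w.length with h0 | h0
  · have h5 : w = [] := List.length_eq_zero_iff.1 h0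
    subst h5
    have h6 : φ k = φ 0 := by rw [← hwk, phi_zero φ hadd]; simp [val]
    rw [hinj h6]
    simp
  · have h5 : 1 ≤ w.length * (Λ + 1) := Nat.mul_pos h0 (Nat.succ_pos _)
    have h6 := key (w.length * (Λ + 1)) k 0 h5 (fun n => by
      have h7 := l_pow l h1 h2 (φ k) n
      have h8 := hw w
      rw [hwk] at h8
      calc l (φ k ^ n) ≤ n * l (φ k) := h7
        _ ≤ n * (w.length * Λ) := Nat.mul_le_mul_left _ h8
        _ ≤ n * (w.length * (Λ + 1)) := Nat.mul_le_mul_left _ (Nat.mul_le_mul_left _ (by omega))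
        _ = w.length * (Λ + 1) * n + 0 := by ring) i
    have h7 : ((M : ℤ) + 1) * ((w.length * (Λ + 1) : ℕ) : ℤ) =
        (((M + 1) * (Λ + 1) : ℕ) : ℤ) * w.length := by push_cast; ring
    rw [← h7]
    exact h6

end Pool.Agent.HYP
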