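import Pool.Agent.HYP.Pad
import Pool.Agent.HYP.PCen
import Pool.Agent.HYP.PRed
import Pool.Agent.HYP.Pull
import Pool.Agent.HYP.Und
import Pool.Agent.HYP.CeRSec
import Pool.Agent.SLA.Pi
import Pool.Agent.SLA.FinIndex
import Pool.Agent.VH.FC4
/-!
# Groups with a quotient which is virtually a direct product of hyperbolic groups
-/
namespace Pool.Agent.HYP
open Subgroup Pool.Agent.SLX Pool.Agent.SLA Pool.Agent.VH

/-- Hyperbolic groups are finitely generated. -/
theorem rhyp_fg {P : Type} [Group P] (h : RHyp P) : Group.FG P := by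
  obtain ⟨L⟩ := h
  have hfin := L.fin (2 * L.c + 1)
  refine ⟨⟨hfin.toFinset, ?_⟩⟩
  rw [Set.Finite.coe_toFinset, eq_top_iff]
  rintro g -
  have key : ∀ (n : ℕ) (g : P), L.l g ≤ n → g ∈ closure {g | L.l g ≤ 2 * L.c + 1} := by
    intro n
    induction n with
    | zero =>
      intro g hg
      exact subset_closure (by show L.l g ≤ _; omega)
    | succ n ih =>
      intro g hg
      by_cases h1 : L.l g ≤ 2 * L.c + 1
      · exact subset_closure h1
      · push Not at h1
        obtain ⟨h, h2, h3⟩ := L.geo g (L.l g - L.c - 1) (by omega)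
        have h4 : g = h * (h⁻¹ * g) := by group
        rw [h4]
        exact mul_mem (ih h (by omega)) (subset_closure (by show L.l (h⁻¹ * g) ≤ _; omega))
  exact key _ g le_rfl

/-- Letters whose images generate the quotient. -/
theorem exists_letters {E P : Type} [Group E] [Group P] (f : E →* P)
    (hf : Function.Surjective f) (hfg : Group.FG P) : ∃ (A : Type) (_ : Finite A) (π : A → E),
      (∀ a, ∃ b, π b = (π a)⁻¹) ∧ Gen (fun a => f (π a)) := by
  classical
  obtain ⟨S, hS⟩ := Group.fg_def.1 hfg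
  choose l hl using hf
  set π : S × Bool → E := fun a => if a.2 then l a.1 else (l a.1)⁻¹ with hπ
  have hsym : ∀ a, ∃ b, π b = (π a)⁻¹ := by
    rintro ⟨s, b⟩
    refine ⟨(s, !b), ?_⟩
    cases b
    · simp [hπ]
    · simp [hπ]
  have hinv : ∀ w : List (S × Bool), ∃ w', val (fun a => f (π a)) w' =
      (val (fun a => f (π a)) w)⁻¹ := by
    intro w
    induction w with
    | nil => exact ⟨[], by simp [val]⟩
    | cons a w ih =>
      obtain ⟨w', hw'⟩ := ih
      obtain ⟨b, hb⟩ := hsym a
      refine ⟨w' ++ [b], ?_⟩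
      have e0 : val (fun a => f (π a)) (a :: w) = f (π a) * val (fun a => f (π a)) w := by
        simp [val]
      have e1 : val (fun a => f (π a)) [b] = f (π b) := by simp [val]
      rw [SLA.val_append, hw', e0, e1, hb, map_inv, mul_inv_rev]
  refine ⟨S × Bool, inferInstance, π, hsym, ⟨fun g => ?_, fun a => ?_⟩⟩
  · have hg : g ∈ closure (S : Set P) := by rw [hS]; exact mem_top g
    induction hg using closure_induction with
    | mem x hx =>
      refine ⟨[(⟨x, hx⟩, true)], ?_⟩
      have e1 : val (fun a => f (π a)) [((⟨x, hx⟩ : S), true)] = f (π (⟨x, hx⟩, true)) := by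
        simp [val]
      rw [e1]
      show f (l x) = x
      exact hl x
    | one => exact ⟨[], rfl⟩
    | mul x y _ _ hx hy =>
      obtain ⟨u, hu⟩ := hx
      obtain ⟨v, hv⟩ := hy
      exact ⟨u ++ v, by rw [SLA.val_append, hu, hv]⟩
    | inv x _ hx =>
      obtain ⟨u, hu⟩ := hx
      obtain ⟨v, hv⟩ := hinv u
      exact ⟨v, by rw [hv, hu]⟩
  · obtain ⟨b, hb⟩ := hsym a
    exact ⟨b, by show f (π b) = (f (π a))⁻¹; rw [hb, map_inv]⟩

/-- One factor. -/
theorem factor_rsec {G P : Type} [Group G] [Group P] (h : FCl G) (hP : RHyp P)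
    (D : Subgroup G) (f : D →* P) (hf : f.range.FiniteIndex) {m : ℕ}
    (ι : (Fin m → Multiplicative ℤ) →* G) (hι : Function.Injective ι)
    (hc : ∀ k g, ι k * g = g * ι k) (hιD : ∀ k, ι k ∈ D) (hfι : ∀ k, f ⟨ι k, hιD k⟩ = 1)
    (F : Set G) (hF : F.Finite) (hker : ∀ d : D, f d = 1 → ∃ x ∈ F, ∃ k, (d : G) = ι k * x) :
    ∃ (B : Type) (_ : Finite B) (π : B → D) (L : Language B), RSec π f L := by
  classical
  let ιD : (Fin m → Multiplicative ℤ) →* D := ι.codRestrict D hιD
  have hZn : ιD.range.Normal := by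
    refine ⟨?_⟩
    rintro _ ⟨k, rfl⟩ g
    refine ⟨k, ?_⟩
    apply Subtype.ext
    show ι k = (g : G) * ι k * (g : G)⁻¹
    rw [← hc, mul_inv_cancel_right]
  let g : D ⧸ ιD.range →* P := QuotientGroup.lift ιD.range f (by
    rintro _ ⟨k, rfl⟩
    exact hfι k)
  have hgf : g.comp (QuotientGroup.mk' ιD.range) = f := by
    ext d
    rfl
  have hgk : (g.ker : Set (D ⧸ ιD.range)).Finite := by
    have h1 : {d : D | (d : G) ∈ F}.Finite := hF.preimage Subtype.coe_injective.injOn
    refine (h1.image (QuotientGroup.mk' ιD.range)).subset ?_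
    intro q hq
    obtain ⟨d, rfl⟩ := QuotientGroup.mk'_surjective ιD.range q
    have h2 : f d = 1 := hq
    obtain ⟨x, hx, k, hk⟩ := hker d h2
    refine ⟨(ιD k)⁻¹ * d, ?_, ?_⟩
    · show (ι k)⁻¹ * (d : G) ∈ F
      rw [hk, inv_mul_cancel_left]
      exact hx
    · rw [map_mul, map_inv, show QuotientGroup.mk' ιD.range (ιD k) = 1 from
        (QuotientGroup.eq_one_iff _).2 ⟨k, rfl⟩, inv_one, one_mul]
  have hgr : g.range.FiniteIndex := by
    refine finiteIndex_of_le (H := f.range) ?_
    rintro _ ⟨d, rfl⟩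
    exact ⟨QuotientGroup.mk' ιD.range d, rfl⟩
  have hQ : RHyp (D ⧸ ιD.range) := rhyp_pull g hgk hgr hP
  obtain ⟨A, hA, π, hsym, hgen⟩ := exists_letters (QuotientGroup.mk' ιD.range)
    (QuotientGroup.mk'_surjective _) (rhyp_fg hQ)
  let φ : (Fin m → ℤ) → D := fun k => ιD (fun i => Multiplicative.ofAdd (k i))
  have hadd : ∀ k k', φ (k + k') = φ k * φ k' := by
    intro k k'
    show ιD _ = ιD _ * ιD _
    rw [← map_mul]
    rfl
  have hinj : Function.Injective φ := by
    intro k k' hk
    have h1 : (fun i => Multiplicative.ofAdd (k i)) = fun i => Multiplicative.ofAdd (k' i) :=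
      hι (congrArg Subtype.val hk)
    funext i
    exact Multiplicative.ofAdd.injective (congrFun h1 i)
  have hCE : CE m π (QuotientGroup.mk' ιD.range) φ := by
    refine ⟨hadd, hinj, ?_, ?_, hgen, hsym, ?_⟩
    · intro k e
      exact Subtype.ext (hc _ _)
    · intro e
      constructor
      · intro he
        obtain ⟨k, hk⟩ := (QuotientGroup.eq_one_iff _).1 he
        exact ⟨fun i => (k i).toAdd, hk⟩
      · rintro ⟨k, rfl⟩
        exact (QuotientGroup.eq_one_iff _).2 ⟨_, rfl⟩
    · obtain ⟨K, hK⟩ := fcl_undist h (fun k => (φ k : G))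
        (fun k k' => by rw [hadd]; rfl) (fun k k' hk => hinj (Subtype.ext hk)) ⊤
        (fun k g _ => (hc _ _).symm) (fun a => (π a : G))
      refine ⟨K, fun w k hwk i => hK w k ?_ i⟩
      have h1 := val_comp (E := G) π D.subtype w
      rw [show val (fun a => (π a : G)) w = D.subtype (val π w) from h1, hwk]
      rfl
  obtain ⟨LQ⟩ := hQ
  obtain ⟨B, hB, π', L', hL'⟩ := ce_rsec hCE LQ
  refine ⟨B, hB, π', L', ?_⟩
  have h1 := rsec_quot hL' g hgk
  rw [hgf] at h1
  exact h1

/-- Central extensions of virtual direct products of hyperbolic groups. -/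
theorem fcl_central_prod {G : Type} [Group G] (h : FCl G) {κ : Type} [Finite κ]
    {P : κ → Type} [∀ i, Group (P i)] (hP : ∀ i, RHyp (P i)) (p : G →* ∀ i, P i)
    (hp : p.range.FiniteIndex) (hZ : ∀ z, p z = 1 → ∀ g, z * g = g * z)
    (hT : {z : G | p z = 1 ∧ IsOfFinOrder z}.Finite) (hfgN : p.ker.FG)
    (hcom : ∀ a b : G, p (a * b * a⁻¹ * b⁻¹) = 1 → IsOfFinOrder (a * b * a⁻¹ * b⁻¹)) :
    Automatic G := by
  classical
  have := Fintype.ofFinite κ
  obtain ⟨L, D, hLfi, hkL, hDL, hkD, hDj, hDc, hDfi, hLD⟩ :=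
    prod_factors P (fun i => rhyp_fg (hP i)) p hp hZ hT hfgN hcom
  have hkfg : Group.FG p.ker := (Group.fg_iff_subgroup_fg _).2 hfgN
  obtain ⟨m, B, hB, ⟨eB⟩⟩ := VS.free_in_abelian p.ker
    (fun a b => Subtype.ext (hZ a a.2 b)) hkfg
  let ι : (Fin m → Multiplicative ℤ) →* G :=
    p.ker.subtype.comp (B.subtype.comp eB.symm.toMonoidHom)
  have hι : Function.Injective ι := by
    intro a b hab
    exact eB.symm.injective (Subtype.ext (Subtype.ext hab))
  have hιk : ∀ k, ι k ∈ p.ker := fun k => ((eB.symm k : B) : p.ker).2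
  have hc : ∀ k g, ι k * g = g * ι k := fun k g => hZ _ (hιk k) g
  -- representatives
  obtain ⟨F, hF, hFk⟩ : ∃ F : Set G, F.Finite ∧ ∀ e, p e = 1 → ∃ x ∈ F, ∃ k, e = ι k * x := by
    have hfin : Finite (p.ker ⧸ B) := inferInstance
    refine ⟨Set.range fun c : p.ker ⧸ B => ((c.out : p.ker) : G), Set.finite_range _, ?_⟩
    intro e he
    let e' : p.ker := ⟨e, he⟩
    have h1 : ((QuotientGroup.mk e' : p.ker ⧸ B).out)⁻¹ * e' ∈ B := by
      rw [← QuotientGroup.eq, QuotientGroup.out_eq']
    refine ⟨_, ⟨QuotientGroup.mk e', rfl⟩, eB ⟨_, h1⟩, ?_⟩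
    have h2 : ι (eB ⟨_, h1⟩) = (((QuotientGroup.mk e' : p.ker ⧸ B).out : p.ker) : G)⁻¹ * e := by
      show (((eB.symm (eB ⟨_, h1⟩) : B) : p.ker) : G) = _
      rw [eB.symm_apply_apply]
      rfl
    rw [h2, mul_assoc, ← hZ _ ((QuotientGroup.mk e' : p.ker ⧸ B).out).2 e, inv_mul_cancel_left]
  -- the factors
  let f : ∀ i, D i →* P i := fun i => ((Pi.evalMonoidHom P i).comp p).comp (D i).subtype
  have hfac : ∀ i, ∃ (B : Type) (_ : Finite B) (π : B → D i) (L : Language B),
      RSec π (f i) L := by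
    intro i
    refine factor_rsec h (hP i) (D i) (f i) ?_ ι hι hc (fun k => hkD i (hιk k)) ?_ F hF ?_
    · have h1 : (f i).range = (D i).map ((Pi.evalMonoidHom P i).comp p) := by
        show (((Pi.evalMonoidHom P i).comp p).comp (D i).subtype).range = _
        rw [MonoidHom.range_comp, range_subtype]
      rw [h1]
      exact hDfi i
    · intro k
      show p (ι k) i = 1
      rw [show p (ι k) = 1 from hιk k]
      rfl
    · intro d hd
      apply hFk
      funext j
      by_cases hj : j = i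
      · subst hj
        exact hd
      · exact hDj i d d.2 j hj
  choose B' hB' π' L' hL' using hfac
  have hP' := fun i => rsec_pad (hL' i)
  have hpi := rsecP_pi hP'
  -- the product map
  let s : ∀ i, D i →* L := fun i => inclusion (hDL i)
  have hs : Pairwise fun i j => ∀ (x : D i) (y : D j), Commute (s i x) (s j y) := by
    intro i j hij x y
    exact Subtype.ext (hDc i j hij x x.2 y y.2)
  let ψ : (∀ i, D i) →* L := MonoidHom.noncommPiCoprod s hs
  let fL : L →* ∀ i, P i := p.comp L.subtype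
  have hψ : ∀ e, fL (ψ e) = piHom f e := by
    have h1 : fL.comp ψ = piHom f := by
      apply MonoidHom.pi_ext
      intro i x
      show fL (ψ (Pi.mulSingle i x)) = piHom f (Pi.mulSingle i x)
      rw [show ψ (Pi.mulSingle i x) = s i x from
        MonoidHom.noncommPiCoprod_mulSingle s (hcomm := hs) i x]
      funext j
      show p (x : G) j = p ((Pi.mulSingle i x : ∀ i, D i) j : G) j
      by_cases hj : j = i
      · subst hj
        rw [Pi.mulSingle_eq_same]
      · rw [Pi.mulSingle_eq_of_ne hj, hDj i x x.2 j hj]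
        show _ = p 1 j
        rw [map_one]
        rfl
    intro e
    exact DFunLike.congr_fun h1 e
  have hpush := rsecP_push hpi ψ fL hψ (by
    intro e
    choose d hd hde using fun i => hLD e e.2 i
    refine ⟨fun i => ⟨d i, hd i⟩, ?_⟩
    rw [hψ]
    funext i
    exact hde i)
  have hfin : ∀ i, Finite (Option (B' i)) := fun i => by
    have := hB' i
    infer_instance
  have hfinF : (Subtype.val ⁻¹' F : Set L).Finite := hF.preimage Subtype.coe_injective.injOn
  have hL : Automatic L := by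
    refine central_automatic hpush.toR (sla_zm m).automatic
      (ι.codRestrict L (fun k => hkL (hιk k))) ?_ ?_ ?_ _ hfinF ?_
    · intro a b hab
      have h1 : ι a = ι b := congrArg (fun x : L => (x : G)) hab
      exact hι h1
    · intro k e
      exact Subtype.ext (hc k e)
    · intro k
      exact hιk k
    · intro e he
      obtain ⟨x, hx, k, hk⟩ := hFk e he
      have hx' : x ∈ L := by
        have h1 : x = (ι k)⁻¹ * e := by rw [hk, inv_mul_cancel_left]
        rw [h1]
        exact mul_mem (inv_mem (hkL (hιk k))) e.2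
      exact ⟨⟨x, hx'⟩, hx, k, Subtype.ext hk⟩
  exact automatic_of_fi L hL

/-- **Virtually solvable of finite rank by virtually a direct product of hyperbolic groups.** -/
theorem fcl_prodhyp_automatic {G : Type} [Group G] [Group.FG G] (h : FCl G) (N : Subgroup G)
    [N.Normal] (S : Subgroup G) (hSN : S ≤ N) (hSfi : S.relIndex N ≠ 0)
    (hSs : Group.IsSolvable S) (r : ℕ)
    (hr : ∀ K : Subgroup G, K ≤ S → K.FG → ∃ T : Finset G, T.card ≤ r ∧
      Subgroup.closure (T : Set G) = K) {κ : Type} [Finite κ] (P : κ → Type)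
    [∀ i, Group (P i)] (hP : ∀ i, RHyp (P i)) (Q0 : Subgroup (G ⧸ N)) [Q0.FiniteIndex]
    (e : Q0 ≃* ∀ i, P i) : Automatic G := by
  obtain ⟨_, A, hAn, hAN, hAfi, hAc, hAfg, hAtf, hAC⟩ := fcl_normal h N S hSN hSfi hSs r hr
  obtain ⟨C, p, hC, hp, hZ, hfg, hT, hcom⟩ := prod_reduce N A hAN hAc hAfg hAtf hAfi hAC (by
    intro x y z hz hx hy hfc
    obtain ⟨l, k, h1, h2, h3, h4⟩ := h
    refine isOfFinOrder_iff_pow_eq_one.2
      (fc_torsion' l k h1 h2 h3 h4 x⁻¹ y⁻¹ z ?_ ?_ ?_ hfc)
    · rw [hz, inv_inv, inv_inv]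
    · exact ((show Commute x z from hx).inv_left).eq
    · exact ((show Commute y z from hy).inv_left).eq) Q0 e
  exact automatic_of_fi C (fcl_central_prod (fcl_fi C h) hP p hp hZ hT hfg hcom)

end Pool.Agent.HYP
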