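import Pool.Agent.HYP.RSec
import Pool.Agent.SLA.Conv
import Pool.Agent.SLA.Reg
/-!
# Regular sections: padding, products and central extensions
-/
namespace Pool.Agent.HYP
open Pool.Agent.SLX Pool.Agent.SLA
open scoped Pointwise

/-- Regular sections whose words can be prolonged by a letter with value 1. -/
structure RSecP {B E P : Type} [Group E] [Group P] (π : B → E) (f : E →* P) (L : Language B)
    (o : B) : Prop where
  toR : RSec π f L
  one : π o = 1
  app : ∀ u ∈ L, u ++ [o] ∈ L

/-- Words with only the letter `none`. -/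
def noneL (B : Type) : Language (Option B) := {w | ∀ x ∈ w, x = none}

theorem noneL_reg {B : Type} : (noneL B).IsRegular := by
  refine regular_of_data (S := Prop) _ (fun x => (∀ b ∈ x, b = none)) Set.univ (Set.toFinite _)
    (fun _ _ _ => trivial) ?_
  intro x x' h y hy b hb
  have hx : ∀ b ∈ x, b = none := fun b hb => hy b (List.mem_append_left _ hb)
  have hx' : ∀ b ∈ x', b = none := by
    have h' : (∀ b ∈ x, b = none) = (∀ b ∈ x', b = none) := h
    rw [← h']
    exact hx
  rcases List.mem_append.1 hb with hb | hb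
  · exact hx' b hb
  · exact hy b (List.mem_append_right _ hb)

/-- The padded language. -/
def padL {B : Type} (L : Language B) : Language (Option B) := lmap some L * noneL B

theorem padL_reg {B : Type} {L : Language B} (h : L.IsRegular) : (padL L).IsRegular :=
  reg_mul (reg_map (Option.some_injective B) h) noneL_reg

theorem mem_padL {B : Type} {L : Language B} {w : List (Option B)} :
    w ∈ padL L ↔ ∃ u ∈ L, ∃ v : List (Option B), (∀ x ∈ v, x = none) ∧ u.map some ++ v = w := by
  constructor
  · intro h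
    obtain ⟨a, ⟨u, hu, rfl⟩, v, hv, rfl⟩ := Language.mem_mul.1 h
    exact ⟨u, hu, v, hv, rfl⟩
  · rintro ⟨u, hu, v, hv, rfl⟩
    exact Language.mem_mul.2 ⟨_, ⟨u, hu, rfl⟩, v, hv, rfl⟩

section
variable {B E P : Type} [Group E] [Group P]

/-- The padded values. -/
def pv (π : B → E) (b : Option B) : E := b.elim 1 π

theorem val_none (π : B → E) (v : List (Option B)) (hv : ∀ x ∈ v, x = none) :
    val (pv π) v = 1 := by
  induction v with
  | nil => rfl
  | cons a v ih =>
    have h1 : a = none := hv a (by simp)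
    have h2 := ih (fun x hx => hv x (List.mem_cons_of_mem _ hx))
    have e0 : val (pv π) (a :: v) = pv π a * val (pv π) v := by simp [val]
    rw [e0, h2, h1, mul_one]
    rfl

theorem val_some (π : B → E) (u : List B) : val (pv π) (u.map some) = val π u := by
  unfold val
  rw [List.map_map]
  rfl

theorem val_pad (π : B → E) (u : List B) (v : List (Option B)) (hv : ∀ x ∈ v, x = none) (t : ℕ) :
    val (pv π) ((u.map some ++ v).take t) = val π (u.take t) := by
  rw [List.take_append, val_append, val_none π _ (fun x hx => hv x (List.mem_of_mem_take hx)),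
    mul_one, ← List.map_take, val_some]

theorem val_pad' (π : B → E) (u : List B) (v : List (Option B)) (hv : ∀ x ∈ v, x = none) :
    val (pv π) (u.map some ++ v) = val π u := by
  rw [val_append, val_none π _ hv, mul_one, val_some]

theorem rsec_pad {π : B → E} {f : E →* P} {L : Language B} (h : RSec π f L) :
    RSecP (pv π) f (padL L) none := by
  refine ⟨⟨padL_reg h.reg, fun e => ?_, fun F hF => ?_⟩, rfl, fun u hu => ?_⟩
  · obtain ⟨u, hu, hue⟩ := h.surj e
    refine ⟨u.map some ++ [], mem_padL.2 ⟨u, hu, [], by simp, rfl⟩, ?_⟩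
    rw [val_pad' π u [] (by simp), hue]
  · obtain ⟨D, hD, hDD⟩ := h.ft F hF
    refine ⟨D, hD, ?_⟩
    intro w hw w' hw' hF' t
    obtain ⟨u, hu, v, hv, rfl⟩ := mem_padL.1 hw
    obtain ⟨u', hu', v', hv', rfl⟩ := mem_padL.1 hw'
    rw [val_pad' π u v hv, val_pad' π u' v' hv'] at hF'
    rw [val_pad π u v hv, val_pad π u' v' hv']
    exact hDD u hu u' hu' hF' t
  · obtain ⟨u1, hu1, v, hv, rfl⟩ := mem_padL.1 hu
    refine mem_padL.2 ⟨u1, hu1, v ++ [none], ?_, by rw [List.append_assoc]⟩
    intro x hx
    rcases List.mem_append.1 hx with hx | hx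
    · exact hv x hx
    · exact List.mem_singleton.1 hx

/-- Images. -/
theorem val_comp {E' : Type} [Group E'] (π : B → E') (ψ : E' →* E) (w : List B) :
    val (fun b => ψ (π b)) w = ψ (val π w) := by
  unfold val
  rw [map_list_prod, List.map_map]
  rfl

theorem rsecP_push {E' : Type} [Group E'] {π : B → E'} {f' : E' →* P} {L : Language B} {o : B}
    (h : RSecP π f' L o) (ψ : E' →* E) (f : E →* P) (hf : ∀ e, f (ψ e) = f' e)
    (hs : ∀ e : E, ∃ e' : E', f (ψ e') = f e) : RSecP (fun b => ψ (π b)) f L o := by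
  refine ⟨⟨h.toR.reg, fun e => ?_, fun F hF => ?_⟩, by show ψ (π o) = 1; rw [h.one, map_one],
    h.app⟩
  · obtain ⟨e', he'⟩ := hs e
    obtain ⟨u, hu, hue⟩ := h.toR.surj e'
    exact ⟨u, hu, by rw [val_comp, hf, hue, ← he', hf]⟩
  · obtain ⟨D, hD, hDD⟩ := h.toR.ft F hF
    refine ⟨ψ '' D, hD.image _, ?_⟩
    intro u hu v hv huv t
    rw [val_comp, val_comp, hf, hf] at huv
    rw [val_comp, val_comp, ← map_inv, ← map_mul]
    exact ⟨_, hDD u hu v hv huv t, rfl⟩

theorem fin_preimage {R : Type} [Group R] (g : P →* R) (hg : (g.ker : Set P).Finite) {F : Set R}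
    (hF : F.Finite) : (g ⁻¹' F).Finite := by
  classical
  have h1 : g ⁻¹' F ⊆ ⋃ r ∈ F, (if h : ∃ p, g p = r then (fun k => h.choose * k) '' (g.ker : Set P)
      else ∅) := by
    intro p hp
    refine Set.mem_biUnion hp ?_
    have h2 : ∃ p', g p' = g p := ⟨p, rfl⟩
    rw [dif_pos h2]
    refine ⟨h2.choose⁻¹ * p, ?_, mul_inv_cancel_left _ _⟩
    show g (h2.choose⁻¹ * p) = 1
    rw [map_mul, map_inv, h2.choose_spec, inv_mul_cancel]
  refine (hF.biUnion fun r _ => ?_).subset h1
  split_ifs
  · exact hg.image _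
  · exact Set.finite_empty

theorem rsec_quot {R : Type} [Group R] {π : B → E} {f : E →* P} {L : Language B}
    (h : RSec π f L) (g : P →* R) (hg : (g.ker : Set P).Finite) : RSec π (g.comp f) L := by
  refine ⟨h.reg, fun e => ?_, fun F hF => ?_⟩
  · obtain ⟨u, hu, hue⟩ := h.surj e
    exact ⟨u, hu, congrArg g hue⟩
  · obtain ⟨D, hD, hDD⟩ := h.ft _ (fin_preimage g hg hF)
    refine ⟨D, hD, fun u hu v hv huv t => hDD u hu v hv ?_ t⟩
    show g ((f (val π u))⁻¹ * f (val π v)) ∈ F
    rw [map_mul, map_inv]
    exact huv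
end

section
variable {κ : Type} {B E P : κ → Type} [∀ i, Group (E i)] [∀ i, Group (P i)]

/-- Words all of whose components are in the given languages. -/
def piL (L : ∀ i, Language (B i)) : Language (∀ i, B i) :=
  {w | ∀ i, w.map (fun b => b i) ∈ L i}

/-- The product of homomorphisms. -/
def piHom (f : ∀ i, E i →* P i) : (∀ i, E i) →* ∀ i, P i where
  toFun e i := f i (e i)
  map_one' := funext fun i => map_one (f i)
  map_mul' a b := funext fun i => map_mul (f i) (a i) (b i)

theorem piL_reg [Finite κ] {L : ∀ i, Language (B i)} (h : ∀ i, (L i).IsRegular) :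
    (piL L).IsRegular := by
  refine regular_of_data (S := ∀ i, Language (B i)) _
    (fun x i => (L i).leftQuotient (x.map fun b => b i))
    (Set.pi Set.univ fun i => Set.range (L i).leftQuotient)
    (Set.Finite.pi fun i => (h i).finite_range_leftQuotient) ?_ ?_
  · intro x y _ i _
    exact ⟨_, rfl⟩
  · intro x x' hd y hy i
    have h1 : (L i).leftQuotient (x.map fun b => b i) =
      (L i).leftQuotient (x'.map fun b => b i) := congrFun hd i
    have h2 : (x ++ y).map (fun b => b i) ∈ L i := hy i
    rw [List.map_append] at h2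
    have h3 : y.map (fun b => b i) ∈ (L i).leftQuotient (x.map fun b => b i) := h2
    rw [h1] at h3
    show (x' ++ y).map (fun b => b i) ∈ L i
    rw [List.map_append]
    exact h3

theorem val_pi (π : ∀ i, B i → E i) (w : List (∀ i, B i)) (i : κ) :
    val (fun b : (∀ i, B i) => fun i => π i (b i)) w i = val (π i) (w.map fun b => b i) := by
  induction w with
  | nil => rfl
  | cons a w ih =>
    have e0 : val (fun b : (∀ i, B i) => fun i => π i (b i)) (a :: w) =
      (fun i => π i (a i)) * val (fun b : (∀ i, B i) => fun i => π i (b i)) w := by simp [val]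
    have e1 : val (π i) ((a :: w).map fun b => b i) =
      π i (a i) * val (π i) (w.map fun b => b i) := by simp [val]
    rw [e0, e1, ← ih]
    rfl

theorem rsecP_pi [Finite κ] {π : ∀ i, B i → E i} {f : ∀ i, E i →* P i}
    {L : ∀ i, Language (B i)} {o : ∀ i, B i} (h : ∀ i, RSecP (π i) (f i) (L i) (o i)) :
    RSecP (fun b : (∀ i, B i) => fun i => π i (b i)) (piHom f) (piL L) o := by
  classical
  refine ⟨⟨piL_reg fun i => (h i).toR.reg, fun e => ?_, fun F hF => ?_⟩,
    funext fun i => (h i).one, fun u hu i => ?_⟩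
  · choose u hu hue using fun i => (h i).toR.surj (e i)
    obtain ⟨n, hn⟩ : ∃ n, ∀ i, (u i).length ≤ n := by
      obtain ⟨n, hn⟩ := (Set.finite_range fun i => (u i).length).bddAbove
      exact ⟨n, fun i => hn ⟨i, rfl⟩⟩
    have hrep : ∀ i k, u i ++ List.replicate k (o i) ∈ L i := by
      intro i k
      induction k with
      | zero => simpa using hu i
      | succ k ih =>
        rw [List.replicate_succ', ← List.append_assoc]
        exact (h i).app _ ih
    have hval : ∀ i k, val (π i) (u i ++ List.replicate k (o i)) = val (π i) (u i) := by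
      intro i k
      induction k with
      | zero => simp
      | succ k ih =>
        rw [List.replicate_succ', ← List.append_assoc, val_append, ih]
        simp [val, (h i).one]
    set u' : ∀ i, List (B i) := fun i => u i ++ List.replicate (n - (u i).length) (o i) with hu'
    have hl : ∀ i, (u' i).length = n := by
      intro i
      have := hn i
      simp only [hu', List.length_append, List.length_replicate]
      omega
    set w : List (∀ i, B i) := List.ofFn (n := n) (fun j i => (u' i).get (j.cast (hl i).symm))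
      with hw
    have hwi : ∀ i, w.map (fun b => b i) = u' i := by
      intro i
      apply List.ext_getElem
      · simp [hw, hl]
      · intro j h1 h2
        simp [hw]
    refine ⟨w, fun i => by rw [hwi]; exact hrep i _, funext fun i => ?_⟩
    show f i (val (fun b : (∀ i, B i) => fun i => π i (b i)) w i) = f i (e i)
    rw [val_pi, hwi, hu', hval, hue]
  · choose D hD hDD using fun i => (h i).toR.ft ((fun p => p i) '' F) (hF.image _)
    refine ⟨Set.pi Set.univ D, Set.Finite.pi hD, ?_⟩
    intro u hu v hv huv t i _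
    have h1 := hDD i (u.map fun b => b i) (hu i) (v.map fun b => b i) (hv i) ⟨_, huv, by
      show (f i (val (fun b : (∀ i, B i) => fun i => π i (b i)) u i))⁻¹ *
        f i (val (fun b : (∀ i, B i) => fun i => π i (b i)) v i) = _
      rw [val_pi, val_pi]⟩ t
    show (val (fun b : (∀ i, B i) => fun i => π i (b i)) (u.take t) i)⁻¹ *
      val (fun b : (∀ i, B i) => fun i => π i (b i)) (v.take t) i ∈ D i
    rw [val_pi, val_pi, List.map_take, List.map_take]
    exact h1
  · rw [List.map_append]
    exact (h i).app _ (hu i)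
end

/-- **Central extensions.** -/
theorem central_automatic {B E P Z : Type} [Finite B] [Group E] [Group P] [Group Z]
    {π : B → E} {f : E →* P} {L : Language B} (h : RSec π f L) (hZ : Automatic Z) (ι : Z →* E)
    (hι : Function.Injective ι) (hc : ∀ k e, ι k * e = e * ι k) (hιf : ∀ k, f (ι k) = 1)
    (F : Set E) (hF : F.Finite) (hker : ∀ e, f e = 1 → ∃ x ∈ F, ∃ k, e = ι k * x) :
    Automatic E := by
  classical
  obtain ⟨C, hC, σ, L', hL'⟩ := hZ
  have hft := ftp_of_structure hL'
  have hP := rsec_pad h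
  set F0 : Set E := {x ∈ F | f x = 1} with hF0
  have hF0f : F0.Finite := hF.subset fun x hx => hx.1
  have hF0fin : Finite F0 := hF0f.to_subtype
  set M : Language (Option B × Option C) :=
    {w | w.map Prod.fst ∈ padL L ∧ w.map Prod.snd ∈ padL L'} with hM
  have hMr : M.IsRegular := by
    refine regular_of_data (S := Language (Option B) × Language (Option C)) _
      (fun x => ((padL L).leftQuotient (x.map Prod.fst), (padL L').leftQuotient (x.map Prod.snd)))
      (Set.range (padL L).leftQuotient ×ˢ Set.range (padL L').leftQuotient)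
      ((padL_reg h.reg).finite_range_leftQuotient.prod
        (padL_reg hL'.1).finite_range_leftQuotient) ?_ ?_
    · intro x y _
      exact ⟨⟨_, rfl⟩, ⟨_, rfl⟩⟩
    · intro x x' hd y hy
      have h1 : (padL L).leftQuotient (x.map Prod.fst) = (padL L).leftQuotient (x'.map Prod.fst) :=
        congrArg Prod.fst hd
      have h2 : (padL L').leftQuotient (x.map Prod.snd) =
        (padL L').leftQuotient (x'.map Prod.snd) := congrArg Prod.snd hd
      obtain ⟨h3, h4⟩ := hy
      rw [List.map_append] at h3 h4
      have h5 : y.map Prod.fst ∈ (padL L).leftQuotient (x.map Prod.fst) := h3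
      have h6 : y.map Prod.snd ∈ (padL L').leftQuotient (x.map Prod.snd) := h4
      rw [h1] at h5
      rw [h2] at h6
      exact ⟨by rw [List.map_append]; exact h5, by rw [List.map_append]; exact h6⟩
  set X : Type := (Option B × Option C) ⊕ F0
  set τ : X → E := Sum.elim (fun p : Option B × Option C => pv π p.1 * ι (pv σ p.2))
    (fun x : F0 => (x : E)) with hτ
  have hval : ∀ w : List (Option B × Option C), val τ (w.map Sum.inl) =
      val (pv π) (w.map Prod.fst) * ι (val (pv σ) (w.map Prod.snd)) := by
    intro w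
    induction w with
    | nil => simp [val]
    | cons a w ih =>
      have e0 : val τ ((a :: w).map Sum.inl) = (pv π a.1 * ι (pv σ a.2)) *
        val τ (w.map Sum.inl) := by simp [val, hτ]
      have e1 : val (pv π) ((a :: w).map Prod.fst) =
        pv π a.1 * val (pv π) (w.map Prod.fst) := by simp [val]
      have e2 : val (pv σ) ((a :: w).map Prod.snd) =
        pv σ a.2 * val (pv σ) (w.map Prod.snd) := by simp [val]
      rw [e0, e1, e2, ih, map_mul, mul_assoc, mul_assoc, ← mul_assoc (ι (pv σ a.2)), hc,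
        mul_assoc]
  set N2 : Language X := {w | ∃ x : F0, w = [Sum.inr x]} with hN2
  set M1 : Language X := lmap Sum.inl M with hM1
  set M2 : Language X := M1 * N2 with hM2
  have hM2r : M2.IsRegular := by
    refine reg_mul (reg_map Sum.inl_injective hMr) ?_
    refine regular_of_data (S := List X) _ (fun x => x)
      (insert [] (Set.range fun x : F0 => [Sum.inr x]))
      ((Set.finite_range _).insert _) ?_ ?_
    · rintro x y ⟨z, hz⟩
      rcases List.append_eq_singleton_iff.1 hz with ⟨h1, _⟩ | ⟨h1, _⟩
      · exact Or.inl h1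
      · exact Or.inr ⟨z, h1.symm⟩
    · intro x x' hd y hy
      have hd' : x = x' := hd
      rw [← hd']
      exact hy
  refine ⟨X, inferInstance, τ, M2, structure_of_ftp hM2r ?_ ?_⟩
  · intro e
    obtain ⟨u, hu, hue⟩ := hP.toR.surj e
    obtain ⟨x, hx, k, hk⟩ := hker ((val (pv π) u)⁻¹ * e) (by
      rw [map_mul, map_inv, hue, inv_mul_cancel])
    have hx0 : f x = 1 := by
      have h1 : f ((val (pv π) u)⁻¹ * e) = 1 := by rw [map_mul, map_inv, hue, inv_mul_cancel]
      rw [hk, map_mul, hιf, one_mul] at h1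
      exact h1
    obtain ⟨v, hv, hvk⟩ := hL'.2.1 k
    obtain ⟨u0, hu0, z0, hz0, rfl⟩ := mem_padL.1 hu
    -- the parallel word
    set n := max (u0.map some ++ z0).length v.length with hn
    set p : List (Option B) := (u0.map some ++ z0) ++ List.replicate (n - (u0.map some ++ z0).length)
      none with hp
    set q : List (Option C) := v.map some ++ List.replicate (n - v.length) none with hq
    have hpl : p.length = q.length := by
      simp only [hp, hq, List.length_append, List.length_map, List.length_replicate]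
      simp only [List.length_append, List.length_map] at hn
      omega
    have hpm : p ∈ padL L := by
      refine mem_padL.2 ⟨u0, hu0, z0 ++ List.replicate (n - (u0.map some ++ z0).length) none, ?_,
        by rw [hp, List.append_assoc]⟩
      intro x hx
      rcases List.mem_append.1 hx with hx | hx
      · exact hz0 x hx
      · exact List.eq_of_mem_replicate hx
    have hqm : q ∈ padL L' := mem_padL.2 ⟨v, hv, _, fun x hx => List.eq_of_mem_replicate hx, rfl⟩
    have hpv : val (pv π) p = val (pv π) (u0.map some ++ z0) := by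
      rw [hp, val_append, val_none π _ (fun x hx => List.eq_of_mem_replicate hx), mul_one]
    have hqv : val (pv σ) q = k := by
      rw [hq, val_pad' σ v _ (fun x hx => List.eq_of_mem_replicate hx), hvk]
    have hz1 : (p.zip q).map Prod.fst = p := List.map_fst_zip hpl.le
    have hz2 : (p.zip q).map Prod.snd = q := List.map_snd_zip hpl.ge
    refine ⟨(p.zip q).map Sum.inl ++ [Sum.inr ⟨x, hx, hx0⟩], Language.mem_mul.2
      ⟨_, ⟨p.zip q, ⟨by rw [hz1]; exact hpm, by rw [hz2]; exact hqm⟩, rfl⟩, _,
        ⟨⟨x, hx, hx0⟩, rfl⟩, rfl⟩, ?_⟩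
    rw [val_append, hval, hz1, hz2, hpv, hqv]
    have e1 : val τ [Sum.inr (⟨x, hx, hx0⟩ : F0)] = x := by simp [val, hτ]
    rw [e1, mul_assoc, ← hk, mul_inv_cancel_left]
  · intro g
    obtain ⟨D1, hD1, hDD1⟩ := hP.toR.ft {f g} (Set.finite_singleton _)
    set K : Set Z := ι ⁻¹' (D1⁻¹ * F0 * {g} * F0⁻¹) with hK
    have hKf : K.Finite := by
      refine Set.Finite.preimage hι.injOn ?_
      exact (((hD1.inv.mul hF0f).mul (Set.finite_singleton g)).mul hF0f.inv)
    choose D2 hD2 hDD2 using hft
    set DD : Set Z := ⋃ k ∈ K, D2 k with hDD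
    have hDDf : DD.Finite := hKf.biUnion fun k _ => hD2 k
    refine ⟨(insert 1 F0)⁻¹ * D1 * (ι '' DD) * (insert 1 F0), ?_, ?_⟩
    · exact ((((hF0f.insert 1).inv.mul hD1).mul (hDDf.image _)).mul (hF0f.insert 1))
    intro W hW W' hW' hg t
    obtain ⟨_, ⟨w, ⟨hw1, hw2⟩, rfl⟩, _, ⟨x, rfl⟩, rfl⟩ := Language.mem_mul.1 hW
    obtain ⟨_, ⟨w', ⟨hw1', hw2'⟩, rfl⟩, _, ⟨x', rfl⟩, rfl⟩ := Language.mem_mul.1 hW'
    have e1 : ∀ x : F0, val τ [Sum.inr x] = x := fun x => by simp [val, hτ]
    rw [val_append, val_append, hval, hval, e1, e1] at hg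
    set a := val (pv π) (w.map Prod.fst) with ha
    set a' := val (pv π) (w'.map Prod.fst) with ha'
    set k := val (pv σ) (w.map Prod.snd) with hk
    set k' := val (pv σ) (w'.map Prod.snd) with hk'
    have hfa : (f a)⁻¹ * f a' = f g := by
      have h1 := congrArg f hg
      rw [map_mul, map_mul, map_mul, map_mul, map_mul, hιf, hιf, x.2.2, x'.2.2, mul_one,
        mul_one, mul_one, mul_one] at h1
      rw [← h1, inv_mul_cancel_left]
    have h1 : ∀ t, (val (pv π) ((w.map Prod.fst).take t))⁻¹ *
        val (pv π) ((w'.map Prod.fst).take t) ∈ D1 := hDD1 _ hw1 _ hw1' hfa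
    have h2 : a⁻¹ * a' ∈ D1 := by
      have := h1 (w.length + w'.length)
      rw [List.take_of_length_le (by rw [List.length_map]; omega),
        List.take_of_length_le (by rw [List.length_map]; omega)] at this
      exact this
    have h3 : k⁻¹ * k' ∈ K := by
      show ι (k⁻¹ * k') ∈ D1⁻¹ * F0 * {g} * F0⁻¹
      have h4 : ι (k⁻¹ * k') = (a⁻¹ * a')⁻¹ * x * g * (x' : E)⁻¹ := by
        rw [map_mul, map_inv, mul_inv_rev, inv_inv, eq_mul_inv_iff_mul_eq]
        have h5 : a * (x : E) * g = (ι k)⁻¹ * (a' * ι k' * x') := by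
          rw [← hg, ← hc k a]
          group
        calc (ι k)⁻¹ * ι k' * x' = a'⁻¹ * (a' * (ι k)⁻¹) * ι k' * x' := by group
          _ = a'⁻¹ * ((ι k)⁻¹ * a') * ι k' * x' := by
            have h6 : a' * (ι k)⁻¹ = (ι k)⁻¹ * a' := by
              have := hc k a'
              calc a' * (ι k)⁻¹ = (ι k)⁻¹ * (ι k * a') * (ι k)⁻¹ := by group
                _ = (ι k)⁻¹ * (a' * ι k) * (ι k)⁻¹ := by rw [this]
                _ = _ := by group
            rw [h6]
          _ = a'⁻¹ * ((ι k)⁻¹ * (a' * ι k' * x')) := by group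
          _ = a'⁻¹ * a * x * g := by rw [← h5]; group
      rw [h4]
      exact Set.mul_mem_mul (Set.mul_mem_mul (Set.mul_mem_mul (Set.inv_mem_inv.2 h2) x.2)
        (Set.mem_singleton g)) (Set.inv_mem_inv.2 x'.2)
    -- the other component
    obtain ⟨v, hv, z, hz, hvz⟩ := mem_padL.1 hw2
    obtain ⟨v', hv', z', hz', hvz'⟩ := mem_padL.1 hw2'
    have h4 : ∀ t, (val (pv σ) ((w.map Prod.snd).take t))⁻¹ *
        val (pv σ) ((w'.map Prod.snd).take t) ∈ DD := by
      intro t
      refine Set.mem_biUnion h3 ?_
      rw [← hvz, ← hvz', val_pad σ v z hz, val_pad σ v' z' hz']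
      refine hDD2 _ v hv v' hv' ?_ t
      rw [hk, hk', ← hvz, ← hvz', val_pad' σ v z hz, val_pad' σ v' z' hz']
      exact mul_inv_cancel_left _ _
    have h5 : ∀ (w : List (Option B × Option C)) (x : F0), ∃ y ∈ insert 1 F0,
        val τ ((w.map Sum.inl ++ [Sum.inr x]).take t) =
          val (pv π) ((w.map Prod.fst).take t) * ι (val (pv σ) ((w.map Prod.snd).take t)) * y := by
      intro w x
      rw [List.take_append, val_append, ← List.map_take, hval, List.map_take, List.map_take]
      rcases Nat.eq_zero_or_pos (t - (w.map (Sum.inl : _ → X)).length) with h6 | h6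
      · refine ⟨1, Set.mem_insert _ _, ?_⟩
        rw [h6, List.take_zero]
        rfl
      · refine ⟨x, Set.mem_insert_of_mem _ x.2, ?_⟩
        have h6' : ([Sum.inr x] : List X).length ≤ t - (w.map (Sum.inl : _ → X)).length := h6
        rw [List.take_of_length_le h6', e1]
    obtain ⟨y, hy, hy'⟩ := h5 w x
    obtain ⟨y2, hy2, hy2'⟩ := h5 w' x'
    rw [hy', hy2']
    set α := val (pv π) ((w.map Prod.fst).take t)
    set α' := val (pv π) ((w'.map Prod.fst).take t)
    set β := val (pv σ) ((w.map Prod.snd).take t)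
    set β' := val (pv σ) ((w'.map Prod.snd).take t)
    have h7 : (α * ι β * y)⁻¹ * (α' * ι β' * y2) = y⁻¹ * (α⁻¹ * α') * ι (β⁻¹ * β') * y2 := by
      have h8 : ∀ e : E, (ι β)⁻¹ * e = e * (ι β)⁻¹ := by
        intro e
        have := hc β e
        calc (ι β)⁻¹ * e = (ι β)⁻¹ * (e * ι β) * (ι β)⁻¹ := by group
          _ = (ι β)⁻¹ * (ι β * e) * (ι β)⁻¹ := by rw [this]
          _ = _ := by group
      calc (α * ι β * y)⁻¹ * (α' * ι β' * y2) = y⁻¹ * ((ι β)⁻¹ * (α⁻¹ * α')) * ι β' * y2 := by
            group
        _ = y⁻¹ * ((α⁻¹ * α') * (ι β)⁻¹) * ι β' * y2 := by rw [h8]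
        _ = _ := by rw [map_mul, map_inv]; group
    rw [h7]
    exact Set.mul_mem_mul (Set.mul_mem_mul (Set.mul_mem_mul (Set.inv_mem_inv.2 hy) (h1 t))
      ⟨_, h4 t, rfl⟩) hy2

end Pool.Agent.HYP
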