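import Pool.Agent.HYP.Defs
import Pool.Agent.SLA.Conv
import Pool.Agent.VH.FC3
/-!
# Statements of the modules (all proofs are in the files named in the comments)
-/
namespace Pool.Agent.HYP
open Pool.Agent.SLX Pool.Agent.SLA

/-! MORSE1 (file Morse.lean) -/
theorem morse {P : Type} [Group P] (L : RLen P) (r a b : ℕ) : ∃ R : ℕ, ∀ (n : ℕ) (p : ℕ → P),
    QG L r a b n p →
    (∀ i, i ≤ n → L.l ((p 0)⁻¹ * p i) + L.l ((p i)⁻¹ * p n) ≤ L.l ((p 0)⁻¹ * p n) + R) ∧
    ∀ (C : ℕ) (q : P), L.l ((p 0)⁻¹ * q) + L.l (q⁻¹ * p n) ≤ L.l ((p 0)⁻¹ * p n) + C →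
      ∃ i, i ≤ n ∧ L.l (q⁻¹ * p i) ≤ R + C := by sorry

/-! WLEN (file WLen.lean) -/
section
variable {A P : Type} [Group P] {π : A → P}

theorem wlen_le (w : List A) : wlen π (val π w) ≤ w.length := by sorry
theorem wlen_word (h : Gen π) (g : P) : ∃ w : List A, w.length = wlen π g ∧ val π w = g := by sorry
theorem wlen_one : wlen π (1 : P) = 0 := by sorry
theorem wlen_mul (h : Gen π) (g g' : P) : wlen π (g * g') ≤ wlen π g + wlen π g' := by sorry
theorem wlen_inv (h : Gen π) (g : P) : wlen π g⁻¹ = wlen π g := by sorry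
theorem wlen_letter (a : A) : wlen π (π a) ≤ 1 := by sorry
theorem wlen_fin [Finite A] (h : Gen π) (n : ℕ) : {g : P | wlen π g ≤ n}.Finite := by sorry
/-- Prefixes of a geodesic word are geodesic. -/
theorem wlen_take (h : Gen π) (w : List A) (hw : wlen π (val π w) = w.length) (i j : ℕ)
    (hij : i ≤ j) (hj : j ≤ w.length) :
    wlen π ((val π (w.take i))⁻¹ * val π (w.take j)) = j - i := by sorry
/-- Comparison with the hyperbolic length. -/
theorem wlen_cmp [Finite A] (h : Gen π) (L : RLen P) : ∃ a b : ℕ, ∀ g : P,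
    L.l g ≤ a * wlen π g ∧ wlen π g ≤ a * L.l g + b := by sorry
end

/-! NEAR (file Near.lean; uses morse, wlen_cmp) -/
theorem near_path {A P : Type} [Group P] {π : A → P} [Finite A] (h : Gen π) (L : RLen P)
    (κ M : ℕ) : ∃ N : ℕ, ∀ u v : List A, QW π κ u → QW π κ v →
      wlen π ((val π u)⁻¹ * val π v) ≤ M → ∀ i, i ≤ u.length → ∃ j, j ≤ v.length ∧
        wlen π ((val π (u.take i))⁻¹ * val π (v.take j)) ≤ N := by sorry

/-! GEOFT (file Near.lean): geodesic words fellow travel -/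
theorem geo_ft {A P : Type} [Group P] {π : A → P} [Finite A] (h : Gen π) (L : RLen P)
    (M : ℕ) : ∃ N : ℕ, ∀ u v : List A, wlen π (val π u) = u.length →
      wlen π (val π v) = v.length → wlen π ((val π u)⁻¹ * val π v) ≤ M →
      ∀ t, wlen π ((val π (u.take t))⁻¹ * val π (v.take t)) ≤ N := by sorry

/-! RHO (file Rho.lean; uses WLEN) -/
theorem exists_rho {m : ℕ} {A E P : Type} [Group E] [Group P] {π : A → E} {f : E →* P}
    {φ : (Fin m → ℤ) → E} (h : CE m π f φ) : ∃ (K : ℕ) (ρ : E → Fin m → ℤ),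
    Rho m π f φ K ρ := by sorry

/-! TYPES (file Types.lean; uses NEAR, GEOFT, WLEN) -/
theorem exists_types {m : ℕ} {A E P : Type} [Finite A] [Group E] [Group P] {π : A → E}
    {f : E →* P} {φ : (Fin m → ℤ) → E} (h : CE m π f φ) (L : RLen P) {K : ℕ}
    {ρ : E → Fin m → ℤ} (hρ : Rho m π f φ K ρ) :
    ∃ (T : Type) (ty : E → T), (Set.range ty).Finite ∧ ∀ e e' : E, ty e = ty e' → ∀ g : E,
      wlen (fun a => f (π a)) (f (e * g)) =
        wlen (fun a => f (π a)) (f e) + wlen (fun a => f (π a)) (f g) →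
      wlen (fun a => f (π a)) (f (e' * g)) =
        wlen (fun a => f (π a)) (f e') + wlen (fun a => f (π a)) (f g) ∧
      ρ (e' * g) - ρ e' = ρ (e * g) - ρ e := by sorry

/-! AUTO (file Auto.lean; uses all of the above and SLA.structure_of_ftp) -/
theorem ce_automatic {m : ℕ} {A E P : Type} [Finite A] [Group E] [Group P] {π : A → E}
    {f : E →* P} {φ : (Fin m → ℤ) → E} (h : CE m π f φ) (L : RLen P) : Automatic E := by sorry

/-! PULL (file Pull.lean) -/
theorem rhyp_pull {P Q : Type} [Group P] [Group Q] (f : P →* Q) (hk : (f.ker : Set P).Finite)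
    (hr : f.range.FiniteIndex) (h : RHyp Q) : RHyp P := by sorry

/-! ASH (file Ash.lean): hyperbolic groups have finite asymptotic dimension -/
theorem rhyp_asdim {P : Type} [Group P] (h : RHyp P) : ∃ D, VNP.AsdimLE P D := by sorry

/-! UND (file Und.lean): free abelian subgroups with centraliser of finite index are undistorted -/
theorem fcl_undist {G : Type} [Group G] (h : VH.FCl G) {m : ℕ} (φ : (Fin m → ℤ) → G)
    (hadd : ∀ k k', φ (k + k') = φ k * φ k') (hinj : Function.Injective φ) (C : Subgroup G)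
    [C.FiniteIndex] (hC : ∀ k, ∀ g ∈ C, g * φ k = φ k * g) {A : Type} [Finite A] (π : A → G) :
    ∃ K : ℕ, ∀ (w : List A) (k : Fin m → ℤ), val π w = φ k → ∀ i, |k i| ≤ K * w.length := by
  sorry

/-! FINAL (file Final.lean; uses ce_automatic, rhyp_pull, fcl_undist, VH.fcl_normal,
SLA.automatic_of_fi) -/
theorem fcl_hyp_automatic {G : Type} [Group G] [Group.FG G] (h : VH.FCl G) (N : Subgroup G)
    [N.Normal] (S : Subgroup G) (hSN : S ≤ N) (hSfi : S.relIndex N ≠ 0)
    (hSs : Group.IsSolvable S) (r : ℕ)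
    (hr : ∀ K : Subgroup G, K ≤ S → K.FG → ∃ T : Finset G, T.card ≤ r ∧
      Subgroup.closure (T : Set G) = K) (hQ : RHyp (G ⧸ N)) : Automatic G := by sorry

end Pool.Agent.HYP
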